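import Pool.Agent.Helper20.UI.SpB
import Pool.Agent.Helper29.FT2.Class

/-!
# UI-15 B1: a line with all pairwise intersections equal to `E`, `dim E = k - 1`, is impossible for `2 ≤ k`, `2 k + 2 ≤ n`

Adapt `Pool/Agent/Helper20/SI/B1.lean` (three theorems `b1_le`, `b1_alpha`, `b1_lt`; proved). `PerpAdj U W` becomes `Adj h k U W ∧ U ≤ pp h W`, `OppMod 1 U W` becomes `Adj h k U W ∧ ¬ U ≤ pp h W`; `adj_cases` becomes `by_cases`. Changes: in `b1_alpha`, `z` must be
isotropic: (K) `exists_iso_pp` for `X = E' ⊔ span {a}`, `x = y` (`y ∈ pp X` as everything is in the totally isotropic `T₀`). In `b1_lt` (1b): (K') `exists_iso_pp_of_not_le` for `X = T ⊔ T'` and `A`: isotropic `v ∈ pp X`, `x ∈ A`, `h v x = 1`; transvection `su` with centre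
`v` and `c ≠ 0` of `exists_c0`: `x + c • v ∈ A'`, `h (x + c • v) x = σ c ≠ 0` (`sig0`), so not `A ≤ pp A'`. In (2): `a ∈ T₀`, `b ∈ T₁`, `h a b = 1` (so `h b a = σ 1 = 1`), `z₀ = a + c • b`: `h z₀ z₀ = c + σ c = 0`; `y`: isotropic, `y ∈ pp (T₀ ⊔ T₁)`,
`y ∉ E`: `exists_isotropic_off` (`E ≤ pp (T₀ ⊔ T₁)`, `finrank (pp (T₀ ⊔ T₁)) = n - k - 1 ≥ k + 1 = finrank E + 2`). `z₁ = z₀ + y`; `h a z_i = c ≠ 0`, `h b z_i = 1`; `R_i = E ⊔ span {z_i}`. Everything else is the same.
-/

open Module Submodule Finset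

set_option linter.unusedSectionVars false

namespace Pool.Agent.Helper20.UI

open Pool.Agent.Helper29.FT Pool.Agent.Helper29.FT2

variable {F V : Type*} [Field F] [AddCommGroup V] [Module F V] [FiniteDimensional F V]
variable {σ : F →+* F} {h : V →ₛₗ[σ] V →ₗ[F] F}

variable [Finite F] [DecidableEq (Submodule F V)] {B : Finset (Finset (Submodule F V))}
  {k α s t μ : ℕ}

theorem b1_add (p q p' q' : V) :
    h (p + q) (p' + q') = h p p' + h p q' + (h q p' + h q q') := by
  rw [map_add h p q, LinearMap.add_apply, map_add, map_add]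

/-- every element of the line contains `E` -/
theorem b1_le (hS : IsSPG (IsoGr h k) B α s t μ) (hs : 2 ≤ s)
    {l : Finset (Submodule F V)} (hl : l ∈ B) {E : Submodule F V}
    (hE : ∀ U ∈ l, ∀ W ∈ l, U ≠ W → U ⊓ W = E) {T : Submodule F V} (hT : T ∈ l) : E ≤ T := by
  obtain ⟨W, hW, hWT, -⟩ := SI.exists_third hS hs hl T T
  rw [← hE T hT W hW hWT.symm]
  exact inf_le_left

/-- if all pairs `OppMod 1` are collinear then `α = 1` -/
theorem b1_alpha (hH : Herm h)
    (hS : IsSPG (IsoGr h k) B α s t μ) (hs : 2 ≤ s) (hk2 : 2 ≤ k)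
    (hadj : ∀ U W, Coll B U W → finrank F (U ⊓ W : Submodule F V) + 1 = k)
    {l : Finset (Submodule F V)} (hl : l ∈ B) {E : Submodule F V} (hdE : finrank F E + 1 = k)
    (hE : ∀ U ∈ l, ∀ W ∈ l, U ≠ W → U ⊓ W = E)
    (hO : ∀ U W, Adj h k U W → ¬ U ≤ pp h W → Coll B U W) : α = 1 := by
  have hdim : ∀ T ∈ l, finrank F T = k := fun T hT => (mem_IsoGr.mp (hS.lines_sub l hl hT)).1
  have hti : ∀ T ∈ l, TI h T := fun T hT => (mem_IsoGr.mp (hS.lines_sub l hl hT)).2
  have hle : ∀ T ∈ l, E ≤ T := fun T hT => b1_le hS hs hl hE hT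
  have hpos : 0 < #l := by
    rw [hS.line_card l hl]
    omega
  obtain ⟨T₀, hT₀⟩ := card_pos.mp hpos
  have hd₀ := hdim T₀ hT₀
  have ht₀ := hti T₀ hT₀
  obtain ⟨a, haT, haE⟩ := exists_notMem (X := T₀) (Y := E) (by omega)
  obtain ⟨E', -, hE'E, hdE'⟩ := exists_between (F := F) (A := (⊥ : Submodule F V)) (X := E)
    (m := k - 2) bot_le (by rw [finrank_bot]; omega) (by omega)
  obtain ⟨y, hyE, hyE'⟩ := exists_notMem (X := E) (Y := E') (by omega)
  have hyT : y ∈ T₀ := hle T₀ hT₀ hyE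
  have haE' : a ∉ E' := fun h => haE (hE'E h)
  have hy : y ∉ E' ⊔ span F {a} := by
    intro h
    obtain ⟨e, he, x, hx, hex⟩ := mem_sup.mp h
    obtain ⟨c, rfl⟩ := mem_span_singleton.mp hx
    have h1 : c • a ∈ E := by
      have h2 : c • a = y - e := by rw [← hex]; abel
      rw [h2]
      exact E.sub_mem hyE (hE'E he)
    have hc : c = 0 := by
      by_contra hc
      exact haE ((E.smul_mem_iff hc).mp h1)
    rw [hc, zero_smul, add_zero] at hex
    rw [← hex] at hyE'
    exact hyE' he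
  have hYT : E' ⊔ span F {a} ≤ T₀ := by
    apply sup_le (hE'E.trans (hle T₀ hT₀))
    rw [span_singleton_le_iff_mem]
    exact haT
  obtain ⟨z, hz, hzz, hzy⟩ := exists_iso_pp hH
    (show y ∈ pp h (E' ⊔ span F {a}) from fun u hu => ht₀ u (hYT hu) y hyT) hy
    (ht₀ y hyT y hyT)
  have hzT : z ∉ T₀ := by
    intro h
    rw [ht₀ z h y hyT] at hzy
    exact zero_ne_one hzy
  have hdY : finrank F (E' ⊔ span F {a} : Submodule F V) + 1 = k := by
    rw [finrank_sup_span_singleton haE', hdE']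
    omega
  have hzY : z ∉ E' ⊔ span F {a} := fun h => hzT (hYT h)
  have tA : TI h (E' ⊔ span F {a} ⊔ span F {z}) :=
    ti_sup_span hH (ht₀.mono hYT) hzz (fun u hu => hz u hu)
  have dA : finrank F (E' ⊔ span F {a} ⊔ span F {z} : Submodule F V) = k := by
    rw [finrank_sup_span_singleton hzY, hdY]
  set A : Submodule F V := E' ⊔ span F {a} ⊔ span F {z} with hAdef
  have hzA : z ∈ A := mem_sup_span z
  have hTA : T₀ ≠ A := by
    rintro h
    rw [← h] at hzA
    exact hzT hzA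
  have hYA : E' ⊔ span F {a} ≤ A := le_sup_left
  have hAl : A ∉ l := by
    intro h
    rw [tA z hzA y (hle A h hyE)] at hzy
    exact zero_ne_one hzy
  have hadj0 : Adj h k T₀ A := ⟨hd₀, dA, ht₀, tA, adj_of_le hd₀ dA hTA hYT hYA hdY⟩
  have hopp : ¬ T₀ ≤ pp h A := by
    intro hp
    have h1 := hp hyT z hzA
    rw [h1] at hzy
    exact zero_ne_one hzy
  apply alpha_eq_one hS (mem_IsoGr.mpr ⟨dA, tA⟩) hl hAl hT₀ (hO _ _ hadj0 hopp).symm
  intro T hT hAT
  by_contra hne
  have h1 := hadj A T hAT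
  have h2 : A ⊓ T ≤ E' := by
    rintro x ⟨hxA, hxT⟩
    obtain ⟨x₁, hx₁, x₂, hx₂, rfl⟩ := mem_sup.mp hxA
    obtain ⟨d, rfl⟩ := mem_span_singleton.mp hx₂
    obtain ⟨e, he, x₃, hx₃, rfl⟩ := mem_sup.mp hx₁
    obtain ⟨c, rfl⟩ := mem_span_singleton.mp hx₃
    have h3 := hti T hT _ hxT y (hle T hT hyE)
    rw [map_add, LinearMap.add_apply, ht₀ _ (hYT hx₁) y hyT, zero_add, smul_left,
      hzy, mul_one] at h3
    rw [sig0 hH h3, zero_smul, add_zero] at hxT ⊢
    have h4 : c • a ∈ T ⊓ T₀ := by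
      refine ⟨?_, T₀.smul_mem _ haT⟩
      have h5 : c • a = (e + c • a) - e := by abel
      rw [h5]
      exact T.sub_mem hxT (hle T hT (hE'E he))
    rw [hE T hT T₀ hT₀ hne] at h4
    have hc : c = 0 := by
      by_contra hc
      exact haE ((E.smul_mem_iff hc).mp h4)
    rw [hc, zero_smul, add_zero]
    exact he
  have h3 := Submodule.finrank_mono h2
  omega

theorem b1_lt (hH : Herm h) (hB : SUInvariant h B)
    (hS : IsSPG (IsoGr h k) B α s t μ) (hNL : NonLinear (IsoGr h k) B) (hs : 2 ≤ s)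
    (hk2 : 2 ≤ k) (hkn : 2 * k + 2 ≤ finrank F V)
    (hadj : ∀ U W, Coll B U W → finrank F (U ⊓ W : Submodule F V) + 1 = k)
    {l : Finset (Submodule F V)} (hl : l ∈ B) {E : Submodule F V} (hdE : finrank F E + 1 = k)
    (hE : ∀ U ∈ l, ∀ W ∈ l, U ≠ W → U ⊓ W = E) : False := by
  have hdim : ∀ T ∈ l, finrank F T = k := fun T hT => (mem_IsoGr.mp (hS.lines_sub l hl hT)).1
  have hti : ∀ T ∈ l, TI h T := fun T hT => (mem_IsoGr.mp (hS.lines_sub l hl hT)).2
  have hle : ∀ T ∈ l, E ≤ T := fun T hT => b1_le hS hs hl hE hT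
  have hcl := cl_of_line hB hS hl
  have hinf : ∀ T ∈ l, ∀ T' ∈ l, T ≠ T' → finrank F (T ⊓ T' : Submodule F V) + 1 = k := by
    intro T hT T' hT' hne
    rw [hE T hT T' hT' hne, hdE]
  have hsup : ∀ T ∈ l, ∀ T' ∈ l, T ≠ T' → finrank F (T ⊔ T' : Submodule F V) = k + 1 := by
    intro T hT T' hT' hne
    have h1 := Submodule.finrank_sup_add_finrank_inf_eq T T'
    have h2 := hinf T hT T' hT' hne
    have h3 := hdim T hT
    have h4 := hdim T' hT'
    omega
  by_cases hperp : ∃ T ∈ l, ∃ T' ∈ l, T ≠ T' ∧ T ≤ pp h T'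
  · obtain ⟨T, hT, T', hT', hne, hTT'⟩ := hperp
    have hPA : Adj h k T T' := ⟨hdim T hT, hdim T' hT', hti T hT, hti T' hT',
      hinf T hT T' hT' hne⟩
    have hP : ∀ U W, Adj h k U W → U ≤ pp h W → Coll B U W := fun U W h1 h2 =>
      coll_perp hH hB ⟨hne, l, hl, hT, hT'⟩ hPA hTT' h1 h2
    have tX : TI h (T ⊔ T') := ti_sup hH (hti T hT) (hti T' hT') hTT'
    have dX := hsup T hT T' hT' hne
    -- a hyperplane of `X` not containing `E`
    have hE0 : E ≠ ⊥ := by
      rintro rfl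
      rw [finrank_bot] at hdE
      omega
    obtain ⟨e, heE, he0⟩ := Submodule.exists_mem_ne_zero_of_ne_bot hE0
    obtain ⟨f, hf, -⟩ := exists_form (F := F) (⊥ : Submodule F V) (x := e)
      (by rwa [Submodule.mem_bot])
    have heX : e ∈ T ⊔ T' := le_sup_left (a := T) (hle T hT heE)
    have dR := finrank_inf_ker heX (f := f) (by rw [hf]; exact one_ne_zero)
    set R : Submodule F V := (T ⊔ T') ⊓ LinearMap.ker f with hR
    have heR : e ∉ R := by
      intro h
      have h1 := LinearMap.mem_ker.mp h.2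
      rw [hf] at h1
      exact one_ne_zero h1
    have hRX : R ≤ T ⊔ T' := inf_le_left
    have dR' : finrank F R = k := by omega
    have tR : TI h R := tX.mono hRX
    have hRl : R ∉ l := fun h => heR (hle R h heE)
    have hRP : ∀ A ∈ l, A ≤ T ⊔ T' → Coll B R A := by
      intro A hAl hAX
      have hRA : R ≠ A := by
        rintro rfl
        exact hRl hAl
      refine hP _ _ ⟨dR', hdim A hAl, tR, hti A hAl,
        adj_of_ge dR' (hdim A hAl) hRA hRX hAX dX⟩ ?_
      intro x hx y hy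
      exact tX y (hAX hy) x (hRX hx)
    have hRP' : R ∈ IsoGr h k := mem_IsoGr.mpr ⟨dR', tR⟩
    by_cases hall : ∀ A ∈ l, A ≤ T ⊔ T'
    · obtain ⟨b, hb, hnb⟩ := SI.max_clique hS hNL hl hRP' hRl
      exact hnb (hRP b hb (hall b hb))
    · push Not at hall
      obtain ⟨A, hAl, hAX⟩ := hall
      obtain ⟨v, hv, hvv, x, hx, hvx⟩ := exists_iso_pp_of_not_le hH tX (hti A hAl) hAX
      obtain ⟨c, hc0, hc⟩ := exists_c0 hH
      have hvT : v ∈ pp h T := pp_anti le_sup_left hv
      have hvT' : v ∈ pp h T' := pp_anti le_sup_right hv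
      have hA' := hcl.su hH hvv hc hT hT' hne hvT hvT' hAl
      have hvA : v ∉ A := by
        intro h
        rw [hti A hAl v h x hx] at hvx
        exact zero_ne_one hvx
      have hne' := su_ne hH hvv hc hc0 hvA hx (by rw [hvx]; exact one_ne_zero)
      set A' := A.map (su hH hvv hc : V →ₗ[F] V) with hA'def
      have hadjA : Adj h k A A' := ⟨hdim A hAl, hdim A' hA', hti A hAl, hti A' hA',
        hinf A hAl A' hA' hne'.symm⟩
      have hopp : ¬ A ≤ pp h A' := by
        intro hp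
        have h1 : su hH hvv hc x ∈ A' := Submodule.mem_map_of_mem hx
        rw [su_apply, hvx, mul_one] at h1
        have h2 := hp hx (x + c • v) h1
        rw [map_add, LinearMap.add_apply, hti A hAl x hx x hx, smul_left, hvx, mul_one,
          zero_add] at h2
        exact hc0 (sig0 hH h2)
      have hO : ∀ U W, Adj h k U W → ¬ U ≤ pp h W → Coll B U W := fun U W h1 h2 =>
        coll_opp hH hB ⟨hne'.symm, l, hl, hAl, hA'⟩ hadjA hopp h1 h2
      have hα := b1_alpha hH hS hs hk2 hadj hl hdE hE hO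
      have h2 := alpha_ge_two hS hRP' hl hRl hT hT' hne (hRP T hT le_sup_left)
        (hRP T' hT' le_sup_right)
      omega
  · push Not at hperp
    have hpos : 0 < #l := by
      rw [hS.line_card l hl]
      omega
    obtain ⟨T₀, hT₀⟩ := card_pos.mp hpos
    obtain ⟨T₁, hT₁, hne, -⟩ := SI.exists_third hS hs hl T₀ T₀
    have hadj01 : Adj h k T₀ T₁ := ⟨hdim T₀ hT₀, hdim T₁ hT₁, hti T₀ hT₀, hti T₁ hT₁,
      hinf T₀ hT₀ T₁ hT₁ hne.symm⟩
    have hopp : ¬ T₀ ≤ pp h T₁ := hperp T₀ hT₀ T₁ hT₁ hne.symm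
    have hO : ∀ U W, Adj h k U W → ¬ U ≤ pp h W → Coll B U W := fun U W h1 h2 =>
      coll_opp hH hB ⟨hne.symm, l, hl, hT₀, hT₁⟩ hadj01 hopp h1 h2
    have hα := b1_alpha hH hS hs hk2 hadj hl hdE hE hO
    have hd₁ := hdim T₁ hT₁
    obtain ⟨a, haT, b, hbT, hab⟩ : ∃ a ∈ T₀, ∃ b ∈ T₁, h a b = 1 := by
      obtain ⟨a, haT, ha⟩ := SetLike.not_le_iff_exists.mp hopp
      rw [mem_pp] at ha
      push Not at ha
      obtain ⟨b, hbT, hba⟩ := ha
      refine ⟨a, haT, (h a b)⁻¹ • b, T₁.smul_mem _ hbT, ?_⟩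
      rw [smul_right', inv_mul_cancel₀ (fun h0 => hba (swap0 hH h0))]
    have hba : h b a = 1 := by rw [swap hH, hab, map_one]
    have haa : h a a = 0 := hti T₀ hT₀ a haT a haT
    have hbb : h b b = 0 := hti T₁ hT₁ b hbT b hbT
    obtain ⟨c, hc0, hc⟩ := exists_c0 hH
    have h1 := hsup T₀ hT₀ T₁ hT₁ hne.symm
    have h2 := finrank_pp hH (T₀ ⊔ T₁)
    have hEpp : E ≤ pp h (T₀ ⊔ T₁) := by
      rw [pp_sup]
      exact le_inf ((hle T₀ hT₀).trans (ti_iff.mp (hti T₀ hT₀)))
        ((hle T₁ hT₁).trans (ti_iff.mp (hti T₁ hT₁)))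
    obtain ⟨y, hy, hyE, hyy⟩ := exists_isotropic_off hH hEpp (by omega)
    have hay : h a y = 0 := hy a (le_sup_left (a := T₀) haT)
    have hby : h b y = 0 := hy b (le_sup_right (a := T₀) hbT)
    have key : ∀ z : V, z ∈ pp h E → h z z = 0 → h a z ≠ 0 → h b z ≠ 0 →
        (E ⊔ span F {z} : Submodule F V) ∈ l := by
      intro z hz hzz haz hbz
      by_contra hRl
      have hzE : z ∉ E := by
        intro h
        exact haz (hti T₀ hT₀ a haT z (hle T₀ hT₀ h))
      have tR : TI h (E ⊔ span F {z}) :=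
        ti_sup_span hH ((hti T₀ hT₀).mono (hle T₀ hT₀)) hzz (fun u hu => hz u hu)
      have dR : finrank F (E ⊔ span F {z} : Submodule F V) = k := by
        rw [finrank_sup_span_singleton hzE, hdE]
      have hzR : z ∈ E ⊔ span F {z} := mem_sup_span z
      have hER : E ≤ E ⊔ span F {z} := le_sup_left
      have hc : ∀ T ∈ l, ∀ c ∈ T, h c z ≠ 0 → Coll B (E ⊔ span F {z}) T := by
        intro T hT c hc hcz
        have hRT : (E ⊔ span F {z} : Submodule F V) ≠ T := by
          intro h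
          rw [h] at hRl
          exact hRl hT
        exact hO _ _ ⟨dR, hdim T hT, tR, hti T hT,
          adj_of_le dR (hdim T hT) hRT hER (hle T hT) hdE⟩ (fun hp => hcz (hp hzR c hc))
      have h3 := alpha_ge_two hS (mem_IsoGr.mpr ⟨dR, tR⟩) hl hRl hT₀ hT₁ hne.symm
        (hc T₀ hT₀ a haT haz) (hc T₁ hT₁ b hbT hbz)
      omega
    have haE' : a ∈ pp h E := fun e he => hti T₀ hT₀ e (hle T₀ hT₀ he) a haT
    have hbE' : b ∈ pp h E := fun e he => hti T₁ hT₁ e (hle T₁ hT₁ he) b hbT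
    have hyE' : y ∈ pp h E := fun e he => hy e (le_sup_left (a := T₀) (hle T₀ hT₀ he))
    have hay' : h y a = 0 := swap0 hH hay
    have hby' : h y b = 0 := swap0 hH hby
    have hz0 : h (a + c • b) (a + c • b) = 0 := by
      simp only [map_add, LinearMap.add_apply, smul_left, smul_right', haa, hbb, hab, hba]
      linear_combination hc
    have haz0 : h a (a + c • b) = c := by
      rw [map_add, smul_right', haa, hab, zero_add, mul_one]
    have hbz0 : h b (a + c • b) = 1 := by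
      rw [map_add, smul_right', hbb, hba, mul_zero, add_zero]
    have hyz0 : h y (a + c • b) = 0 := by
      rw [map_add, smul_right', hay', hby', mul_zero, add_zero]
    have hz0y : h (a + c • b) y = 0 := swap0 hH hyz0
    have hz0E : a + c • b ∈ pp h E := (pp h E).add_mem haE' ((pp h E).smul_mem _ hbE')
    have hR0 := key (a + c • b) hz0E hz0 (by rw [haz0]; exact hc0)
      (by rw [hbz0]; exact one_ne_zero)
    have hR1 := key (a + c • b + y) ((pp h E).add_mem hz0E hyE')
      (by rw [b1_add, hz0, hz0y, hyz0, hyy]; ring)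
      (by rw [map_add, haz0, hay, add_zero]; exact hc0)
      (by rw [map_add, hbz0, hby, add_zero]; exact one_ne_zero)
    have hne01 : (E ⊔ span F {a + c • b} : Submodule F V) ≠ E ⊔ span F {a + c • b + y} := by
      intro heq
      have h3 : a + c • b + y ∈ E ⊔ span F {a + c • b} := by
        rw [heq]
        exact mem_sup_span _
      have h4 : y ∈ E ⊔ span F {a + c • b} := by
        have h5 := Submodule.sub_mem _ h3 (mem_sup_span (S := E) (a + c • b))
        rwa [add_sub_cancel_left] at h5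
      obtain ⟨e, he, x, hx, hex⟩ := mem_sup.mp h4
      obtain ⟨d, rfl⟩ := mem_span_singleton.mp hx
      have h5 := hby
      rw [← hex, map_add, smul_right', hbz0, hti T₁ hT₁ b hbT e (hle T₁ hT₁ he), zero_add,
        mul_one] at h5
      rw [h5, zero_smul, add_zero] at hex
      rw [← hex] at hyE
      exact hyE he
    apply hperp _ hR0 _ hR1 hne01
    intro x hx w hw
    obtain ⟨e, he, x', hx', rfl⟩ := mem_sup.mp hx
    obtain ⟨d, rfl⟩ := mem_span_singleton.mp hx'
    obtain ⟨e', he', w', hw', rfl⟩ := mem_sup.mp hw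
    obtain ⟨d', rfl⟩ := mem_span_singleton.mp hw'
    have g1 : h e' e = 0 := (hti T₀ hT₀).mono (hle T₀ hT₀) e' he' e he
    have g2 : h e' (a + c • b) = 0 := hz0E e' he'
    have g3 : h (a + c • b) e = 0 := swap0 hH (hz0E e he)
    have g4 : h y e = 0 := swap0 hH (hyE' e he)
    have g5 : h (a + c • b + y) e = 0 := by
      rw [map_add h (a + c • b) y, LinearMap.add_apply, g3, g4, add_zero]
    have g6 : h (a + c • b + y) (a + c • b) = 0 := by
      rw [map_add h (a + c • b) y, LinearMap.add_apply, hz0, hyz0, add_zero]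
    rw [b1_add, smul_left, smul_right', smul_left, smul_right', g1, g2, g5, g6]
    ring

end Pool.Agent.Helper20.UI
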