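import Pool.Agent.Helper20.UI.Isot

/-!
# UI-11 CaseA: the dichotomy when some element does not contain `D`

Adapt `Pool/Agent/Helper20/SI/CaseA.lean` (all lemmas `CaseA_h1`, `CaseA_span`, `CaseA_h2`, `CaseA_h3`). Changes: the transvection is `su hH (hL.ti ..: h u u = 0) hc` with `c` of `exists_c0` (`Cl.su_good`, `su_ne`, `inf_le_su`); in `CaseA_h2` the element is the
Siegel element `sg hd` with centre `u` and `w` (`exists_pp_of_not_le` for `T` and `span {u} ⊔ span {x}`, `h u w = 0`, `μ` of `exists_sd`): for `t ∈ T`: `h u t = 0`, so `sg t = t - h w t • u` (`sg_apply`); it fixes `x` (`h w x = 0`),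
preserves `L` (`Cl.sg_good`) and moves `T` (`y - u ∈ T` gives `u ∈ T`).
-/

open Module Submodule Finset

set_option linter.unusedSectionVars false

namespace Pool.Agent.Helper20.UI

open Pool.Agent.Helper29.FT Pool.Agent.Helper29.FT2

variable {F V : Type*} [Field F] [AddCommGroup V] [Module F V] [FiniteDimensional F V]
variable {σ : F →+* F} {h : V →ₛₗ[σ] V →ₗ[F] F}

variable {k : ℕ} {L : Finset (Submodule F V)}

private theorem CaseA_h1 (hH : Herm h) (hL : Cl h k L) {D : Submodule F V}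
    (hD : ∀ v, v ∈ D ↔ Good L v) {T : Submodule F V} (hT : T ∈ L) {u x : V} (hu : u ∈ D)
    (huT : u ∉ T) (hx : x ∈ T) (hux : h u x ≠ 0) : T ⊓ LinearMap.ker (h u) ≤ D := by
  intro v hv
  rw [hD]
  obtain ⟨c, hc0, hc⟩ := exists_c0 hH
  have hg : Good L u := (hD u).1 hu
  have huu : h u u = 0 := hg.iso hL
  exact ⟨T, hT, _, hL.su_good hH huu hc hg hT, (su_ne hH huu hc hc0 huT hx hux).symm,
    hv.1, inf_le_su hH huu hc T hv⟩

private theorem CaseA_span (hk2 : 2 ≤ k) {T : Submodule F V} (hT : finrank F T = k) {u x : V}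
    (huT : u ∉ T) : ¬ T ≤ span F {u} ⊔ span F {x} := by
  intro hle
  have h1 : finrank F (span F {u} ⊔ span F {x} : Submodule F V) ≤ 2 := by
    have h2 := Submodule.finrank_add_le_finrank_add_finrank (span F {u}) (span F {x})
    have h3 : ∀ z : V, finrank F (span F {z}) ≤ 1 := by
      intro z
      have := finrank_span_le_card (R := F) ({z} : Set V)
      simpa using this
    have h4 := h3 u
    have h5 := h3 x
    omega
  have h2 : T = span F {u} ⊔ span F {x} :=
    Submodule.eq_of_le_of_finrank_le hle (by omega)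
  apply huT
  rw [h2]
  exact mem_sup_left (mem_span_singleton_self u)

private theorem CaseA_h2 (hk2 : 2 ≤ k) (hH : Herm h) (hL : Cl h k L)
    {D : Submodule F V} (hD : ∀ v, v ∈ D ↔ Good L v) {T : Submodule F V} (hT : T ∈ L) {u : V}
    (hu : u ∈ D) (huT : u ∉ T) (h0 : ∀ x ∈ T, h u x = 0) : T ≤ D := by
  intro x hx
  obtain ⟨w, hw, y, hy, hwy⟩ := exists_pp_of_not_le hH
    (CaseA_span hk2 (hL.dim T hT) huT (x := x))
  have huw : h u w = 0 := hw u (mem_sup_left (mem_span_singleton_self u))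
  have hxw : h x w = 0 := hw x (mem_sup_right (mem_span_singleton_self x))
  have hwx : h w x = 0 := swap0 hH hxw
  have hg : Good L u := (hD u).1 hu
  have huu : h u u = 0 := hg.iso hL
  obtain ⟨μ, hd⟩ := exists_sd hH huu huw
  have hgx : sg hd x = x := by
    rw [sg_apply, hwx, h0 x hx, mul_zero, zero_smul, zero_smul, add_zero, sub_zero, add_zero]
  have hne : T.map (sg hd : V →ₗ[F] V) ≠ T := by
    intro he
    have h1 : sg hd y ∈ T.map (sg hd : V →ₗ[F] V) := Submodule.mem_map_of_mem hy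
    rw [he, sg_apply, hwy, h0 y hy, one_smul, mul_zero, zero_smul, zero_smul, add_zero,
      add_zero] at h1
    apply huT
    have h2 := T.sub_mem hy h1
    rwa [sub_sub_cancel] at h2
  rw [hD]
  refine ⟨T, hT, _, hL.sg_good hd hg hT, hne.symm, hx, ?_⟩
  have h1 : sg hd x ∈ T.map (sg hd : V →ₗ[F] V) := Submodule.mem_map_of_mem hx
  rwa [hgx] at h1

private theorem CaseA_h3 (hk2 : 2 ≤ k) (hH : Herm h) (hL : Cl h k L)
    {D : Submodule F V} (hD : ∀ v, v ∈ D ↔ Good L v) {T : Submodule F V} (hT : T ∈ L)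
    (hTD : ¬ T ≤ D) (hDT : ¬ D ≤ T) :
    finrank F D = k ∧ finrank F (T ⊓ D : Submodule F V) + 1 = k ∧
        ∀ u ∈ D, u ∉ T → T ⊓ LinearMap.ker (h u) = T ⊓ D := by
  have hdim := hL.dim T hT
  have hlt : finrank F (T ⊓ D : Submodule F V) < finrank F T := by
    apply Submodule.finrank_lt_finrank_of_lt
    refine lt_of_le_of_ne inf_le_left fun he => hTD ?_
    rw [← he]
    exact inf_le_right
  have hex : ∀ u ∈ D, u ∉ T → ∃ x ∈ T, h u x ≠ 0 := by
    intro u hu huT
    by_contra hcon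
    push Not at hcon
    exact hTD (CaseA_h2 hk2 hH hL hD hT hu huT hcon)
  have hkey : ∀ u ∈ D, u ∉ T → finrank F (T ⊓ LinearMap.ker (h u) : Submodule F V) + 1 = k ∧
      T ⊓ LinearMap.ker (h u) = T ⊓ D := by
    intro u hu huT
    obtain ⟨x, hx, hux⟩ := hex u hu huT
    have h1 : T ⊓ LinearMap.ker (h u) ≤ T ⊓ D :=
      le_inf inf_le_left (CaseA_h1 hH hL hD hT hu huT hx hux)
    have h2 := finrank_inf_ker hx hux
    have h3 : T ⊓ LinearMap.ker (h u) = T ⊓ D :=
      Submodule.eq_of_le_of_finrank_le h1 (by omega)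
    exact ⟨by omega, h3⟩
  obtain ⟨u, hu, huT⟩ := SetLike.not_le_iff_exists.mp hDT
  have h4 := hkey u hu huT
  have h5 : finrank F (T ⊓ D : Submodule F V) + 1 = k := by
    rw [← h4.2]
    exact h4.1
  refine ⟨?_, h5, fun u hu huT => (hkey u hu huT).2⟩
  obtain ⟨x, hx, hxD⟩ := SetLike.not_le_iff_exists.mp hTD
  have h6 : D ⊓ LinearMap.ker (h x) = D ⊓ T := by
    apply le_antisymm
    · intro v hv
      refine ⟨hv.1, ?_⟩
      by_contra hvT
      apply hxD
      have h7 := (hkey v hv.1 hvT).2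
      have h8 : x ∈ T ⊓ LinearMap.ker (h v) :=
        ⟨hx, LinearMap.mem_ker.mpr (swap0 hH (LinearMap.mem_ker.mp hv.2))⟩
      rw [h7] at h8
      exact h8.2
    · intro v hv
      exact ⟨hv.1, LinearMap.mem_ker.mpr (hL.ti T hT x hx v hv.2)⟩
  have h7 : h x u ≠ 0 := by
    intro h0
    have h8 : u ∈ D ⊓ LinearMap.ker (h x) := ⟨hu, LinearMap.mem_ker.mpr h0⟩
    rw [h6] at h8
    exact huT h8.2
  have h8 := finrank_inf_ker hu h7
  rw [h6, inf_comm] at h8
  omega

theorem caseA_dich (hk2 : 2 ≤ k) (hH : Herm h) (hL : Cl h k L)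
    {D : Submodule F V} (hD : ∀ v, v ∈ D ↔ Good L v) (hTI : TI h D)
    (hex : ∃ T ∈ L, ¬ D ≤ T) :
    ((∀ T ∈ L, T ≤ D) ∧ k + 1 ≤ finrank F D) ∨
      (finrank F D = k ∧ ∀ T ∈ L, T ≠ D → finrank F (T ⊓ D : Submodule F V) + 1 = k ∧
        ∀ u ∈ D, u ∉ T → T ⊓ LinearMap.ker (h u) = T ⊓ D) := by
  obtain ⟨T₀, hT₀, hDT₀⟩ := hex
  by_cases h0 : T₀ ≤ D
  · left
    have h1 : finrank F T₀ < finrank F D := by
      apply Submodule.finrank_lt_finrank_of_lt
      refine lt_of_le_of_ne h0 fun he => hDT₀ ?_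
      rw [he]
    have h2 := hL.dim T₀ hT₀
    refine ⟨fun T hT => ?_, by omega⟩
    by_contra hTD
    by_cases hDT : D ≤ T
    · have h3 := Submodule.finrank_mono hDT
      have h4 := hL.dim T hT
      omega
    · have h3 := (CaseA_h3 hk2 hH hL hD hT hTD hDT).1
      omega
  · right
    have h1 := (CaseA_h3 hk2 hH hL hD hT₀ h0 hDT₀).1
    refine ⟨h1, fun T hT hne => ?_⟩
    have h2 := hL.dim T hT
    have h3 : ¬ T ≤ D := fun h => hne (Submodule.eq_of_le_of_finrank_le h (by omega))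
    have h4 : ¬ D ≤ T := fun h => hne (Submodule.eq_of_le_of_finrank_le h (by omega)).symm
    exact (CaseA_h3 hk2 hH hL hD hT h3 h4).2

end Pool.Agent.Helper20.UI
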