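import Pool.Agent.Helper20.UI.Reach

/-!
# UI-12 CaseA1: the first alternative of UI-11 gives all `k`-dimensional subspaces of `D`, `dim D = k + 1`

See `Pool/Agent/Helper20/SI/CaseA1.lean`. Membership: `reach` with `P T := T ∈ L`, `S = D` (centres in `D` are good, `Cl.sg_good`); `L` has an element `T ≤ D` (`D ≠ ⊥` has a nonzero good vector). `finrank D = k + 1`: otherwise `X ≤ D` with `finrank X = k + 1`
(`exists_between`), `¬ D ≤ X`: (K') `exists_iso_pp_of_not_le` gives an isotropic `v ∈ pp X` and `x ∈ D` with `h v x = 1`. Two different `k`-dimensional `U, W ≤ X` are in `L`; the transvection `su` with centre `v` and `c ≠ 0` of `exists_c0` preserves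
`L` (`Cl.su`), so `x + c • v` is good (`Good.map`, `su_apply`), so `v ∈ D`, `h v x = 0` as `D` is totally isotropic. Contradiction.
-/

open Module Submodule Finset

set_option linter.unusedSectionVars false

namespace Pool.Agent.Helper20.UI

open Pool.Agent.Helper29.FT Pool.Agent.Helper29.FT2

variable {F V : Type*} [Field F] [AddCommGroup V] [Module F V] [FiniteDimensional F V]
variable {σ : F →+* F} {h : V →ₛₗ[σ] V →ₗ[F] F}

variable {k : ℕ} {L : Finset (Submodule F V)}

theorem caseA_h1 (hk1 : 1 ≤ k) (hH : Herm h) (hL : Cl h k L)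
    {D : Submodule F V} (hD : ∀ v, v ∈ D ↔ Good L v) (hTI : TI h D) (hle : ∀ T ∈ L, T ≤ D)
    (hdim : k + 1 ≤ finrank F D) :
    finrank F D = k + 1 ∧ ∀ R : Submodule F V, R ∈ L ↔ R ≤ D ∧ finrank F R = k := by
  have hne : ∃ T, T ∈ L := by
    have h0 : 0 < finrank F D := by omega
    have h1 : D ≠ ⊥ := by
      rintro rfl
      rw [finrank_bot] at h0
      exact lt_irrefl _ h0
    obtain ⟨v, hv, _⟩ := Submodule.exists_mem_ne_zero_of_ne_bot h1
    obtain ⟨U, hU, _⟩ := (hD v).1 hv
    exact ⟨U, hU⟩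
  obtain ⟨T₀, hT₀⟩ := hne
  have hmem : ∀ R : Submodule F V, R ≤ D → finrank F R = k → R ∈ L := fun R hR hRk =>
    reach hH (P := fun T => T ∈ L) (S := D)
      (fun a w μ hd ha T hT => hL.sg_good hd ((hD a).1 ha) hT) hR (hle T₀ hT₀) (hTI.mono hR)
      (hL.ti T₀ hT₀) hRk (hL.dim T₀ hT₀) hT₀
  refine ⟨?_, fun R => ⟨fun hR => ⟨hle R hR, hL.dim R hR⟩, fun hR => hmem R hR.1 hR.2⟩⟩
  by_contra hcon
  have hD2 : k + 2 ≤ finrank F D := by omega
  obtain ⟨X, _, hXD, hXk⟩ := exists_between (A := ⊥) (X := D) (m := k + 1) bot_le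
    (by rw [finrank_bot]; omega) hdim
  have hnle : ¬ D ≤ X := by
    intro hle'
    have := Submodule.finrank_mono hle'
    omega
  obtain ⟨v, hv, hvv, x, hx, hvx⟩ := exists_iso_pp_of_not_le hH (hTI.mono hXD) hTI hnle
  obtain ⟨c, hc0, hc⟩ := exists_c0 hH
  obtain ⟨U, _, hUX, hUk⟩ := exists_between (A := ⊥) (X := X) (m := k) bot_le
    (by rw [finrank_bot]; omega) (by omega)
  have hUlt : U < X := lt_of_le_of_ne hUX (by
    rintro rfl
    omega)
  obtain ⟨y, hyX, hyU⟩ := SetLike.exists_of_lt hUlt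
  have hy0 : y ≠ 0 := by
    rintro rfl
    exact hyU U.zero_mem
  obtain ⟨W, hW1, hWX, hWk⟩ := exists_between (A := span F {y}) (X := X) (m := k)
    (by rw [span_singleton_le_iff_mem]; exact hyX) (by rw [finrank_span_singleton hy0]; exact hk1)
    (by omega)
  have hyW : y ∈ W := hW1 (mem_span_singleton_self y)
  have hUW : U ≠ W := by
    rintro rfl
    exact hyU hyW
  have hU : U ∈ L := hmem U (hUX.trans hXD) hUk
  have hW : W ∈ L := hmem W (hWX.trans hXD) hWk
  have hgood : Good L (su hH hvv hc x) := Good.map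
    (fun T hT => hL.su hH hvv hc hU hW hUW (pp_anti hUX hv) (pp_anti hWX hv) hT) ((hD x).1 hx)
  have h1 := (hD _).2 hgood
  rw [su_apply, hvx, mul_one] at h1
  have h2 : c • v ∈ D := by
    have := D.sub_mem h1 hx
    rwa [add_sub_cancel_left] at this
  have h3 : v ∈ D := (D.smul_mem_iff hc0).mp h2
  rw [hTI v h3 x hx] at hvx
  exact zero_ne_one hvx

end Pool.Agent.Helper20.UI
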