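import Pool.Agent.Helper20.UI.Isot

/-!
# UI-13 CaseA2: the second alternative of UI-11 is impossible

(If `Pool/Agent/Helper20/SI/CaseA2.lean` is proved by now, adapt it.) Take `T₁ ∈ L`, `T₁ ≠ D` (`L` has two elements: `0 ∈ D` is good). `K₁ = T₁ ⊓ D`, `finrank K₁ = k - 1 ≥ 1`, `finrank D = k`. Take `u ∈ D`, `u ∉ T₁`. `K₁` is not contained in `span {u}`
(`K₁ ≠ 0`, `u ∉ K₁`), so `exists_pp_of_not_le`: `w` with `h u w = 0`, `y ∈ K₁` with `h w y = 1`. `g = sg hd` with centre `u`, `w`, `μ` of `exists_sd`: preserves `L` (`Cl.sg_good`) and `D` (`Good.map`; equality by dimension); for `x ∈ D`: `h u x = 0`,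
`g x = x - h w x • u`. `T₂ = T₁.map g ∈ L`, `T₂ ≠ D`, `K₂ = T₂ ⊓ D = K₁.map g` (`map_inf'`). `g y = y - u ∈ K₂`, not in `K₁` (else `u ∈ T₁`). So `K₁ ≠ K₂`, both of dimension `k - 1`; `K₁ ⊓ K₂` has dimension `k - 2` (`K₁ ⊔ K₂ = D`).
Take `a ∈ T₁`, `a ∉ D`. For `v ∈ D`: `h a v = 0 ↔ v ∈ K₁` (if `v ∉ T₁`: `T₁ ⊓ ker (h v) = T₁ ⊓ D` does not contain `a`; `swap_iff`). `T₂ ⊓ ker (h a)` has dimension `≥ k - 1` (`finrank_inf_ker_ge`), its intersection with `D` is `K₂ ⊓ K₁` of dimension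
`k - 2`: so there is `b ∈ T₂`, `h a b = 0`, `b ∉ D`. Take `p ∈ K₁`, `p ∉ K₂`: `h a p = 0` (`T₁` totally isotropic), `h b p ≠ 0` (same equivalence for `T₂`, `b`). `T₁ ≠ T₂`. `ev` with `(b, a)`, or `(a, b)`, and `c = 1`: preserves `L` (`Cl.ev_cross`), so `D`;
it maps `p` to `p + h a p • b - h b p • a = p - h b p • a ∈ D`, so `a ∈ D`, contradiction.
-/

open Module Submodule Finset

set_option linter.unusedSectionVars false

namespace Pool.Agent.Helper20.UI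

open Pool.Agent.Helper29.FT Pool.Agent.Helper29.FT2

variable {F V : Type*} [Field F] [AddCommGroup V] [Module F V] [FiniteDimensional F V]
variable {σ : F →+* F} {h : V →ₛₗ[σ] V →ₗ[F] F}

variable {k : ℕ} {L : Finset (Submodule F V)}

theorem caseA_h2 (hk2 : 2 ≤ k) (hH : Herm h) (hL : Cl h k L)
    {D : Submodule F V} (hD : ∀ v, v ∈ D ↔ Good L v) (hTI : TI h D) (hdim : finrank F D = k)
    (hT : ∀ T ∈ L, T ≠ D → finrank F (T ⊓ D : Submodule F V) + 1 = k ∧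
        ∀ u ∈ D, u ∉ T → T ⊓ LinearMap.ker (h u) = T ⊓ D) : False := by
  obtain ⟨U, hU, W, hW, hUW, -, -⟩ := (hD 0).mp D.zero_mem
  obtain ⟨T₁, hT₁, hT₁D⟩ : ∃ T ∈ L, T ≠ D := by
    by_cases hU' : U = D
    · exact ⟨W, hW, fun hWD => hUW (hU'.trans hWD.symm)⟩
    · exact ⟨U, hU, hU'⟩
  obtain ⟨hK1, hker1⟩ := hT T₁ hT₁ hT₁D
  have hT1k := hL.dim T₁ hT₁
  obtain ⟨u, huD, huT⟩ : ∃ u ∈ D, u ∉ T₁ := by
    by_contra hcon
    push Not at hcon
    exact hT₁D (Submodule.eq_of_le_of_finrank_eq (show D ≤ T₁ from hcon) (by omega)).symm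
  have hKnot : ¬ (T₁ ⊓ D : Submodule F V) ≤ span F {u} := by
    intro hle
    have hne : T₁ ⊓ D ≠ ⊥ := by
      intro h0
      rw [h0, finrank_bot] at hK1
      omega
    obtain ⟨y, hy, hy0⟩ := Submodule.exists_mem_ne_zero_of_ne_bot hne
    obtain ⟨c, rfl⟩ := mem_span_singleton.mp (hle hy)
    have hc : c ≠ 0 := by
      rintro rfl
      exact hy0 (zero_smul _ _)
    exact huT ((T₁.smul_mem_iff hc).mp hy.1)
  obtain ⟨w, hw, y, hy, hwy⟩ := exists_pp_of_not_le hH hKnot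
  have huw : h u w = 0 := mem_pp_span.mp hw
  have hug := (hD u).mp huD
  obtain ⟨μ, hd⟩ := exists_sd hH (hug.iso hL) huw
  have hgL : ∀ T ∈ L, T.map (sg hd : V →ₗ[F] V) ∈ L := fun T hT => hL.sg_good hd hug hT
  have hgD : D.map (sg hd : V →ₗ[F] V) = D :=
    map_eq_of_le (fun x hx => (hD _).mpr (Good.map hgL ((hD x).mp hx))) rfl
  have hgx : ∀ x ∈ D, sg hd x = x - h w x • u := by
    intro x hx
    rw [sg_apply, hTI u huD x hx, zero_smul, mul_zero, zero_smul, add_zero, add_zero]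
  have hT₂ := hgL T₁ hT₁
  have hT₂D : T₁.map (sg hd : V →ₗ[F] V) ≠ D := by
    intro h2
    apply hT₁D
    apply map_inj' (sg hd)
    rw [hgD]
    exact h2
  have hK₂ : T₁.map (sg hd : V →ₗ[F] V) ⊓ D = (T₁ ⊓ D).map (sg hd : V →ₗ[F] V) := by
    rw [map_inf', hgD]
  generalize hTe : T₁.map (sg hd : V →ₗ[F] V) = T₂ at *
  obtain ⟨hK2, hker2⟩ := hT T₂ hT₂ hT₂D
  have hgy : y - u ∈ T₂ ⊓ D := by
    rw [hK₂]
    refine ⟨y, hy, ?_⟩
    show sg hd y = y - u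
    rw [hgx y hy.2, hwy, one_smul]
  have hyu : y - u ∉ T₁ := by
    intro h1
    have h2 := T₁.sub_mem hy.1 h1
    rw [sub_sub_cancel] at h2
    exact huT h2
  have hlt : finrank F (T₁ ⊓ D : Submodule F V) <
      finrank F ((T₁ ⊓ D) ⊔ (T₂ ⊓ D) : Submodule F V) := by
    apply Submodule.finrank_lt_finrank_of_lt
    refine lt_of_le_of_ne le_sup_left ?_
    intro heq
    have h1 : y - u ∈ T₁ ⊓ D := by
      rw [heq]
      exact mem_sup_right hgy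
    exact hyu h1.1
  have hle : finrank F ((T₁ ⊓ D) ⊔ (T₂ ⊓ D) : Submodule F V) ≤ finrank F D :=
    Submodule.finrank_mono (sup_le inf_le_right inf_le_right)
  have hsum := Submodule.finrank_sup_add_finrank_inf_eq (T₁ ⊓ D) (T₂ ⊓ D)
  obtain ⟨a, haT, haD⟩ : ∃ a ∈ T₁, a ∉ D := by
    by_contra hcon
    push Not at hcon
    exact hT₁D (Submodule.eq_of_le_of_finrank_eq (show T₁ ≤ D from hcon) (by omega))
  have heq1 : ∀ v ∈ D, h a v = 0 → v ∈ T₁ := by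
    intro v hv hav
    by_contra hvT
    have h1 := hker1 v hv hvT
    have h2 : a ∈ T₁ ⊓ LinearMap.ker (h v) := ⟨haT, LinearMap.mem_ker.mpr (swap0 hH hav)⟩
    rw [h1] at h2
    exact haD h2.2
  obtain ⟨b, hb, hbD⟩ : ∃ b ∈ T₂ ⊓ LinearMap.ker (h a), b ∉ D := by
    by_contra hcon
    push Not at hcon
    have h1 : T₂ ⊓ LinearMap.ker (h a) ≤ (T₁ ⊓ D) ⊓ (T₂ ⊓ D) := by
      intro x hx
      have hxD := hcon x hx
      exact ⟨⟨heq1 x hxD (LinearMap.mem_ker.mp hx.2), hxD⟩, ⟨hx.1, hxD⟩⟩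
    have h2 := Submodule.finrank_mono h1
    have h3 := finrank_inf_ker_ge T₂ (h a)
    have h4 := hL.dim T₂ hT₂
    omega
  obtain ⟨p, hp, hpT⟩ : ∃ p ∈ T₁ ⊓ D, p ∉ T₂ := by
    by_contra hcon
    push Not at hcon
    have h1 : T₁ ⊓ D ≤ T₂ ⊓ D := fun x hx => ⟨hcon x hx, hx.2⟩
    have h2 : T₁ ⊓ D = T₂ ⊓ D := Submodule.eq_of_le_of_finrank_eq h1 (by omega)
    rw [← h2] at hgy
    exact hyu hgy.1
  have hbp : h b p ≠ 0 := by
    intro h0
    have h1 := hker2 p hp.2 hpT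
    have h2 : b ∈ T₂ ⊓ LinearMap.ker (h p) := ⟨hb.1, LinearMap.mem_ker.mpr (swap0 hH h0)⟩
    rw [h1] at h2
    exact hbD h2.2
  have hap : h a p = 0 := hL.ti T₁ hT₁ a haT p hp.1
  have hab : h a b = 0 := LinearMap.mem_ker.mp hb.2
  have hT12 : T₁ ≠ T₂ := by
    intro heq
    rw [← heq] at hpT
    exact hpT hp.1
  have haa : h a a = 0 := hL.ti T₁ hT₁ a haT a haT
  have hbb : h b b = 0 := hL.ti T₂ hT₂ b hb.1 b hb.1
  have hgood := Good.map (g := ev hH haa hbb hab 1)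
    (fun T hT => hL.ev_cross hH haa hbb hab 1 hT₁ hT₂ hT12 haT hb.1 hT) ((hD p).mp hp.2)
  have h1 := (hD _).mpr hgood
  rw [ev_apply, hap, mul_zero, zero_smul, add_zero, map_one, one_mul] at h1
  have h2 := D.sub_mem hp.2 h1
  rw [sub_sub_cancel, D.smul_mem_iff hbp] at h2
  exact haD h2

end Pool.Agent.Helper20.UI
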