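import Pool.Agent.Helper20.UI.Isot

/-!
# UI-14 CaseB: all pairwise intersections equal to `E`, `dim E ≤ k - 2`: impossible

`CaseB_eq`, `caseB_i`: adapt `Pool/Agent/Helper20/SI/CaseB.lean`: the transvection is `su` with centre `u` (isotropic as `u ∈ W`) and `c ≠ 0` of `exists_c0`; the element `ev_mixed` becomes `Cl.sg_mixed` for the Siegel element with centre `u` and
`w ∈ pp (U ⊔ span {u})`, `μ` of `exists_sd` (for `t ∈ T`: `h u t = 0`, `sg t = t - h w t • u`).
`caseB_m` (M): `a ∈ U \ E`, `b ∈ W \ E`, `h a b = 0`, `U, W, T` different. Suppose `T.map (ev .. c) = T` for all `c`. For `t ∈ T`: `(c * h a t) • b - (σ c * h b t) • a ∈ T` for all `c`. With `c = 1` and `c₁` such that `σ c₁ ≠ c₁` (`nt`): `c₁ •` first `-` second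
`= ((σ c₁ - c₁) * h b t) • a ∈ T`, so `h b t = 0` (`a ∉ T`, else `a ∈ T ⊓ U = E`). So `b ∈ W ⊓ pp T = E` (`caseB_i`, `mem_pp'`), contradiction.
`caseB_no`: take different `U, W, T ∈ L`; `a ∈ U \ E`; `b ∈ W ⊓ ker (h a)`, `b ∉ E` (dimension `≥ k - 1 > finrank E`, `finrank_inf_ker_ge`). (M): some `c` moves `T`; `T' = T.map (ev c) ∈ L` (`Cl.ev_cross`), `T' ≠ T`, `T' ≠ W` (`ev` fixes `W`, `ev_fix_right`, `map_inj'`).
`a' ∈ T ⊓ ker (h b)`, `a' ∉ E`. (M) for `T, W, T'` and `a', b`: some `c'` moves `T'`. But for `t' = t + (c * h a t) • b - (σ c * h b t) • a ∈ T'`: `h b t' = h b t` (`h b b = 0`, `h b a = 0`), `h a' t' = h a' t + c h a t * h a' b - σ c * h b t * h a' a =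
- σ c * h b t * h a' a`. So `ev (a', b) c'` fixes `T' ⊓ ker (h b)` pointwise (`h b t' = 0` implies `h a' t' = 0`), so `T'.map (ev (a', b) c') = T'` (`CaseB_eq`; it is in `L` by `Cl.ev_cross`). Contradiction.
-/

open Module Submodule Finset

set_option linter.unusedSectionVars false

namespace Pool.Agent.Helper20.UI

open Pool.Agent.Helper29.FT Pool.Agent.Helper29.FT2

variable {F V : Type*} [Field F] [AddCommGroup V] [Module F V] [FiniteDimensional F V]
variable {σ : F →+* F} {h : V →ₛₗ[σ] V →ₗ[F] F}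

variable {k : ℕ} {L : Finset (Submodule F V)}

theorem CaseB_eq {E : Submodule F V} (hL : Cl h k L)
    (hE : ∀ U ∈ L, ∀ W ∈ L, U ≠ W → U ⊓ W = E) (hk : finrank F E + 2 ≤ k)
    {T T' : Submodule F V} (hT : T ∈ L) (hT' : T' ∈ L) (f : Dual F V)
    (hf : T ⊓ LinearMap.ker f ≤ T') : T' = T := by
  by_contra hne
  have h1 : T ⊓ LinearMap.ker f ≤ E := by
    rw [← hE T hT T' hT' (fun e => hne e.symm)]
    exact le_inf inf_le_left hf
  have h2 := Submodule.finrank_mono h1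
  have h3 := finrank_inf_ker_ge T f
  rw [hL.dim T hT] at h3
  omega

theorem caseB_i (hH : Herm h) (hL : Cl h k L)
    (h3 : ∀ U W : Submodule F V, ∃ T ∈ L, T ≠ U ∧ T ≠ W) {E : Submodule F V}
    (hE : ∀ U ∈ L, ∀ W ∈ L, U ≠ W → U ⊓ W = E) (hk : finrank F E + 2 ≤ k) :
    ∀ U ∈ L, ∀ W ∈ L, U ≠ W → W ⊓ pp h U = E := by
  intro U hU W hW hUW
  obtain ⟨c, hc0, hc⟩ := exists_c0 hH
  apply le_antisymm
  · intro u hu
    by_contra huE
    have huW : u ∈ W := hu.1
    have huu : h u u = 0 := hL.ti W hW u huW u huW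
    have hup : u ∈ pp h U := hu.2
    have hupW : u ∈ pp h W := ti_iff.mp (hL.ti W hW) huW
    obtain ⟨T, hT, hTU, hTW⟩ := h3 U W
    have huT : u ∉ T := fun h => huE (by
      rw [← hE T hT W hW hTW]
      exact ⟨h, huW⟩)
    have huU : u ∉ U := fun h => huE (by
      rw [← hE U hU W hW hUW]
      exact ⟨h, huW⟩)
    have ha : ∀ x ∈ T, h u x = 0 := by
      intro x hx
      by_contra hux
      have h1 := hL.su hH huu hc hU hW hUW hup hupW hT
      have h2 := CaseB_eq hL hE hk hT h1 (h u) (inf_le_su hH huu hc T)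
      exact su_ne hH huu hc hc0 huT hx hux h2
    have hb : ∀ w ∈ pp h (U ⊔ span F {u}), ∀ t ∈ T, h w t = 0 := by
      intro w hw t ht
      have huw : h u w = 0 :=
        hw u (le_sup_right (a := U) (mem_span_singleton_self u))
      have hwU : w ∈ pp h U := pp_anti le_sup_left hw
      obtain ⟨μ, hd⟩ := exists_sd hH huu huw
      have h1 := hL.sg_mixed hd hW hU hUW.symm huW hup hwU hT
      have h2 : T.map (sg hd : V →ₗ[F] V) = T := by
        apply CaseB_eq hL hE hk hT h1 (h w)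
        intro x hx
        exact ⟨x, hx.1, sg_eq hd (ha x hx.1) (LinearMap.mem_ker.mp hx.2)⟩
      have h4 : sg hd t ∈ T.map (sg hd : V →ₗ[F] V) := Submodule.mem_map_of_mem ht
      rw [h2, sg_apply, ha t ht, zero_smul, add_zero, mul_zero, zero_smul, add_zero] at h4
      have h5 := T.sub_mem ht h4
      rw [sub_sub_cancel] at h5
      by_contra hne
      exact huT ((T.smul_mem_iff hne).mp h5)
    have hle : T ≤ U ⊔ span F {u} := by
      rw [← pp_pp hH (U ⊔ span F {u})]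
      intro t ht w hw
      exact hb w hw t ht
    have h6 : T ⊔ U ≤ U ⊔ span F {u} := sup_le hle le_sup_left
    have h7 := Submodule.finrank_mono h6
    rw [finrank_sup_span_singleton huU, hL.dim U hU] at h7
    have h8 := Submodule.finrank_sup_add_finrank_inf_eq T U
    rw [hL.dim U hU, hL.dim T hT, hE T hT U hU hTU] at h8
    omega
  · rw [← hE U hU W hW hUW]
    exact le_inf inf_le_right (inf_le_left.trans (ti_iff.mp (hL.ti U hU)))

theorem caseB_m (hH : Herm h) (hL : Cl h k L)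
    (h3 : ∀ U W : Submodule F V, ∃ T ∈ L, T ≠ U ∧ T ≠ W) {E : Submodule F V}
    (hE : ∀ U ∈ L, ∀ W ∈ L, U ≠ W → U ⊓ W = E) (hk : finrank F E + 2 ≤ k)
    {U W T : Submodule F V} (hU : U ∈ L) (hW : W ∈ L) (hT : T ∈ L) (hTU : T ≠ U) (hTW : T ≠ W)
    {a b : V} (haU : a ∈ U) (hbW : b ∈ W) (haE : a ∉ E) (hbE : b ∉ E) (ha : h a a = 0)
    (hb : h b b = 0) (hab : h a b = 0) :
    ∃ c : F, T.map (ev hH ha hb hab c : V →ₗ[F] V) ≠ T := by
  by_contra hcon
  push Not at hcon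
  have h1 : ∀ c : F, ∀ t ∈ T, (c * h a t) • b - (σ c * h b t) • a ∈ T := by
    intro c t ht
    have g1 : ev hH ha hb hab c t ∈ T.map (ev hH ha hb hab c : V →ₗ[F] V) :=
      Submodule.mem_map_of_mem ht
    rw [hcon c, ev_apply] at g1
    have g2 := T.sub_mem g1 ht
    rwa [add_sub_assoc, add_sub_cancel_left] at g2
  obtain ⟨c, hc⟩ := hH.nt
  have h2 : ∀ t ∈ T, h b t = 0 := by
    intro t ht
    by_contra hbt
    have g1 := T.sub_mem (T.smul_mem c (h1 1 t ht)) (h1 c t ht)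
    have g2 : c • ((1 * h a t) • b - (σ 1 * h b t) • a) -
        ((c * h a t) • b - (σ c * h b t) • a) = ((σ c - c) * h b t) • a := by
      rw [map_one]
      module
    rw [g2, T.smul_mem_iff (mul_ne_zero (sub_ne_zero.mpr hc) hbt)] at g1
    apply haE
    rw [← hE T hT U hU hTU]
    exact ⟨g1, haU⟩
  apply hbE
  rw [← caseB_i hH hL h3 hE hk T hT W hW hTW]
  exact ⟨hbW, (mem_pp' hH).mpr h2⟩

theorem caseB_no (hH : Herm h) (hL : Cl h k L)
    (h3 : ∀ U W : Submodule F V, ∃ T ∈ L, T ≠ U ∧ T ≠ W) {E : Submodule F V}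
    (hE : ∀ U ∈ L, ∀ W ∈ L, U ≠ W → U ⊓ W = E) (hk : finrank F E + 2 ≤ k) : False := by
  obtain ⟨U, hU, -, -⟩ := h3 ⊥ ⊥
  obtain ⟨W, hW, hWU, -⟩ := h3 U U
  obtain ⟨T, hT, hTU, hTW⟩ := h3 U W
  have hUW : U ≠ W := hWU.symm
  have ex : ∀ (X Y : Submodule F V), finrank F Y < finrank F X → ∃ x ∈ X, x ∉ Y := by
    intro X Y h
    by_contra hcon
    push Not at hcon
    have := Submodule.finrank_mono (show X ≤ Y from hcon)
    omega
  obtain ⟨a, haU, haE⟩ := ex U E (by rw [hL.dim U hU]; omega)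
  have hdim := finrank_inf_ker_ge W (h a)
  rw [hL.dim W hW] at hdim
  obtain ⟨b, hbW, hbE⟩ := ex (W ⊓ LinearMap.ker (h a)) E (by omega)
  have ha : h a a = 0 := hL.ti U hU a haU a haU
  have hb : h b b = 0 := hL.ti W hW b hbW.1 b hbW.1
  have hab : h a b = 0 := LinearMap.mem_ker.mp hbW.2
  have hba : h b a = 0 := swap0 hH hab
  obtain ⟨c, hc⟩ := caseB_m hH hL h3 hE hk hU hW hT hTU hTW haU hbW.1 haE hbE ha hb hab
  have hT' := hL.ev_cross hH ha hb hab c hU hW hUW haU hbW.1 hT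
  have hT'W : T.map (ev hH ha hb hab c : V →ₗ[F] V) ≠ W := by
    intro h1
    have h2 := ev_fix_right hH ha hb hab c (hL.ti W hW) hbW.1
    exact hTW (map_inj' (ev hH ha hb hab c) (h1.trans h2.symm))
  have hdim' := finrank_inf_ker_ge T (h b)
  rw [hL.dim T hT] at hdim'
  obtain ⟨a', haT, haE'⟩ := ex (T ⊓ LinearMap.ker (h b)) E (by omega)
  have ha' : h a' a' = 0 := hL.ti T hT a' haT.1 a' haT.1
  have hab' : h a' b = 0 := swap0 hH (LinearMap.mem_ker.mp haT.2)
  obtain ⟨c', hc'⟩ := caseB_m hH hL h3 hE hk hT hW hT' hc hT'W haT.1 hbW.1 haE' hbE ha' hb hab'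
  have hT'' := hL.ev_cross hH ha' hb hab' c' hT hW hTW haT.1 hbW.1 hT'
  apply hc'
  apply CaseB_eq hL hE hk hT' hT'' (h b)
  rintro x ⟨⟨t, ht, hx⟩, hx2⟩
  have hx' : x = t + (c * h a t) • b - (σ c * h b t) • a := by
    rw [← ev_apply hH ha hb hab c t]
    exact hx.symm
  have hbx : h b x = 0 := LinearMap.mem_ker.mp hx2
  have hbt : h b t = 0 := by
    have h1 := hbx
    rw [hx', map_sub, map_add, smul_right', smul_right', hb, hba, mul_zero, mul_zero, add_zero,
      sub_zero] at h1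
    exact h1
  have hax : h a' x = 0 := by
    rw [hx', map_sub, map_add, smul_right', smul_right', hab', hL.ti T hT a' haT.1 t ht, hbt]
    ring
  refine ⟨x, ⟨t, ht, hx⟩, ?_⟩
  show ev hH ha' hb hab' c' x = x
  rw [ev_apply, hax, hbx, mul_zero, mul_zero, zero_smul, zero_smul, add_zero, sub_zero]

end Pool.Agent.Helper20.UI
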