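import Pool.Agent.Helper29.FT2.Main

/-!
# Project UI (MP_cc38df_co): hermitian spaces, definitions

`h` is a nondegenerate hermitian form on `V`, semilinear (`σ`) in the first and linear in the
second variable.  `TI h U`: `U` is totally isotropic.  `pp h U` is the orthogonal complement.
`Iso h g`: `g` is an isometry of determinant one.
-/

open Module Submodule Finset

set_option linter.unusedSectionVars false

namespace Pool.Agent.Helper20.UI

open Pool.Agent.Helper29.FT Pool.Agent.Helper29.FT2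

variable {F V : Type*} [Field F] [AddCommGroup V] [Module F V] {σ : F →+* F}

/-- `h` is a nondegenerate hermitian form with respect to the involution `σ ≠ 1` -/
structure Herm (h : V →ₛₗ[σ] V →ₗ[F] F) : Prop where
  inv : ∀ c : F, σ (σ c) = c
  nt : ∃ c : F, σ c ≠ c
  sym : ∀ x y, h y x = σ (h x y)
  nd : ∀ x, (∀ y, h x y = 0) → x = 0

/-- `U` is totally isotropic -/
def TI (h : V →ₛₗ[σ] V →ₗ[F] F) (U : Submodule F V) : Prop :=
  ∀ x ∈ U, ∀ y ∈ U, h x y = 0

/-- the linear bijection `g` is an isometry of determinant one -/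
def Iso (h : V →ₛₗ[σ] V →ₗ[F] F) (g : V ≃ₗ[F] V) : Prop :=
  (∀ x y, h (g x) (g y) = h x y) ∧ LinearEquiv.det g = 1

/-- the orthogonal complement -/
def pp (h : V →ₛₗ[σ] V →ₗ[F] F) (U : Submodule F V) : Submodule F V where
  carrier := {x | ∀ u ∈ U, h u x = 0}
  add_mem' := by
    intro a b ha hb u hu
    rw [map_add, ha u hu, hb u hu, add_zero]
  zero_mem' := by
    intro u _
    rw [map_zero]
  smul_mem' := by
    intro c x hx u hu
    rw [map_smul, hx u hu, smul_zero]

/-- the totally isotropic `k`-dimensional subspaces -/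
noncomputable def IsoGr [Finite F] [FiniteDimensional F V] (h : V →ₛₗ[σ] V →ₗ[F] F)
    (k : ℕ) : Finset (Submodule F V) :=
  Set.Finite.toFinset (s := {U : Submodule F V | finrank F U = k ∧ TI h U})
    (@Set.toFinite _ _ (@Subtype.finite _ (finite_sub F V) _))

/-- the set of lines is invariant under the special unitary group -/
def SUInvariant [DecidableEq (Submodule F V)] (h : V →ₛₗ[σ] V →ₗ[F] F)
    (B : Finset (Finset (Submodule F V))) : Prop :=
  ∀ g : V ≃ₗ[F] V, (∀ x y, h (g x) (g y) = h x y) → LinearEquiv.det g = 1 →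
    ∀ l ∈ B, l.image (fun U => U.map (g : V →ₗ[F] V)) ∈ B

/-- closed sets: `L` consists of totally isotropic `k`-dimensional subspaces and is preserved
by every isometry of determinant one that fixes two different elements of `L` -/
structure Cl (h : V →ₛₗ[σ] V →ₗ[F] F) (k : ℕ) (L : Finset (Submodule F V)) : Prop where
  dim : ∀ U ∈ L, finrank F U = k
  ti : ∀ U ∈ L, TI h U
  cl : ∀ g : V ≃ₗ[F] V, Iso h g → ∀ U ∈ L, ∀ W ∈ L, U ≠ W → U.map (g : V →ₗ[F] V) = U →
    W.map (g : V →ₗ[F] V) = W → ∀ T ∈ L, T.map (g : V →ₗ[F] V) ∈ L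

/-- `v` lies in two different elements of `L` -/
def Good (L : Finset (Submodule F V)) (v : V) : Prop :=
  ∃ U ∈ L, ∃ W ∈ L, U ≠ W ∧ v ∈ U ∧ v ∈ W

variable {h : V →ₛₗ[σ] V →ₗ[F] F}

theorem mem_pp {U : Submodule F V} {x : V} : x ∈ pp h U ↔ ∀ u ∈ U, h u x = 0 := Iff.rfl

theorem mem_IsoGr [Finite F] [FiniteDimensional F V] {k : ℕ} {U : Submodule F V} :
    U ∈ IsoGr h k ↔ finrank F U = k ∧ TI h U := by
  rw [IsoGr, Set.Finite.mem_toFinset]
  rfl

/-! ### hermitian forms -/

theorem swap (hH : Herm h) (x y : V) : h x y = σ (h y x) := hH.sym y x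

theorem swap0 (hH : Herm h) {x y : V} (hxy : h x y = 0) : h y x = 0 := by
  rw [swap hH, hxy, map_zero]

theorem swap_iff (hH : Herm h) {x y : V} : h x y = 0 ↔ h y x = 0 := ⟨swap0 hH, swap0 hH⟩

theorem sig0 (hH : Herm h) {c : F} (hc : σ c = 0) : c = 0 := by
  rw [← hH.inv c, hc, map_zero]

theorem self_fix (hH : Herm h) (x : V) : σ (h x x) = h x x := (hH.sym x x).symm

/-- semilinearity in the first variable -/
theorem smul_left (c : F) (x y : V) : h (c • x) y = σ c * h x y := by
  rw [LinearMap.map_smulₛₗ, LinearMap.smul_apply, smul_eq_mul]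

theorem smul_right' (c : F) (x y : V) : h x (c • y) = c * h x y := by
  rw [map_smul, smul_eq_mul]

theorem mem_pp' (hH : Herm h) {U : Submodule F V} {x : V} :
    x ∈ pp h U ↔ ∀ u ∈ U, h x u = 0 :=
  ⟨fun hx u hu => swap0 hH (hx u hu), fun hx u hu => swap0 hH (hx u hu)⟩

theorem ti_iff {U : Submodule F V} : TI h U ↔ U ≤ pp h U :=
  ⟨fun hU _ hx u hu => hU u hu _ hx, fun hU _ hx _ hy => hU hy _ hx⟩

theorem TI.mono {U W : Submodule F V} (hW : TI h W) (hUW : U ≤ W) : TI h U :=
  fun x hx y hy => hW x (hUW hx) y (hUW hy)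

theorem pp_anti {U W : Submodule F V} (hUW : U ≤ W) : pp h W ≤ pp h U :=
  fun _ hx u hu => hx u (hUW hu)

theorem le_pp_iff (hH : Herm h) {U W : Submodule F V} : U ≤ pp h W ↔ W ≤ pp h U :=
  ⟨fun hU w hw _ hu => swap0 hH (hU hu w hw), fun hW _ hu w hw => swap0 hH (hW hw _ hu)⟩

theorem pp_sup (U W : Submodule F V) : pp h (U ⊔ W) = pp h U ⊓ pp h W := by
  apply le_antisymm
  · exact le_inf (pp_anti le_sup_left) (pp_anti le_sup_right)
  · intro x hx u hu
    obtain ⟨a, ha, b, hb, rfl⟩ := mem_sup.mp hu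
    rw [map_add, LinearMap.add_apply, hx.1 a ha, hx.2 b hb, add_zero]

theorem mem_pp_span {v x : V} : x ∈ pp h (span F {v}) ↔ h v x = 0 := by
  constructor
  · intro hx
    exact hx v (mem_span_singleton_self v)
  · intro hx u hu
    obtain ⟨c, rfl⟩ := mem_span_singleton.mp hu
    rw [smul_left, hx, mul_zero]

theorem ti_sup (hH : Herm h) {U W : Submodule F V} (hU : TI h U) (hW : TI h W)
    (hUW : U ≤ pp h W) : TI h (U ⊔ W) := by
  intro x hx y hy
  obtain ⟨a, ha, b, hb, rfl⟩ := mem_sup.mp hx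
  obtain ⟨c, hc, d, hd, rfl⟩ := mem_sup.mp hy
  rw [map_add, map_add, LinearMap.add_apply, LinearMap.add_apply, hU a ha c hc, hW b hb d hd,
    hUW hc b hb, swap0 hH (hUW ha d hd)]
  simp

theorem ti_span {v : V} (hv : h v v = 0) : TI h (span F {v}) := by
  intro x hx y hy
  obtain ⟨c, rfl⟩ := mem_span_singleton.mp hx
  obtain ⟨d, rfl⟩ := mem_span_singleton.mp hy
  rw [smul_left, smul_right', hv, mul_zero, mul_zero]

theorem ti_sup_span (hH : Herm h) {U : Submodule F V} {v : V} (hU : TI h U) (hv : h v v = 0)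
    (hUv : ∀ u ∈ U, h u v = 0) : TI h (U ⊔ span F {v}) := by
  apply ti_sup hH hU (ti_span hv)
  intro u hu
  rw [mem_pp_span]
  exact swap0 hH (hUv u hu)

theorem ti_bot : TI h (⊥ : Submodule F V) := by
  intro x hx y _
  rw [(Submodule.mem_bot F).mp hx, map_zero, LinearMap.zero_apply]

end Pool.Agent.Helper20.UI
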