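import Pool.Agent.Helper20.UI.Defs

/-!
# UI-02 Dim: dimension formula and separation

`gram`: for a linearly independent family `b : Fin m → V` the linear map `φ : V → (Fin m → F)`, `φ x i = h (b i) x` (`LinearMap.pi fun i => h (b i)`) is surjective: otherwise some nonzero
functional vanishes on the range: `∑ c i * h (b i) x = 0` for all `x` (not all `c i = 0`); then `h (∑ σ (c i) • b i) x = ∑ σ (σ (c i)) * h (b i) x = 0` for all `x`, so
`∑ σ (c i) • b i = 0` (`nd`), so all `σ (c i) = 0`, `c i = 0` (`sig0`). Contradiction.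
`finrank_pp`: for a basis `b` of `U` the kernel of `φ` is `pp h U` (semilinearity in the first variable, `Submodule.span_induction` or `Basis.repr`), use
`LinearMap.finrank_range_add_finrank_ker`. `pp_pp`: `U ≤ pp (pp U)` (`swap0`), equal dimensions. `TI.le`: `ti_iff`, `finrank_pp`. `exists_pp`, `exists_pp_of_not_le`: as in
`Pool/Agent/Helper20/SI/Defs.lean` (`x ∉ U = pp (pp U)`; scale: `h (c • v) x = σ c * h v x`, take `c = σ (h v x)⁻¹`). `exists_vec`: with a basis `b` of `V` and `gram` some `v` has
`h (b i) v = σ (f (b i))`, so `h v (b i) = σ (h (b i) v) = f (b i)` (`swap`, `inv`), so `h v = f`.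
-/

open Module Submodule Finset

set_option linter.unusedSectionVars false

namespace Pool.Agent.Helper20.UI

open Pool.Agent.Helper29.FT Pool.Agent.Helper29.FT2

variable {F V : Type*} [Field F] [AddCommGroup V] [Module F V] [FiniteDimensional F V]
variable {σ : F →+* F} {h : V →ₛₗ[σ] V →ₗ[F] F}

theorem gram (hH : Herm h) {m : ℕ} {b : Fin m → V} (hb : LinearIndependent F b) (y : Fin m → F) :
    ∃ x : V, ∀ i, h (b i) x = y i := by
  let φ : V →ₗ[F] (Fin m → F) := LinearMap.pi fun i => h (b i)
  have hφ : ∀ x i, φ x i = h (b i) x := fun x i => rfl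
  have hsurj : LinearMap.range φ = ⊤ := by
    by_contra hne
    obtain ⟨f, hf0, hf⟩ := Submodule.exists_le_ker_of_lt_top _ (lt_top_iff_ne_top.mpr hne)
    apply hf0
    -- coefficients
    have hfx : ∀ z : Fin m → F, f z = ∑ i, z i * f (Pi.single i 1) := by
      intro z
      conv_lhs => rw [pi_eq_sum_univ' z]
      rw [map_sum]
      apply Finset.sum_congr rfl
      intro i _
      rw [map_smul, smul_eq_mul]
    have h1 : ∀ x : V, ∑ i, h (b i) x * f (Pi.single i 1) = 0 := by
      intro x
      have h2 := hf (LinearMap.mem_range_self φ x)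
      rw [LinearMap.mem_ker, hfx] at h2
      exact h2
    have h2 : ∑ i, σ (f (Pi.single i 1)) • b i = 0 := by
      apply hH.nd
      intro y
      rw [map_sum, LinearMap.sum_apply]
      rw [← h1 y]
      apply Finset.sum_congr rfl
      intro i _
      rw [smul_left, hH.inv, mul_comm]
    have h3 := Fintype.linearIndependent_iff.mp hb _ h2
    apply LinearMap.ext
    intro z
    rw [hfx, LinearMap.zero_apply]
    apply Finset.sum_eq_zero
    intro i _
    rw [sig0 hH (h3 i), mul_zero]
  have hy : y ∈ LinearMap.range φ := by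
    rw [hsurj]
    exact Submodule.mem_top
  obtain ⟨x, hx⟩ := hy
  exact ⟨x, fun i => by rw [← hφ, hx]⟩

theorem finrank_pp (hH : Herm h) (U : Submodule F V) :
    finrank F (pp h U) + finrank F U = finrank F V := by
  let b := Module.finBasis F U
  let φ : V →ₗ[F] (Fin (finrank F U) → F) := LinearMap.pi fun i => h (b i : V)
  have hb : LinearIndependent F (fun i => (b i : V)) :=
    b.linearIndependent.map' U.subtype (Submodule.ker_subtype U)
  have hker : LinearMap.ker φ = pp h U := by
    ext x
    rw [LinearMap.mem_ker, mem_pp]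
    constructor
    · intro hx u hu
      have h1 : ∀ i, h (b i : V) x = 0 := fun i => congrFun hx i
      have h2 : (⟨u, hu⟩ : U) = ∑ i, b.repr ⟨u, hu⟩ i • b i := (b.sum_repr _).symm
      have h3 : u = ∑ i, b.repr ⟨u, hu⟩ i • (b i : V) := by
        have h4 := congrArg U.subtype h2
        rw [map_sum] at h4
        simpa only [map_smul, Submodule.subtype_apply] using h4
      rw [h3, map_sum, LinearMap.sum_apply]
      apply Finset.sum_eq_zero
      intro i _
      rw [smul_left, h1 i, mul_zero]
    · intro hx
      funext i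
      exact hx _ (b i).2
  have hr : LinearMap.range φ = ⊤ := by
    rw [eq_top_iff]
    intro y _
    obtain ⟨x, hx⟩ := gram hH hb y
    exact ⟨x, funext hx⟩
  have h1 := LinearMap.finrank_range_add_finrank_ker φ
  rw [hker, hr, finrank_top, Module.finrank_fin_fun] at h1
  omega

theorem pp_pp (hH : Herm h) (U : Submodule F V) : pp h (pp h U) = U := by
  symm
  apply Submodule.eq_of_le_of_finrank_eq
  · intro x hx v hv
    exact swap0 hH (hv x hx)
  · have h1 := finrank_pp hH U
    have h2 := finrank_pp hH (pp h U)
    omega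

theorem TI.le (hH : Herm h) {U : Submodule F V} (hU : TI h U) :
    2 * finrank F U ≤ finrank F V := by
  have h1 := Submodule.finrank_mono (ti_iff.mp hU)
  have h2 := finrank_pp hH U
  omega

/-- separation of a vector from a subspace by a vector of the complement -/
theorem exists_pp (hH : Herm h) {U : Submodule F V} {x : V} (hx : x ∉ U) :
    ∃ v ∈ pp h U, h v x = 1 := by
  by_contra hcon
  push Not at hcon
  apply hx
  rw [← pp_pp hH U]
  intro v hv
  by_contra h0
  apply hcon (σ (h v x)⁻¹ • v) ((pp h U).smul_mem _ hv)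
  rw [smul_left, hH.inv, inv_mul_cancel₀ h0]

theorem exists_pp_of_not_le (hH : Herm h) {U T : Submodule F V} (hT : ¬ T ≤ U) :
    ∃ v ∈ pp h U, ∃ x ∈ T, h v x = 1 := by
  obtain ⟨x, hxT, hxU⟩ := SetLike.not_le_iff_exists.mp hT
  obtain ⟨v, hv, hvx⟩ := exists_pp hH hxU
  exact ⟨v, hv, x, hxT, hvx⟩

/-- every functional is given by a vector -/
theorem exists_vec (hH : Herm h) (f : Dual F V) : ∃ v : V, ∀ x, h v x = f x := by
  let b := Module.finBasis F V
  obtain ⟨v, hv⟩ := gram hH b.linearIndependent (fun i => σ (f (b i)))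
  refine ⟨v, ?_⟩
  have h1 : h v = f := by
    apply b.ext
    intro i
    rw [swap hH, hv i, hH.inv]
  intro x
  rw [h1]

end Pool.Agent.Helper20.UI
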