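import Pool.Agent.Helper20.UI.Reach

/-!
# UI-10 GoodD: the good vectors form a totally isotropic subspace

All good vectors are isotropic (`Good.iso`); scalar multiples of good vectors are good; Siegel elements with good centre preserve `L` (`Cl.sg_good`), so the good vectors (`Good.map`).
`good_add`: `v, x` good, `h v x = 0`: if `x ∈ span {v}` clear. Otherwise `move_b` with `Y = ⊥`, centre `v`, vector `x` (`x ∉ ⊥ ⊔ span {v}`) gives a Siegel element with centre `v` mapping `x` to `x + v`.
`good_all`: `v, x` good, `h v x ≠ 0`, `4 ≤ n`: every isotropic `u` is good.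
(1) `w` isotropic, `h v w = 0`, `h x w = 0`: `ev (a = v, b = w)` with `c = 1` maps `x` to `x + (h v x) • w - (h w x) • v = x + (h v x) • w`, good; it is orthogonal to `x`; `good_add` for it and `-x`: `(h v x) • w` is good, so `w`.
(2) `u` isotropic, `h v u = 0`: `a = h x u / h x v`, `w = u - a • v`: `h v w = 0`, `h x w = 0`, `h w w = 0`, so `w` is good by (1) and `u = w + a • v` by `good_add`.
(3) any isotropic `u`; let `h v u ≠ 0` (else (2)). `S = pp (span {v} ⊔ span {u})`, `finrank S ≥ n - 2 ≥ 2`: `exists_isotropic`: `y ∈ S`, `y ≠ 0` isotropic: `h v y = 0`, `h u y = 0`; good by (2). `y ∉ span {v}` (`y = c v` gives `0 = h u y = c h u v`,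
`c = 0`). (K) (`exists_iso_pp`, `X = span {v}`): `z` isotropic, `h v z = 0`, `h z y = 1`; good by (2). Now (2) for the pair `(y, z)` in place of `(v, x)` and `u`: `h y u = 0`: `u` is good.
`exists_goodSub`: if some good `v, x` have `h v x ≠ 0`, all isotropic vectors are good, so `reach` with `P T := T ∈ L`, `S = ⊤` (the centre of a Siegel element is isotropic: `SD.iso`) gives `R ∈ L`, contradiction. So good vectors are pairwise
orthogonal, `D = {v | Good L v}` is a subspace (`good_add`; `0` is good by `h2`) and totally isotropic.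
-/

open Module Submodule Finset

set_option linter.unusedSectionVars false

namespace Pool.Agent.Helper20.UI

open Pool.Agent.Helper29.FT Pool.Agent.Helper29.FT2

variable {F V : Type*} [Field F] [AddCommGroup V] [Module F V] [FiniteDimensional F V]
variable {σ : F →+* F} {h : V →ₛₗ[σ] V →ₗ[F] F}

variable {k : ℕ} {L : Finset (Submodule F V)}

theorem GoodD_smul {v : V} (hv : Good L v) (c : F) : Good L (c • v) := by
  obtain ⟨U, hU, W, hW, hUW, hvU, hvW⟩ := hv
  exact ⟨U, hU, W, hW, hUW, U.smul_mem c hvU, W.smul_mem c hvW⟩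

theorem good_add (hH : Herm h) (hL : Cl h k L) {v x : V} (hv : Good L v) (hx : Good L x)
    (hvx : h v x = 0) : Good L (v + x) := by
  by_cases hs : x ∈ span F {v}
  · obtain ⟨c, rfl⟩ := mem_span_singleton.mp hs
    have h1 := GoodD_smul hv (1 + c)
    rwa [add_smul, one_smul] at h1
  · have hs' : x ∉ (⊥ : Submodule F V) ⊔ span F {v} := by rwa [bot_sup_eq]
    obtain ⟨w, μ, hd, -, hsx⟩ := move_b (Y := ⊥) hH (hv.iso hL)
      (show v ∈ pp h (⊥ : Submodule F V) from by
        intro u hu
        rw [(Submodule.mem_bot F).mp hu, map_zero, LinearMap.zero_apply]) hvx hs'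
    have h1 := Good.map (g := sg hd) (fun T hT => hL.sg_good hd hv hT) hx
    rw [hsx, add_comm] at h1
    exact h1

theorem GoodD_two (hH : Herm h) (hL : Cl h k L) {v x : V}
    (hv : Good L v) (hx : Good L x) (hvx : h v x ≠ 0) {u : V} (hu : h u u = 0)
    (hvu : h v u = 0) : Good L u := by
  have hvv : h v v = 0 := hv.iso hL
  have hxx : h x x = 0 := hx.iso hL
  have hxv : h x v ≠ 0 := fun h0 => hvx (swap0 hH h0)
  -- (1)
  have h1 : ∀ w : V, h w w = 0 → h v w = 0 → h x w = 0 → Good L w := by
    intro w hw hvw hxw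
    have hg := Good.map (g := ev hH hvv hw hvw 1) (fun T hT => hL.sg_good _ hv hT) hx
    rw [ev_apply, swap0 hH hxw, mul_zero, zero_smul, sub_zero, one_mul] at hg
    have hperp : h (x + h v x • w) ((-1 : F) • x) = 0 := by
      rw [smul_right', map_add, LinearMap.add_apply, smul_left, hxx, swap0 hH hxw]
      simp
    have hg2 := good_add hH hL hg (GoodD_smul hx (-1)) hperp
    have h2 : x + h v x • w + (-1 : F) • x = h v x • w := by
      rw [neg_one_smul]
      abel
    rw [h2] at hg2
    have hg3 := GoodD_smul hg2 (h v x)⁻¹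
    rwa [smul_smul, inv_mul_cancel₀ hvx, one_smul] at hg3
  -- (2)
  have hw := h1 (u - (h x u / h x v) • v) (by
    simp only [map_sub, LinearMap.sub_apply, smul_left, smul_right', hu, hvv, hvu,
      swap0 hH hvu]
    ring) (by rw [map_sub, smul_right', hvu, hvv, mul_zero, sub_zero]) (by
    rw [map_sub, smul_right', div_mul_cancel₀ _ hxv, sub_self])
  have hperp : h (u - (h x u / h x v) • v) ((h x u / h x v) • v) = 0 := by
    rw [smul_right', map_sub, LinearMap.sub_apply, smul_left, hvv, swap0 hH hvu]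
    simp
  have h3 := good_add hH hL hw (GoodD_smul hv (h x u / h x v)) hperp
  rwa [sub_add_cancel] at h3

theorem good_all [Finite F] (hH : Herm h) (hn : 4 ≤ finrank F V) (hL : Cl h k L) {v x : V}
    (hv : Good L v) (hx : Good L x) (hvx : h v x ≠ 0) {u : V} (hu : h u u = 0) : Good L u := by
  by_cases hvu : h v u = 0
  · exact GoodD_two hH hL hv hx hvx hu hvu
  have hvv : h v v = 0 := hv.iso hL
  have h1 := finrank_pp hH (span F {v} ⊔ span F {u})
  have h2 : finrank F (span F {v} ⊔ span F {u} : Submodule F V) ≤ 2 := by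
    have h3 := Submodule.finrank_add_le_finrank_add_finrank (span F {v}) (span F {u})
    have h4 : ∀ z : V, finrank F (span F {z}) ≤ 1 := by
      intro z
      have := finrank_span_le_card (R := F) ({z} : Set V)
      simpa using this
    have h5 := h4 v
    have h6 := h4 u
    omega
  obtain ⟨y, hy, hy0, hyy⟩ := exists_isotropic hH (S := pp h (span F {v} ⊔ span F {u}))
    (by omega)
  rw [pp_sup] at hy
  have hvy : h v y = 0 := mem_pp_span.mp hy.1
  have huy : h u y = 0 := mem_pp_span.mp hy.2
  have hyg := GoodD_two hH hL hv hx hvx hyy hvy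
  have hys : y ∉ span F {v} := by
    intro hys
    obtain ⟨c, rfl⟩ := mem_span_singleton.mp hys
    rw [smul_right'] at huy
    rcases mul_eq_zero.mp huy with h3 | h3
    · rw [h3, zero_smul] at hy0
      exact hy0 rfl
    · exact hvu (swap0 hH h3)
  obtain ⟨z, hz, hzz, hzy⟩ := exists_iso_pp hH (X := span F {v}) (x := y)
    (mem_pp_span.mpr hvy) hys hyy
  have hvz : h v z = 0 := mem_pp_span.mp hz
  have hzg := GoodD_two hH hL hv hx hvx hzz hvz
  have hyz : h y z ≠ 0 := by
    intro h3
    rw [swap0 hH h3] at hzy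
    exact zero_ne_one hzy
  exact GoodD_two hH hL hyg hzg hyz hu (swap0 hH huy)

theorem exists_goodSub [Finite F] (hH : Herm h) (hn : 4 ≤ finrank F V) (hL : Cl h k L)
    (h2 : ∃ U ∈ L, ∃ W ∈ L, U ≠ W)
    (hne : ∃ R : Submodule F V, finrank F R = k ∧ TI h R ∧ R ∉ L) :
    ∃ D : Submodule F V, TI h D ∧ ∀ v, v ∈ D ↔ Good L v := by
  have hperp : ∀ v x : V, Good L v → Good L x → h v x = 0 := by
    intro v x hv hx
    by_contra hvx
    obtain ⟨R, hRk, hRt, hRL⟩ := hne
    apply hRL
    obtain ⟨U, hU, -⟩ := h2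
    exact reach (P := fun T => T ∈ L) (S := ⊤) hH
      (fun a w μ hd _ T hT => hL.sg_good hd (good_all hH hn hL hv hx hvx hd.iso) hT)
      le_top le_top hRt (hL.ti U hU) hRk (hL.dim U hU) hU
  refine ⟨⟨⟨⟨{v | Good L v}, ?_⟩, ?_⟩, ?_⟩, ?_, fun v => Iff.rfl⟩
  · intro v x hv hx
    exact good_add hH hL hv hx (hperp v x hv hx)
  · obtain ⟨U, hU, W, hW, hUW⟩ := h2
    exact ⟨U, hU, W, hW, hUW, U.zero_mem, W.zero_mem⟩
  · intro c v hv
    exact GoodD_smul hv c
  · intro x hx y hy
    exact hperp x y hx hy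

end Pool.Agent.Helper20.UI
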