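import Pool.Agent.Helper20.UI.Defs

/-!
# UI-01 Sc: scalars: trace zero elements, trace and norm

`exists_c0`: take `x` with `σ x ≠ x`, `c = x - σ x`. `exists_trace`: some `t₀` has `t₀ + σ t₀ ≠ 0`: otherwise (`t₀ = 1`) `2 = 0`, and then `σ t = -t = t` for all `t`,
contradiction to `nt`. `T = t₀ + σ t₀` is fixed by `σ`; `t = t₀ * r * T⁻¹` (`σ r = r`). `inv_tr`: `σ c = -c`, so `σ c⁻¹ = -c⁻¹`.
`exists_norm` (`r = 0`: `z = 0`; let `r ≠ 0`): `N : Fˣ → Fˣ`, `N z = z * σ z` and `φ : Fˣ → Fˣ`, `φ y = σ y / y` are homomorphisms (`Units.map σ`). (1) `ker φ = {y | σ y = y}`.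
(2) `range N ≤ ker φ`. (3) `range φ = ker N`: `N (σ y / y) = 1`; conversely (Hilbert 90) let `z * σ z = 1`: some `t` has `y = t + σ t * z⁻¹ ≠ 0` (otherwise `t = 1` gives
`z⁻¹ = -1`, so `t - σ t = 0` for all `t`); `σ y = σ t + t * z = z * y`, so `φ y = z`. (4) `Nat.card (range N) * Nat.card (ker N) = Nat.card Fˣ = Nat.card (range φ) * Nat.card (ker φ)`
(first isomorphism theorem, e.g. `Subgroup.card_range_mul_card_ker` or `QuotientGroup.quotientKerEquivRange`, `Subgroup.card_eq_card_quotient_mul_card_subgroup`), so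
`Nat.card (range N) = Nat.card (ker φ)`, so `range N = ker φ` (finite): `r ∈ range N`.
-/

open Module Submodule Finset

set_option linter.unusedSectionVars false

namespace Pool.Agent.Helper20.UI

open Pool.Agent.Helper29.FT Pool.Agent.Helper29.FT2

variable {F V : Type*} [Field F] [AddCommGroup V] [Module F V] [FiniteDimensional F V]
variable {σ : F →+* F} {h : V →ₛₗ[σ] V →ₗ[F] F}

theorem exists_c0 (hH : Herm h) : ∃ c : F, c ≠ 0 ∧ c + σ c = 0 := by
  obtain ⟨x, hx⟩ := hH.nt
  refine ⟨x - σ x, ?_, ?_⟩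
  · intro h0
    exact hx (sub_eq_zero.mp h0).symm
  · rw [map_sub, hH.inv]
    ring

theorem inv_tr {c : F} (hc : c + σ c = 0) : c⁻¹ + σ c⁻¹ = 0 := by
  have h1 : σ c = -c := by
    rw [eq_neg_iff_add_eq_zero, add_comm]
    exact hc
  rw [map_inv₀, h1, inv_neg, add_neg_cancel]

theorem exists_trace (hH : Herm h) {r : F} (hr : σ r = r) : ∃ t : F, t + σ t = r := by
  have h1 : ∃ t₀ : F, t₀ + σ t₀ ≠ 0 := by
    by_contra hcon
    push Not at hcon
    obtain ⟨x, hx⟩ := hH.nt
    have h2 := hcon 1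
    rw [map_one] at h2
    apply hx
    have h3 := hcon x
    have h4 : x + x = 0 := by
      have : x + x = (1 + 1) * x := by ring
      rw [this, h2, zero_mul]
    have h5 : σ x = - x := by
      rw [eq_neg_iff_add_eq_zero, add_comm]
      exact h3
    rw [h5]
    exact (eq_neg_iff_add_eq_zero.mpr h4).symm
  obtain ⟨t₀, h2⟩ := h1
  have h3 : σ (t₀ + σ t₀) = t₀ + σ t₀ := by
    rw [map_add, hH.inv, add_comm]
  refine ⟨t₀ * r * (t₀ + σ t₀)⁻¹, ?_⟩
  rw [map_mul, map_mul, map_inv₀, h3, hr]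
  field_simp

theorem exists_norm [Finite F] (hH : Herm h) {r : F} (hr : σ r = r) : ∃ z : F, z * σ z = r := by
  have : Fintype F := Fintype.ofFinite F
  by_cases hr0 : r = 0
  · exact ⟨0, by rw [zero_mul, hr0]⟩
  -- the two homomorphisms
  let S : Fˣ →* Fˣ := Units.map (σ : F →* F)
  have hSv : ∀ y : Fˣ, ((S y : Fˣ) : F) = σ (y : F) := fun y => rfl
  let N : Fˣ →* Fˣ := MonoidHom.id Fˣ * S
  let φ : Fˣ →* Fˣ := S / MonoidHom.id Fˣ
  have hN : ∀ z : Fˣ, N z = z * S z := fun z => rfl
  have hφ : ∀ z : Fˣ, φ z = S z / z := fun z => rfl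
  have hSS : ∀ z : Fˣ, S (S z) = z := by
    intro z
    apply Units.ext
    rw [hSv, hSv, hH.inv]
  have h1 : φ.range = N.ker := by
    ext z
    constructor
    · rintro ⟨y, rfl⟩
      rw [MonoidHom.mem_ker, hN, hφ, map_div, hSS]
      rw [div_mul_div_comm, mul_comm, div_self']
    · intro hz
      rw [MonoidHom.mem_ker, hN] at hz
      -- Hilbert 90
      have hz' : (z : F) * σ (z : F) = 1 := by
        have := congrArg (fun u : Fˣ => (u : F)) hz
        simpa [hSv] using this
      have hz0 : (z : F) ≠ 0 := z.ne_zero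
      have hex : ∃ t : F, t + σ t * (z : F)⁻¹ ≠ 0 := by
        by_contra hcon
        push Not at hcon
        obtain ⟨x, hx⟩ := hH.nt
        have h2 := hcon 1
        rw [map_one, one_mul] at h2
        have h3 := hcon x
        have h4 : (z : F)⁻¹ = -1 := by
          rw [eq_neg_iff_add_eq_zero, add_comm]
          exact h2
        rw [h4] at h3
        apply hx
        have h5 : x - σ x = 0 := by
          rw [← h3]
          ring
        exact (sub_eq_zero.mp h5).symm
      obtain ⟨t, ht⟩ := hex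
      refine ⟨Units.mk0 _ ht, ?_⟩
      rw [hφ]
      apply Units.ext
      rw [Units.val_div_eq_div_val, hSv, Units.val_mk0, div_eq_iff ht, map_add, map_mul, hH.inv,
        map_inv₀]
      have h6 : (σ (z : F))⁻¹ = z := by
        rw [inv_eq_iff_eq_inv]
        exact eq_inv_of_mul_eq_one_right hz'
      rw [h6]
      field_simp
      ring
  have h2 : N.range ≤ φ.ker := by
    rintro _ ⟨z, rfl⟩
    rw [MonoidHom.mem_ker, hφ, hN, map_mul, hSS, mul_comm, div_self']
  have hcard : ∀ f : Fˣ →* Fˣ, Nat.card f.range * Nat.card f.ker = Nat.card Fˣ := by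
    intro f
    rw [← Nat.card_congr (QuotientGroup.quotientKerEquivRange f).toEquiv, mul_comm]
    rw [Subgroup.card_eq_card_quotient_mul_card_subgroup f.ker, mul_comm]
  have h3 := hcard N
  have h4 := hcard φ
  rw [h1] at h4
  have h5 : 0 < Nat.card N.ker := Nat.card_pos
  have h6 : Nat.card N.range = Nat.card φ.ker := by
    have h7 : Nat.card N.range * Nat.card N.ker = Nat.card φ.ker * Nat.card N.ker := by
      rw [h3, ← h4, mul_comm]
    exact Nat.eq_of_mul_eq_mul_right h5 h7
  have h8 : N.range = φ.ker := Subgroup.eq_of_le_of_card_ge h2 h6.ge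
  have h9 : Units.mk0 r hr0 ∈ φ.ker := by
    rw [MonoidHom.mem_ker, hφ, div_eq_one]
    apply Units.ext
    rw [hSv, Units.val_mk0, hr]
  rw [← h8] at h9
  obtain ⟨z, hz⟩ := h9
  refine ⟨z, ?_⟩
  have := congrArg (fun u : Fˣ => (u : F)) hz
  simpa [hN, hSv] using this

end Pool.Agent.Helper20.UI
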