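import Pool.Agent.Helper20.UI.Sg
import Pool.Agent.Helper20.UI.Sc
import Pool.Agent.Helper20.UI.Dim

/-!
# UI-03 Isot: isotropic vectors

`exists_sd`: `exists_trace` for `- h w w` (fixed by `σ`, `self_fix`). (K) `exists_iso_pp`: `exists_pp` gives `w' ∈ pp X`, `h w' x = 1`; `w = w' + t • x`:
`h w w = h w' w' + t + σ t` (`h w' x = 1`, `h x w' = σ 1 = 1`, `h x x = 0`): `exists_trace`; `h w x = 1`. (K') `exists_iso_pp_of_not_le`: if every `x ∈ T` is in `pp X`, take `x ∈ T`, `x ∉ X`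
and (K) (`h x x = 0` as `T` is totally isotropic). Otherwise some `x ∈ T`, `u ∈ X` have `h u x ≠ 0`: `v = σ (h u x)⁻¹ • u ∈ X ≤ pp X`.
`exists_isotropic`: `S` has a nonzero vector `x`; if `h x x = 0` done. `S ⊓ ker (h x)` has dimension `≥ 1` (`finrank_inf_ker_ge`): `y ≠ 0` in it, if `h y y = 0` done. Otherwise
`r = - h x x / h y y` is fixed by `σ`; `exists_norm`: `z * σ z = r`; `h (x + z • y) (x + z • y) = h x x + σ z * z * h y y = 0` (`h x y = 0`, `h y x = 0`); `x + z • y ≠ 0` (else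
`h x (x + z • y) = h x x = 0`). `exists_isotropic_off`: a complement `C` of `E` in `S` (`Submodule.exists_isCompl`, `C ⊓ S`; see `FT2.exists_decomp`) has dimension
`finrank S - finrank E ≥ 2`; a nonzero isotropic `y ∈ C` is not in `E`.
-/

open Module Submodule Finset

set_option linter.unusedSectionVars false

namespace Pool.Agent.Helper20.UI

open Pool.Agent.Helper29.FT Pool.Agent.Helper29.FT2

variable {F V : Type*} [Field F] [AddCommGroup V] [Module F V] [FiniteDimensional F V]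
variable {σ : F →+* F} {h : V →ₛₗ[σ] V →ₗ[F] F}

theorem exists_sd (hH : Herm h) {a w : V} (ha : h a a = 0) (haw : h a w = 0) :
    ∃ μ : F, SD h a w μ := by
  obtain ⟨t, ht⟩ := exists_trace hH (r := - h w w) (by rw [map_neg, self_fix hH])
  exact ⟨t, hH, ha, haw, by rw [ht, neg_add_cancel]⟩

/-- (K) -/
theorem exists_iso_pp (hH : Herm h) {X : Submodule F V} {x : V} (hx : x ∈ pp h X) (hxX : x ∉ X)
    (hxx : h x x = 0) : ∃ w ∈ pp h X, h w w = 0 ∧ h w x = 1 := by
  obtain ⟨w', hw', h1⟩ := exists_pp hH hxX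
  have h2 : h x w' = 1 := by rw [swap hH, h1, map_one]
  obtain ⟨t, ht⟩ := exists_trace hH (r := - h w' w') (by rw [map_neg, self_fix hH])
  refine ⟨w' + t • x, (pp h X).add_mem hw' ((pp h X).smul_mem _ hx), ?_, ?_⟩
  · simp only [map_add, LinearMap.add_apply, smul_left, smul_right', h1, h2, hxx]
    linear_combination ht
  · rw [map_add, LinearMap.add_apply, smul_left, h1, hxx, mul_zero, add_zero]

/-- (K') -/
theorem exists_iso_pp_of_not_le (hH : Herm h) {X T : Submodule F V} (hX : TI h X)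
    (hT : TI h T) (hTX : ¬ T ≤ X) : ∃ v ∈ pp h X, h v v = 0 ∧ ∃ x ∈ T, h v x = 1 := by
  by_cases h1 : T ≤ pp h X
  · obtain ⟨x, hxT, hxX⟩ := SetLike.not_le_iff_exists.mp hTX
    obtain ⟨w, hw, hww, hwx⟩ := exists_iso_pp hH (h1 hxT) hxX (hT x hxT x hxT)
    exact ⟨w, hw, hww, x, hxT, hwx⟩
  · obtain ⟨x, hxT, hx⟩ := SetLike.not_le_iff_exists.mp h1
    rw [mem_pp] at hx
    push Not at hx
    obtain ⟨u, hu, hux⟩ := hx
    have hv : σ (h u x)⁻¹ • u ∈ X := X.smul_mem _ hu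
    refine ⟨σ (h u x)⁻¹ • u, ti_iff.mp hX hv, hX _ hv _ hv, x, hxT, ?_⟩
    rw [smul_left, hH.inv, inv_mul_cancel₀ hux]

theorem exists_isotropic [Finite F] (hH : Herm h) {S : Submodule F V} (hS : 2 ≤ finrank F S) :
    ∃ x ∈ S, x ≠ 0 ∧ h x x = 0 := by
  have hS0 : S ≠ ⊥ := by
    rintro rfl
    rw [finrank_bot] at hS
    omega
  obtain ⟨x, hxS, hx0⟩ := Submodule.exists_mem_ne_zero_of_ne_bot hS0
  by_cases hxx : h x x = 0
  · exact ⟨x, hxS, hx0, hxx⟩
  have h1 := finrank_inf_ker_ge S (h x)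
  have hS1 : S ⊓ LinearMap.ker (h x) ≠ ⊥ := by
    intro h2
    rw [h2, finrank_bot] at h1
    omega
  obtain ⟨y, hy, hy0⟩ := Submodule.exists_mem_ne_zero_of_ne_bot hS1
  have hxy : h x y = 0 := LinearMap.mem_ker.mp hy.2
  have hyx : h y x = 0 := swap0 hH hxy
  by_cases hyy : h y y = 0
  · exact ⟨y, hy.1, hy0, hyy⟩
  obtain ⟨z, hz⟩ := exists_norm hH (r := - h x x / h y y) (by
    rw [map_div₀, map_neg, self_fix hH, self_fix hH])
  refine ⟨x + z • y, S.add_mem hxS (S.smul_mem _ hy.1), ?_, ?_⟩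
  · intro h2
    apply hxx
    have h3 : h x (x + z • y) = 0 := by rw [h2, map_zero]
    rw [map_add, smul_right', hxy, mul_zero, add_zero] at h3
    exact h3
  · simp only [map_add, LinearMap.add_apply, smul_left, smul_right', hxy, hyx]
    have h4 : z * σ z * h y y = - h x x := by
      rw [hz]
      field_simp
    linear_combination h4

theorem exists_isotropic_off [Finite F] (hH : Herm h) {S E : Submodule F V} (hES : E ≤ S)
    (hd : finrank F E + 2 ≤ finrank F S) : ∃ y ∈ S, y ∉ E ∧ h y y = 0 := by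
  obtain ⟨C, hC⟩ := Submodule.exists_isCompl E
  have h1 : E ⊔ C ⊓ S = S := by
    rw [← sup_inf_assoc_of_le C hES, hC.sup_eq_top, top_inf_eq]
  have h2 : E ⊓ (C ⊓ S) = ⊥ := by
    rw [← inf_assoc, hC.inf_eq_bot, bot_inf_eq]
  have h3 := Submodule.finrank_sup_add_finrank_inf_eq E (C ⊓ S)
  rw [h1, h2, finrank_bot] at h3
  obtain ⟨y, hy, hy0, hyy⟩ := exists_isotropic hH (S := C ⊓ S) (by omega)
  refine ⟨y, hy.2, ?_, hyy⟩
  intro hyE
  apply hy0
  have h4 : y ∈ E ⊓ (C ⊓ S) := ⟨hyE, hy⟩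
  rw [h2] at h4
  exact (Submodule.mem_bot F).mp h4

end Pool.Agent.Helper20.UI
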