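import Pool.Agent.Helper20.UI.Isot

/-!
# UI-16 Opp: opposite subspaces

Adapt `exists_opposite` of `Pool/Agent/Helper20/SI/Opp.lean` (induction on `k`). `U ⊓ pp W = ⊥` from `W ⊓ pp U = ⊥` by dimension: `finrank (U ⊓ pp W) = finrank (W ⊓ pp U)`: `pp (U ⊔ pp W) = pp U ⊓ W` (`pp_sup`, `pp_pp`), `finrank_pp`, `finrank_sup_add_finrank_inf_eq`.
Step: `pp (U ⊔ W)` has dimension `n - 2 k ≥ 2`: `exists_isotropic` gives `a ≠ 0` isotropic in it, `a ∉ U ⊔ W` (`(U ⊔ W) ⊓ pp (U ⊔ W) = ⊥`); (K) `exists_iso_pp` for `X = U ⊔ W`, `x = a` gives an isotropic `b ∈ pp (U ⊔ W)` with `h b a = 1`.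
-/

open Module Submodule Finset

set_option linter.unusedSectionVars false

namespace Pool.Agent.Helper20.UI

open Pool.Agent.Helper29.FT Pool.Agent.Helper29.FT2

variable {F V : Type*} [Field F] [AddCommGroup V] [Module F V] [FiniteDimensional F V]
variable {σ : F →+* F} {h : V →ₛₗ[σ] V →ₗ[F] F}

theorem exists_opposite [Finite F] (hH : Herm h) {k : ℕ} (hkn : 2 * k ≤ finrank F V) :
    ∃ U W : Submodule F V, finrank F U = k ∧ finrank F W = k ∧ TI h U ∧ TI h W ∧
      U ⊓ W = ⊥ ∧ W ⊓ pp h U = ⊥ := by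
  induction k with
  | zero =>
    exact ⟨⊥, ⊥, finrank_bot F V, finrank_bot F V, ti_bot, ti_bot, inf_idem _, bot_inf_eq _⟩
  | succ k ih =>
    obtain ⟨U, W, dU, dW, tU, tW, hUW, hWU⟩ := ih (by omega)
    have hUW' : U ⊓ pp h W = ⊥ := by
      have h1 : pp h (U ⊔ pp h W) = pp h U ⊓ W := by rw [pp_sup, pp_pp hH]
      rw [inf_comm, hWU] at h1
      have h2 := finrank_pp hH (U ⊔ pp h W)
      rw [h1, finrank_bot, zero_add] at h2
      have h3 := Submodule.finrank_sup_add_finrank_inf_eq U (pp h W)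
      have h4 := finrank_pp hH W
      have h5 : finrank F (U ⊓ pp h W : Submodule F V) = 0 := by omega
      exact Submodule.finrank_eq_zero.mp h5
    have hX : (U ⊔ W) ⊓ pp h (U ⊔ W) = ⊥ := by
      rw [eq_bot_iff]
      rintro x ⟨hx1, hx2⟩
      obtain ⟨u, hu, w, hw, rfl⟩ := mem_sup.mp hx1
      have h1 : w ∈ W ⊓ pp h U := by
        refine ⟨hw, fun u' hu' => ?_⟩
        have h2 := hx2 u' (le_sup_left (a := U) hu')
        rw [map_add, tU u' hu' u hu, zero_add] at h2
        exact h2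
      have h3 : u ∈ U ⊓ pp h W := by
        refine ⟨hu, fun w' hw' => ?_⟩
        have h2 := hx2 w' (le_sup_right (a := U) hw')
        rw [map_add, tW w' hw' w hw, add_zero] at h2
        exact h2
      rw [hWU] at h1
      rw [hUW'] at h3
      exact Submodule.add_mem _ h3 h1
    have h1 := Submodule.finrank_sup_add_finrank_inf_eq U W
    have h2 := finrank_pp hH (U ⊔ W)
    rw [hUW, finrank_bot] at h1
    obtain ⟨a, ha, ha0, haa⟩ := exists_isotropic hH (S := pp h (U ⊔ W)) (by omega)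
    have haX : a ∉ U ⊔ W := by
      intro h
      apply ha0
      have h5 : a ∈ (U ⊔ W) ⊓ pp _ (U ⊔ W) := ⟨h, ha⟩
      rw [hX] at h5
      exact (Submodule.mem_bot F).mp h5
    obtain ⟨b, hb, hbb, hba⟩ := exists_iso_pp hH ha haX haa
    have hab : h a b ≠ 0 := by
      rw [swap hH, hba, map_one]
      exact one_ne_zero
    have hbX : b ∉ U ⊔ W := by
      intro h
      have h5 : b ∈ (U ⊔ W) ⊓ pp _ (U ⊔ W) := ⟨h, hb⟩
      rw [hX] at h5
      rw [(Submodule.mem_bot F).mp h5, map_zero] at hab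
      exact hab rfl
    have haU : a ∉ U := fun h => haX (le_sup_left (a := U) h)
    have hbW : b ∉ W := fun h => hbX (le_sup_right (a := U) h)
    have tU' : TI h (U ⊔ span F {a}) :=
      ti_sup_span hH tU haa (fun u hu => ha u (le_sup_left (a := U) hu))
    have tW' : TI h (W ⊔ span F {b}) :=
      ti_sup_span hH tW hbb (fun w hw => hb w (le_sup_right (a := U) hw))
    have key : (W ⊔ span F {b}) ⊓ pp h (U ⊔ span F {a}) = ⊥ := by
      rw [eq_bot_iff]
      rintro x ⟨hx1, hx2⟩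
      obtain ⟨w, hw, y, hy, rfl⟩ := mem_sup.mp hx1
      obtain ⟨c, rfl⟩ := mem_span_singleton.mp hy
      have h5 := hx2 a (le_sup_right (a := U) (mem_span_singleton_self a))
      have h6 : h a w = 0 := swap0 hH (ha w (le_sup_right (a := U) hw))
      rw [map_add, h6, map_smul, smul_eq_mul, zero_add] at h5
      have hc : c = 0 := (mul_eq_zero.mp h5).resolve_right hab
      rw [hc, zero_smul, add_zero] at hx2 ⊢
      have h7 : w ∈ W ⊓ pp h U := ⟨hw, fun u hu => hx2 u (le_sup_left (a := U) hu)⟩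
      rw [hWU] at h7
      exact h7
    refine ⟨U ⊔ span F {a}, W ⊔ span F {b}, ?_, ?_, tU', tW', ?_, key⟩
    · rw [finrank_sup_span_singleton haU, dU]
    · rw [finrank_sup_span_singleton hbW, dW]
    · rw [eq_bot_iff, ← key]
      exact le_inf inf_le_right (inf_le_left.trans (ti_iff.mp tU'))

end Pool.Agent.Helper20.UI
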