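import Pool.Agent.Helper20.UI.Tri
import Pool.Agent.Helper20.UI.GoodD
import Pool.Agent.Helper20.UI.CaseA
import Pool.Agent.Helper20.UI.CaseA1
import Pool.Agent.Helper20.UI.CaseA2
import Pool.Agent.Helper20.UI.CaseB
import Pool.Agent.Helper20.UI.B1
import Pool.Agent.Helper20.UI.Opp

/-!
# UI-17 Main: no proper semipartial geometry for `k ≥ 2`

Adapt `Pool/Agent/Helper20/SI/Main.lean`. `line_cases`: `D` of `exists_goodSub`; `caseA_dich`, `caseA_h2`, `caseA_h1`: alternative (1); otherwise `U ⊓ W = D` for all `U ≠ W`; `finrank D + 1 = k`: alternative (2); `finrank D + 2 ≤ k` is impossible by `caseB_no`.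
`no_spg`: collinear points are adjacent. If `2 k + 2 ≤ n`: `b1_lt` excludes (2), collinear points are orthogonal; `exists_opposite`. Otherwise `n ≤ 2 k + 1`, `n ≥ 6`, so `k ≥ 3`: the second argument (`2 (k - 1) ≤ k` is false).
-/

open Module Submodule Finset

set_option linter.unusedSectionVars false

namespace Pool.Agent.Helper20.UI

open Pool.Agent.Helper29.FT Pool.Agent.Helper29.FT2

variable {F V : Type*} [Field F] [AddCommGroup V] [Module F V] [FiniteDimensional F V]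
variable {σ : F →+* F} {h : V →ₛₗ[σ] V →ₗ[F] F}

variable [Finite F] [DecidableEq (Submodule F V)] {B : Finset (Finset (Submodule F V))}
  {k α s t μ : ℕ}

theorem Main_off {X : Type*} [DecidableEq X] {P : Finset X} {B : Finset (Finset X)}
    (hNL : NonLinear P B) {l : Finset X} (hl : l ∈ B) : ∃ x ∈ P, x ∉ l := by
  obtain ⟨x, hx, y, hy, hxy, hnc⟩ := hNL
  by_cases h : x ∈ l
  · refine ⟨y, hy, fun h' => hnc ⟨hxy, l, hl, h, h'⟩⟩
  · exact ⟨x, hx, h⟩

theorem Main_third {X : Type*} [DecidableEq X] {P : Finset X} {B : Finset (Finset X)} {α s t μ : ℕ}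
    (hS : IsSPG P B α s t μ) (hs : 2 ≤ s) {l : Finset X} (hl : l ∈ B)
    (a b : X) : ∃ c ∈ l, c ≠ a ∧ c ≠ b := by
  have h1 : 0 < #((l.erase a).erase b) := by
    have h2 := pred_card_le_card_erase (s := l) (a := a)
    have h3 := pred_card_le_card_erase (s := l.erase a) (a := b)
    have h4 := hS.line_card l hl
    omega
  obtain ⟨c, hc⟩ := card_pos.mp h1
  rw [mem_erase, mem_erase] at hc
  exact ⟨c, hc.2.2, hc.2.1, hc.1⟩

theorem line_cases (hH : Herm h) (hB : SUInvariant h B)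
    (hS : IsSPG (IsoGr h k) B α s t μ) (hNL : NonLinear (IsoGr h k) B) (hk2 : 2 ≤ k)
    (hn : 6 ≤ finrank F V) {l : Finset (Submodule F V)} (hl : l ∈ B) :
    (∃ D : Submodule F V, TI h D ∧ finrank F D = k + 1 ∧
      ∀ R : Submodule F V, R ∈ l ↔ R ≤ D ∧ finrank F R = k) ∨
    (∃ E : Submodule F V, finrank F E + 1 = k ∧ ∀ U ∈ l, ∀ W ∈ l, U ≠ W → U ⊓ W = E) := by
  have hs : 2 ≤ s := two_le_s hH hB hS hNL
  have hL : Cl h k l := cl_of_line hB hS hl
  have h3 : ∀ U W : Submodule F V, ∃ T ∈ l, T ≠ U ∧ T ≠ W := fun U W =>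
    Main_third hS hs hl U W
  obtain ⟨U₀, hU₀, -, -⟩ := h3 ⊥ ⊥
  obtain ⟨W₀, hW₀, hWU₀, -⟩ := h3 U₀ U₀
  have h2 : ∃ U ∈ l, ∃ W ∈ l, U ≠ W := ⟨U₀, hU₀, W₀, hW₀, hWU₀.symm⟩
  obtain ⟨R, hR, hRl⟩ := Main_off hNL hl
  have hR' := mem_IsoGr.mp hR
  obtain ⟨D, hTI, hD⟩ := exists_goodSub hH (by omega) hL h2 ⟨R, hR'.1, hR'.2, hRl⟩
  by_cases hex : ∃ T ∈ l, ¬ D ≤ T
  · rcases caseA_dich hk2 hH hL hD hTI hex with ⟨h4, h5⟩ | ⟨h4, h5⟩
    · obtain ⟨h6, h7⟩ := caseA_h1 (by omega) hH hL hD hTI h4 h5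
      exact Or.inl ⟨D, hTI, h6, h7⟩
    · exact (caseA_h2 hk2 hH hL hD hTI h4 h5).elim
  · push Not at hex
    have hE : ∀ U ∈ l, ∀ W ∈ l, U ≠ W → U ⊓ W = D := by
      intro U hU W hW hUW
      apply le_antisymm
      · intro v hv
        rw [hD]
        exact ⟨U, hU, W, hW, hUW, hv.1, hv.2⟩
      · exact le_inf (hex U hU) (hex W hW)
    have hdU₀ := hL.dim U₀ hU₀
    have hdW₀ := hL.dim W₀ hW₀
    have hlt : finrank F D < k := by
      have h4 : finrank F D ≤ finrank F U₀ := Submodule.finrank_mono (hex U₀ hU₀)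
      rcases h4.lt_or_eq with h5 | h5
      · omega
      · exfalso
        have h6 : D = U₀ := Submodule.eq_of_le_of_finrank_eq (hex U₀ hU₀) h5
        have h7 : D = W₀ := Submodule.eq_of_le_of_finrank_eq (hex W₀ hW₀) (by omega)
        exact hWU₀ (h7.symm.trans h6)
    by_cases h1 : finrank F D + 1 = k
    · exact Or.inr ⟨D, h1, hE⟩
    · exact (caseB_no hH hL h3 hE (by omega)).elim

theorem no_spg (hH : Herm h) (hB : SUInvariant h B)
    (hS : IsSPG (IsoGr h k) B α s t μ) (hNL : NonLinear (IsoGr h k) B) (hk2 : 2 ≤ k)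
    (hn : 6 ≤ finrank F V) : False := by
  have hs : 2 ≤ s := two_le_s hH hB hS hNL
  have hadj : ∀ U W, Coll B U W → finrank F (U ⊓ W : Submodule F V) + 1 = k := by
    rintro U W ⟨hUW, l, hl, hU, hW⟩
    rcases line_cases hH hB hS hNL hk2 hn hl with ⟨D, -, hD, hDl⟩ | ⟨E, hE, hEl⟩
    · have hU' := (hDl U).mp hU
      have hW' := (hDl W).mp hW
      have h1 := Submodule.finrank_sup_add_finrank_inf_eq U W
      have h2 : finrank F (U ⊔ W : Submodule F V) ≤ finrank F D :=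
        Submodule.finrank_mono (sup_le hU'.1 hW'.1)
      have h3 : finrank F U < finrank F (U ⊔ W : Submodule F V) := by
        apply Submodule.finrank_lt_finrank_of_lt
        refine lt_of_le_of_ne le_sup_left (fun h => ?_)
        have h4 : W ≤ U := by
          rw [h]
          exact le_sup_right
        exact hUW (Submodule.eq_of_le_of_finrank_eq h4 (by rw [hU'.2, hW'.2])).symm
      have h4 := hU'.2
      have h5 := hW'.2
      omega
    · rw [hEl U hU W hW hUW]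
      exact hE
  obtain ⟨a, ha, -⟩ := id hNL
  have ha' := mem_IsoGr.mp ha
  have h2k : 2 * k ≤ finrank F V := by
    have := TI.le hH ha'.2
    rwa [ha'.1] at this
  obtain ⟨U, W, hU, hW, tU, tW, hUW, hWU⟩ := exists_opposite (h := h) hH h2k
  have hne : U ≠ W := by
    rintro rfl
    rw [inf_idem] at hUW
    rw [hUW, finrank_bot] at hU
    omega
  have hnc : ¬ Coll B U W := by
    intro h
    have h1 := hadj U W h
    rw [hUW, finrank_bot] at h1
    omega
  obtain ⟨C, hC, hUC, hWC⟩ := hS.exists_common (mem_IsoGr.mpr ⟨hU, tU⟩)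
    (mem_IsoGr.mpr ⟨hW, tW⟩) hne hnc
  have hdUC := hadj U C hUC
  have hdWC := hadj W C hWC
  by_cases hkn : 2 * k + 2 ≤ finrank F V
  · have horth : C ≤ pp h U := by
      obtain ⟨-, l, hl, hUl, hCl⟩ := hUC
      rcases line_cases hH hB hS hNL hk2 hn hl with ⟨D, hDT, hD, hDl⟩ | ⟨E, hE, hEl⟩
      · have hU' := (hDl U).mp hUl
        have hC' := (hDl C).mp hCl
        intro c hc u hu
        exact hDT u (hU'.1 hu) c (hC'.1 hc)
      · exact (b1_lt hH hB hS hNL hs hk2 hkn hadj hl hE hEl).elim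
    have h1 : W ⊓ C ≤ W ⊓ pp h U := inf_le_inf_left W horth
    have h2 := Submodule.finrank_mono h1
    rw [hWU, finrank_bot] at h2
    omega
  · have h1 := Submodule.finrank_sup_add_finrank_inf_eq (U ⊓ C) (W ⊓ C)
    have h2 : (U ⊓ C) ⊓ (W ⊓ C) = ⊥ := by
      rw [eq_bot_iff, ← hUW]
      exact inf_le_inf inf_le_left inf_le_left
    have h3 : finrank F ((U ⊓ C) ⊔ (W ⊓ C) : Submodule F V) ≤ finrank F C :=
      Submodule.finrank_mono (sup_le inf_le_right inf_le_right)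
    rw [h2, finrank_bot] at h1
    have h4 := (mem_IsoGr.mp hC).1
    omega

end Pool.Agent.Helper20.UI
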