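import Pool.Agent.Helper20.UI.Tri

/-!
# UI-18 One: the case `k = 1`: no proper semipartial geometry

(Compare `Pool/Agent/Helper20/SI/One.lean`.) Points: `span {a}`, `a ≠ 0` isotropic; for different points `U`, `W`: `U ⊓ W = ⊥`, `Adj h 1 U W`. `2 ≤ s` (`two_le_s`).
(1) No orthogonal pair of different points is collinear. Otherwise all are (`coll_perp`); let `l ∈ B` contain orthogonal `T ≠ T'`, `X = T ⊔ T'` totally isotropic, `finrank X = 2`. If some `A ∈ l` is not `≤ X`: (K') `exists_iso_pp_of_not_le`: isotropic `v ∈ pp X`, `x ∈ A`,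
`h v x = 1`; `c ≠ 0` of `exists_c0`; `A' = A.map su ∈ l` (`Cl.su`, centre `v`), `x ∈ A`, `x + c • v ∈ A'` are not orthogonal, so `A, A'` are collinear and not orthogonal, so (`coll_opp`) all pairs of different points are collinear: contradicts `NonLinear`. So all
elements of `l` are `≤ X`. `exists_isotropic_off` for `X ≤ pp X` (`finrank (pp X) = n - 2 ≥ 4`): isotropic `z ∈ pp X`, `z ∉ X`: `span {z}` is orthogonal to and different from all elements of `l`: contradicts `max_clique`.
(2) So collinear points are not orthogonal, and all pairs of non-orthogonal points are collinear (`coll_opp`; a collinear pair exists).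
(3) Let `l ∈ B`, `span {a} ≠ span {b}` in `l`, scaled `h a b = 1`, `H = span {a} ⊔ span {b}`. Every element of `l` is `≤ H`: suppose `span {c} ∈ l`, `c ∉ H`. `c = p + w`, `p ∈ H`, `w ∈ pp H`, `w ≠ 0` (`p = (h b c) • a + (h a c) • b`: `h a p = h a c`, `h b p = h b c`).
`S = pp H ⊓ ker (h w)` has dimension `≥ n - 3 ≥ 3`, `E = S ⊓ span {w}` dimension `≤ 1`: `exists_isotropic_off`: isotropic `y ∈ S`, `y ∉ span {w}`. `w ∉ H ⊔ span {y}` (otherwise `w - d y ∈ H ⊓ pp H = ⊥`, `d ≠ 0`): `exists_pp`: `v ∈ pp (H ⊔ span {y})`, `h v w = 1`; Siegel element with centre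
`y`, `-v`, `μ` of `exists_sd`: fixes `a`, `b` (`sg_eq`), maps `c` to `c + h v c • y = c + y` (`h y c = h y w = 0`, `h v c = h v w = 1`). It preserves `l` (`Cl.cl`), so `span {c + y} ∈ l`; it is different from `span {c}` (`y = d c` gives `d p = y - d w ∈ H ⊓ pp H = ⊥`, `y = d w`) and orthogonal to it:
`h c (c + y) = h c y = h w y = 0`. Contradiction to (1).
(4) Choose an isotropic `c ∉ H`, not orthogonal to any point of `H`: `p₀ = a + t • b` with `t + σ t = 1` (`exists_trace`): `h p₀ p₀ = 1`. `pp H` contains a vector `w₀` with `h w₀ w₀ ≠ 0` (otherwise `h` vanishes on `pp H`: for `x, y ∈ pp H`, `h x y = r ≠ 0`: `0 = h (x + d • y) (x + d • y) = d * r + σ (d * r)` for all `d`,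
contradiction to `exists_trace` for `r = 1`; but `pp H ⊓ pp (pp H) = pp H ⊓ H = ⊥` and `pp H ≠ ⊥`), scaled by `exists_norm` to `h w₀ w₀ = -1` (`-1 / h w₀ w₀` is fixed by `σ`). `c = p₀ + w₀`: isotropic, `∉ H`. If a point `span {p} ≤ H` (isotropic) is orthogonal to `c`: `h p₀ p = 0`, `h p p = 0`; `p` and `p₀`
span `H` (`h p₀ p₀ ≠ 0`), so `p ∈ H ⊓ pp H = ⊥`, contradiction. So `span {c}` is collinear with all elements of `l` (which are `≤ H`) by (2): contradicts `max_clique`.
-/

open Module Submodule Finset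

set_option linter.unusedSectionVars false

namespace Pool.Agent.Helper20.UI

open Pool.Agent.Helper29.FT Pool.Agent.Helper29.FT2

variable {F V : Type*} [Field F] [AddCommGroup V] [Module F V] [FiniteDimensional F V]
variable {σ : F →+* F} {h : V →ₛₗ[σ] V →ₗ[F] F}

variable [Finite F] [DecidableEq (Submodule F V)] {B : Finset (Finset (Submodule F V))}
  {k α s t μ : ℕ}

theorem one_pt {U : Submodule F V} (hU : finrank F U = 1) : ∃ v : V, v ≠ 0 ∧ U = span F {v} := by
  have h1 : U ≠ ⊥ := by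
    rintro rfl
    rw [finrank_bot] at hU
    exact absurd hU (by norm_num)
  obtain ⟨v, hv, hv0⟩ := U.ne_bot_iff.mp h1
  refine ⟨v, hv0, ?_⟩
  symm
  apply Submodule.eq_of_le_of_finrank_eq
  · rw [span_singleton_le_iff_mem]
    exact hv
  · rw [finrank_span_singleton hv0, hU]

theorem one_inf {U W : Submodule F V} (hU : finrank F U = 1) (hW : finrank F W = 1)
    (hne : U ≠ W) : finrank F (U ⊓ W : Submodule F V) = 0 := by
  have h1 : finrank F (U ⊓ W : Submodule F V) ≤ 1 := by
    rw [← hU]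
    exact Submodule.finrank_mono inf_le_left
  by_contra h0
  have h2 : finrank F (U ⊓ W : Submodule F V) = 1 := by omega
  have h3 : U ⊓ W = U := Submodule.eq_of_le_of_finrank_eq inf_le_left (by rw [h2, hU])
  have h4 : U ⊓ W = W := Submodule.eq_of_le_of_finrank_eq inf_le_right (by rw [h2, hW])
  exact hne (h3.symm.trans h4)

theorem one_sup {U W : Submodule F V} (hU : finrank F U = 1) (hW : finrank F W = 1)
    (hne : U ≠ W) : finrank F (U ⊔ W : Submodule F V) = 2 := by
  have h1 := Submodule.finrank_sup_add_finrank_inf_eq U W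
  rw [one_inf hU hW hne, hU, hW] at h1
  omega

theorem one_adj {U W : Submodule F V} (hU : finrank F U = 1) (hW : finrank F W = 1)
    (tU : TI h U) (tW : TI h W) (hne : U ≠ W) : Adj h 1 U W :=
  ⟨hU, hW, tU, tW, by rw [one_inf hU hW hne]⟩

theorem one_ne {U W : Submodule F V} (tU : TI h U) (hp : ¬ U ≤ pp h W) : U ≠ W := by
  rintro rfl
  exact hp (ti_iff.mp tU)

theorem one_span_le {a b : V} : span F {a} ≤ pp h (span F {b}) ↔ h b a = 0 := by
  rw [span_singleton_le_iff_mem, mem_pp_span]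

/-- (1) -/
theorem one_orth (hH : Herm h) (hB : SUInvariant h B)
    (hS : IsSPG (IsoGr h 1) B α s t μ) (hNL : NonLinear (IsoGr h 1) B)
    (hn : 6 ≤ finrank F V) {U W : Submodule F V} (hc : Coll B U W) : ¬ U ≤ pp h W := by
  intro hp
  obtain ⟨hU, tU⟩ := mem_IsoGr.mp (coll_mem hS hc).1
  obtain ⟨hW, tW⟩ := mem_IsoGr.mp (coll_mem hS hc).2
  have hperp : ∀ U' W' : Submodule F V, finrank F U' = 1 → finrank F W' = 1 → TI h U' →
      TI h W' → U' ≠ W' → U' ≤ pp h W' → Coll B U' W' := fun U' W' h1 h2 t1 t2 h3 h4 =>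
    coll_perp hH hB hc (one_adj hU hW tU tW hc.1) hp (one_adj h1 h2 t1 t2 h3) h4
  obtain ⟨hne, l, hl, hUl, hWl⟩ := hc
  have hcl := cl_of_line hB hS hl
  have hXt : TI h (U ⊔ W) := ti_sup hH tU tW hp
  by_cases hall : ∀ A ∈ l, A ≤ U ⊔ W
  · have h2 := finrank_pp hH (U ⊔ W)
    have h3 := one_sup hU hW hne
    obtain ⟨z, hz, hzX, hzz⟩ := exists_isotropic_off hH (S := pp h (U ⊔ W)) (E := U ⊔ W)
      (ti_iff.mp hXt) (by omega)
    have hz0 : z ≠ 0 := by
      rintro rfl
      exact hzX (zero_mem _)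
    have hzf : finrank F (span F {z}) = 1 := finrank_span_singleton hz0
    have hzl : span F {z} ∉ l := fun h1 => hzX (hall _ h1 (mem_span_singleton_self z))
    obtain ⟨b, hb, hnb⟩ := SI.max_clique hS hNL hl (a := span F {z})
      (mem_IsoGr.mpr ⟨hzf, ti_span hzz⟩) hzl
    apply hnb
    apply hperp _ _ hzf (hcl.dim b hb) (ti_span hzz) (hcl.ti b hb)
    · rintro rfl
      exact hzl hb
    · rw [span_singleton_le_iff_mem]
      exact pp_anti (hall b hb) hz
  · push Not at hall
    obtain ⟨A, hAl, hAX⟩ := hall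
    obtain ⟨v, hv, hvv, x, hx, hvx⟩ := exists_iso_pp_of_not_le hH hXt (hcl.ti A hAl) hAX
    obtain ⟨c, hc0, hc⟩ := exists_c0 hH
    have hA' := hcl.su hH hvv hc hUl hWl hne (pp_anti le_sup_left hv) (pp_anti le_sup_right hv)
      hAl
    have hno : ¬ A ≤ pp h (A.map (su hH hvv hc : V →ₗ[F] V)) := by
      intro h0
      have h1 := h0 hx (su hH hvv hc x) (Submodule.mem_map_of_mem hx)
      rw [su_apply, hvx, mul_one, map_add, LinearMap.add_apply, hcl.ti A hAl x hx x hx,
        smul_left, hvx, mul_one, zero_add] at h1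
      exact hc0 (sig0 hH h1)
    have tA := hcl.ti A hAl
    have tA' := hcl.ti _ hA'
    have hneA := one_ne tA hno
    have hcA : Coll B A (A.map (su hH hvv hc : V →ₗ[F] V)) := ⟨hneA, l, hl, hAl, hA'⟩
    obtain ⟨a, ha, b, hb, hab, hnc⟩ := hNL
    apply hnc
    obtain ⟨ha1, ta⟩ := mem_IsoGr.mp ha
    obtain ⟨hb1, tb⟩ := mem_IsoGr.mp hb
    by_cases hpab : a ≤ pp h b
    · exact hperp a b ha1 hb1 ta tb hab hpab
    · exact coll_opp hH hB hcA (one_adj (hcl.dim A hAl) (hcl.dim _ hA') tA tA' hneA) hno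
        (one_adj ha1 hb1 ta tb hab) hpab

/-- (2) -/
theorem one_coll (hH : Herm h) (hB : SUInvariant h B)
    (hS : IsSPG (IsoGr h 1) B α s t μ) (hNL : NonLinear (IsoGr h 1) B)
    (hn : 6 ≤ finrank F V) {U W : Submodule F V} (hU : finrank F U = 1) (hW : finrank F W = 1)
    (tU : TI h U) (tW : TI h W) (hp : ¬ U ≤ pp h W) : Coll B U W := by
  have hs := two_le_s hH hB hS hNL
  have hNL' := hNL
  obtain ⟨a, ha, -⟩ := hNL'
  obtain ⟨l, hl, hal⟩ := hS.exists_line ha
  obtain ⟨c, hc, hca, -⟩ := SI.exists_third hS hs hl a a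
  have hcl := cl_of_line hB hS hl
  have h1 : Coll B a c := ⟨hca.symm, l, hl, hal, hc⟩
  exact coll_opp hH hB h1 (one_adj (hcl.dim a hal) (hcl.dim c hc) (hcl.ti a hal)
    (hcl.ti c hc) hca.symm) (one_orth hH hB hS hNL hn h1)
    (one_adj hU hW tU tW (one_ne tU hp)) hp

theorem one_mpp {a b x : V} :
    x ∈ pp h (span F {a} ⊔ span F {b}) ↔ h a x = 0 ∧ h b x = 0 := by
  rw [pp_sup, Submodule.mem_inf, mem_pp_span, mem_pp_span]

theorem one_hyp (hH : Herm h) {a b : V} (haa : h a a = 0) (hbb : h b b = 0) (hab : h a b = 1) :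
    ∀ x ∈ span F {a} ⊔ span F {b}, x ∈ pp h (span F {a} ⊔ span F {b}) → x = 0 := by
  have hba : h b a = 1 := by rw [swap hH, hab, map_one]
  intro x hx hx'
  obtain ⟨y, hy, z, hz, rfl⟩ := mem_sup.mp hx
  obtain ⟨p, rfl⟩ := mem_span_singleton.mp hy
  obtain ⟨q, rfl⟩ := mem_span_singleton.mp hz
  obtain ⟨h1, h2⟩ := one_mpp.mp hx'
  rw [map_add, smul_right', smul_right', haa, hab] at h1
  rw [map_add, smul_right', smul_right', hba, hbb] at h2
  simp only [mul_zero, zero_add, mul_one, add_zero] at h1 h2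
  rw [h1, h2, zero_smul, zero_smul, add_zero]

/-- (3) -/
theorem one_line (hH : Herm h) (hB : SUInvariant h B)
    (hS : IsSPG (IsoGr h 1) B α s t μ) (hNL : NonLinear (IsoGr h 1) B)
    (hn : 6 ≤ finrank F V) {l : Finset (Submodule F V)} (hl : l ∈ B) :
    ∃ a b : V, h a a = 0 ∧ h b b = 0 ∧ h a b = 1 ∧
      ∀ C ∈ l, C ≤ span F {a} ⊔ span F {b} := by
  have hs := two_le_s hH hB hS hNL
  have hcl := cl_of_line hB hS hl
  have hne : 0 < #l := by
    rw [hS.line_card l hl]
    omega
  obtain ⟨A, hAl⟩ := card_pos.mp hne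
  obtain ⟨A', hAl', hAA, -⟩ := SI.exists_third hS hs hl A A
  obtain ⟨a, ha0, rfl⟩ := one_pt (hcl.dim A hAl)
  obtain ⟨b', hb0, rfl⟩ := one_pt (hcl.dim A' hAl')
  have hab' : h a b' ≠ 0 := by
    intro h0
    exact one_orth hH hB hS hNL hn ⟨hAA, l, hl, hAl', hAl⟩ (one_span_le.mpr h0)
  obtain ⟨b, hbdef⟩ : ∃ b : V, b = (h a b')⁻¹ • b' := ⟨_, rfl⟩
  have hspan : span F {b} = span F {b'} := by
    rw [hbdef]
    exact span_singleton_smul_eq (isUnit_iff_ne_zero.mpr (inv_ne_zero hab')) b'
  rw [← hspan] at hAl' hAA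
  have haa : h a a = 0 :=
    hcl.ti _ hAl a (mem_span_singleton_self a) a (mem_span_singleton_self a)
  have hbb : h b b = 0 :=
    hcl.ti _ hAl' b (mem_span_singleton_self b) b (mem_span_singleton_self b)
  have hab : h a b = 1 := by
    rw [hbdef, smul_right', inv_mul_cancel₀ hab']
  have hba : h b a = 1 := by rw [swap hH, hab, map_one]
  have hH2 := one_sup (hcl.dim _ hAl) (hcl.dim _ hAl') hAA.symm
  have hHpp := one_hyp hH haa hbb hab
  refine ⟨a, b, haa, hbb, hab, ?_⟩
  intro C hC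
  obtain ⟨c, hc0, rfl⟩ := one_pt (hcl.dim C hC)
  have hcc : h c c = 0 :=
    hcl.ti _ hC c (mem_span_singleton_self c) c (mem_span_singleton_self c)
  rw [span_singleton_le_iff_mem]
  by_contra hcH
  obtain ⟨p, hp⟩ : ∃ p : V, p = (h b c) • a + (h a c) • b := ⟨_, rfl⟩
  obtain ⟨w, hw⟩ : ∃ w : V, w = c - p := ⟨_, rfl⟩
  have hcw : c = p + w := by rw [hw]; abel
  have hpH : p ∈ span F {a} ⊔ span F {b} := by
    rw [hp]
    exact add_mem (mem_sup_left (smul_mem _ _ (mem_span_singleton_self a)))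
      (mem_sup_right (smul_mem _ _ (mem_span_singleton_self b)))
  have hwpp : w ∈ pp h (span F {a} ⊔ span F {b}) := by
    rw [one_mpp, hw, hp]
    constructor
    · rw [map_sub, map_add, smul_right', smul_right', haa, hab]
      ring
    · rw [map_sub, map_add, smul_right', smul_right', hba, hbb]
      ring
  have hw0 : w ≠ 0 := by
    rintro h0
    rw [h0, add_zero] at hcw
    rw [hcw] at hcH
    exact hcH hpH
  have hfp := finrank_pp hH (span F {a} ⊔ span F {b})
  have hfk := finrank_inf_ker_ge (pp h (span F {a} ⊔ span F {b})) (h w)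
  have hfE : finrank F ((pp h (span F {a} ⊔ span F {b}) ⊓ LinearMap.ker (h w)) ⊓ span F {w} :
      Submodule F V) ≤ 1 := by
    rw [← finrank_span_singleton (K := F) hw0]
    exact Submodule.finrank_mono inf_le_right
  obtain ⟨y, hy, hyE, hyy⟩ := exists_isotropic_off hH
    (S := pp h (span F {a} ⊔ span F {b}) ⊓ LinearMap.ker (h w))
    (E := (pp h (span F {a} ⊔ span F {b}) ⊓ LinearMap.ker (h w)) ⊓ span F {w})
    inf_le_left (by omega)
  have hyw : y ∉ span F {w} := fun h0 => hyE ⟨hy, h0⟩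
  have hypp : y ∈ pp h (span F {a} ⊔ span F {b}) := hy.1
  have hwy : h w y = 0 := LinearMap.mem_ker.mp hy.2
  have hnw : w ∉ span F {a} ⊔ span F {b} ⊔ span F {y} := by
    intro hmem
    obtain ⟨h', hh', z, hz, hsum⟩ := mem_sup.mp hmem
    obtain ⟨d, rfl⟩ := mem_span_singleton.mp hz
    have h1 : h' = 0 := by
      apply hHpp h' hh'
      have h2 : h' = w - d • y := by rw [← hsum]; abel
      rw [h2]
      exact sub_mem hwpp (smul_mem _ _ hypp)
    rw [h1, zero_add] at hsum
    have hd : d ≠ 0 := by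
      rintro rfl
      rw [zero_smul] at hsum
      exact hw0 hsum.symm
    apply hyw
    rw [mem_span_singleton]
    exact ⟨d⁻¹, by rw [← hsum, smul_smul, inv_mul_cancel₀ hd, one_smul]⟩
  obtain ⟨v, hv, hvw⟩ := exists_pp hH hnw
  have hvH : v ∈ pp h (span F {a} ⊔ span F {b}) := pp_anti le_sup_left hv
  have hyv : h y v = 0 := mem_pp_span.mp (pp_anti le_sup_right hv)
  have hvp : h v p = 0 := (mem_pp' hH).mp hvH p hpH
  have hyp : h y p = 0 := (mem_pp' hH).mp hypp p hpH
  have hvc : h v c = 1 := by rw [hcw, map_add, hvp, hvw, zero_add]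
  have hyc : h y c = 0 := by rw [hcw, map_add, hyp, swap0 hH hwy, zero_add]
  obtain ⟨ν, hd⟩ := exists_sd hH (a := y) (w := -v) hyy (by rw [map_neg, hyv, neg_zero])
  have hgc : sg hd c = c + y := by
    rw [sg_apply, hyc, map_neg, LinearMap.neg_apply, hvc, zero_smul, add_zero, mul_zero,
      zero_smul, add_zero, neg_smul, one_smul, sub_neg_eq_add]
  have hvH' : -v ∈ pp h (span F {a} ⊔ span F {b}) := (pp h _).neg_mem hvH
  have hgl := hcl.cl (sg hd) (iso_sg hd) _ hAl _ hAl' hAA.symm
    (sg_fix_pp hd (pp_anti le_sup_left hypp) (pp_anti le_sup_left hvH'))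
    (sg_fix_pp hd (pp_anti le_sup_right hypp) (pp_anti le_sup_right hvH')) _ hC
  have hmapC : (span F {c}).map (sg hd : V →ₗ[F] V) = span F {c + y} := by
    rw [Submodule.map_span, Set.image_singleton]
    change span F {sg hd c} = _
    rw [hgc]
  rw [hmapC] at hgl
  have hne' : span F {c} ≠ span F {c + y} := by
    intro heq
    have h1 : c + y ∈ span F {c} := by
      rw [heq]
      exact mem_span_singleton_self _
    have h2 : y ∈ span F {c} := by
      have := sub_mem h1 (mem_span_singleton_self c)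
      rwa [add_sub_cancel_left] at this
    obtain ⟨d, hd⟩ := mem_span_singleton.mp h2
    have h3 : d • p = 0 := by
      apply hHpp _ (smul_mem _ _ hpH)
      have h4 : d • p = y - d • w := by
        rw [← hd, hcw, smul_add]
        abel
      rw [h4]
      exact sub_mem hypp (smul_mem _ _ hwpp)
    apply hyw
    rw [mem_span_singleton]
    refine ⟨d, ?_⟩
    rw [← hd]
    conv_rhs => rw [hcw, smul_add, h3, zero_add]
  exact one_orth hH hB hS hNL hn ⟨hne', l, hl, hC, hgl⟩
    (one_span_le.mpr (by rw [map_add, LinearMap.add_apply, hcc, hyc, add_zero]))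

/-- (4) a nonisotropic vector in the complement, scaled -/
theorem one_w (hH : Herm h) (hn : 6 ≤ finrank F V) {H : Submodule F V} (hd : finrank F H ≤ 2) :
    ∃ w ∈ pp h H, h w w = -1 := by
  have h1 : ∃ w ∈ pp h H, h w w ≠ 0 := by
    by_contra hcon
    push Not at hcon
    have hti : TI h (pp h H) := by
      intro x hx y hy
      by_contra hr
      obtain ⟨t, ht⟩ := exists_trace hH (r := 1) (map_one σ)
      have h2 := hcon (x + (t * (h x y)⁻¹) • y)
        ((pp h H).add_mem hx ((pp h H).smul_mem _ hy))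
      simp only [map_add, LinearMap.add_apply, smul_left, smul_right', hcon x hx, hcon y hy,
        mul_zero, add_zero, zero_add] at h2
      rw [swap hH y x, ← map_mul, mul_assoc, inv_mul_cancel₀ hr, mul_one, add_comm, ht] at h2
      exact one_ne_zero h2
    have h3 := hti.le hH
    have h4 := finrank_pp hH H
    omega
  obtain ⟨w, hw, hww⟩ := h1
  obtain ⟨z, hz⟩ := exists_norm hH (r := -1 / h w w) (by
    rw [map_div₀, map_neg, map_one, self_fix hH])
  refine ⟨z • w, (pp h H).smul_mem _ hw, ?_⟩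
  rw [smul_left, smul_right', ← mul_assoc, mul_comm (σ z) z, hz]
  field_simp

theorem no_spg_one (hH : Herm h) (hB : SUInvariant h B)
    (hS : IsSPG (IsoGr h 1) B α s t μ) (hNL : NonLinear (IsoGr h 1) B)
    (hn : 6 ≤ finrank F V) : False := by
  have hNL' := hNL
  obtain ⟨P, hP, -⟩ := hNL'
  obtain ⟨l, hl, -⟩ := hS.exists_line hP
  have hcl := cl_of_line hB hS hl
  obtain ⟨a, b, haa, hbb, hab, hsub⟩ := one_line hH hB hS hNL hn hl
  have hba : h b a = 1 := by rw [swap hH, hab, map_one]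
  have hHpp := one_hyp hH haa hbb hab
  have hd2 : finrank F (span F {a} ⊔ span F {b} : Submodule F V) ≤ 2 := by
    have h1 := Submodule.finrank_add_le_finrank_add_finrank (span F {a}) (span F {b})
    have h2 : finrank F (span F {a}) ≤ 1 := by
      have := finrank_span_le_card (R := F) ({a} : Set V)
      simpa using this
    have h3 : finrank F (span F {b}) ≤ 1 := by
      have := finrank_span_le_card (R := F) ({b} : Set V)
      simpa using this
    omega
  obtain ⟨w, hw, hww⟩ := one_w hH hn hd2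
  obtain ⟨u, hu⟩ := exists_trace hH (r := 1) (map_one σ)
  obtain ⟨haw, hbw⟩ := one_mpp.mp hw
  have hwa := swap0 hH haw
  have hwb := swap0 hH hbw
  obtain ⟨c, hc⟩ : ∃ c : V, c = a + u • b + w := ⟨_, rfl⟩
  have hac : h a c = u := by
    rw [hc, map_add, map_add, smul_right', haa, hab, haw]
    ring
  have hbc : h b c = 1 := by
    rw [hc, map_add, map_add, smul_right', hba, hbb, hbw]
    ring
  have hwc : h w c = -1 := by
    rw [hc, map_add, map_add, smul_right', hwa, hwb, hww]
    ring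
  have hcc : h c c = 0 := by
    have h1 : h (a + u • b + w) c = h a c + σ u * h b c + h w c := by
      rw [map_add, map_add, LinearMap.add_apply, LinearMap.add_apply, smul_left]
    rw [← hc] at h1
    rw [h1, hac, hbc, hwc, mul_one, hu]
    ring
  have hc0 : c ≠ 0 := by
    intro h0
    rw [h0, map_zero] at hbc
    exact zero_ne_one hbc
  have hcH : c ∉ span F {a} ⊔ span F {b} := by
    intro h0
    have h1 : w ∈ span F {a} ⊔ span F {b} := by
      have h2 : w = c - (a + u • b) := by rw [hc]; abel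
      rw [h2]
      exact sub_mem h0 (add_mem (mem_sup_left (mem_span_singleton_self a))
        (mem_sup_right (smul_mem _ _ (mem_span_singleton_self b))))
    have h3 := hHpp w h1 hw
    rw [h3, map_zero] at hww
    exact (neg_ne_zero.mpr one_ne_zero) hww.symm
  have hcf : finrank F (span F {c}) = 1 := finrank_span_singleton hc0
  have hcnl : span F {c} ∉ l := fun h0 => hcH (hsub _ h0 (mem_span_singleton_self c))
  obtain ⟨Q, hQ, hnQ⟩ := SI.max_clique hS hNL hl (a := span F {c})
    (mem_IsoGr.mpr ⟨hcf, ti_span hcc⟩) hcnl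
  apply hnQ
  apply one_coll hH hB hS hNL hn hcf (hcl.dim Q hQ) (ti_span hcc) (hcl.ti Q hQ)
  intro hpp
  have hQ1 := hcl.dim Q hQ
  have hQt := hcl.ti Q hQ
  have hQs := hsub Q hQ
  obtain ⟨q, hq0, rfl⟩ := one_pt hQ1
  rw [one_span_le] at hpp
  have hqq : h q q = 0 := hQt q (mem_span_singleton_self q) q (mem_span_singleton_self q)
  rw [span_singleton_le_iff_mem] at hQs
  obtain ⟨y, hy, z, hz, hsum⟩ := mem_sup.mp hQs
  obtain ⟨x₁, rfl⟩ := mem_span_singleton.mp hy
  obtain ⟨x₂, rfl⟩ := mem_span_singleton.mp hz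
  rw [← hsum, map_add, LinearMap.add_apply, smul_left, smul_left, hac, hbc, mul_one] at hpp
  rw [← hsum] at hqq
  simp only [map_add, LinearMap.add_apply, smul_left, smul_right', haa, hab, hba, hbb,
    mul_zero, mul_one, add_zero, zero_add] at hqq
  -- `x₂ = - x₁ * σ u`
  have h2 : x₂ = - (x₁ * σ u) := by
    have h3 := congrArg σ hpp
    rw [map_add, map_mul, hH.inv, hH.inv, map_zero] at h3
    linear_combination h3
  have h4 : σ x₂ = - (σ x₁ * u) := by linear_combination hpp
  rw [h4, h2] at hqq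
  have h5 : x₁ * σ x₁ = 0 := by
    have h6 : x₁ * σ x₁ * (u + σ u) = 0 := by linear_combination -hqq
    rwa [hu, mul_one] at h6
  have h7 : x₁ = 0 := by
    rcases mul_eq_zero.mp h5 with h8 | h8
    · exact h8
    · exact sig0 hH h8
  apply hq0
  rw [← hsum, h2, h7]
  simp

end Pool.Agent.Helper20.UI
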