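import Pool.Agent.Helper20.UI.Reach

/-!
# UI-05 Orb: orbits of the special unitary group on pairs

`trans_ti`: `reach` with `S = ⊤`, `P T := ∃ g, Iso h g ∧ U.map g = T` (`iso_sg`, `Iso.mul`, `map_mul'`). `lift_tv`: `exists_vec` for `-f`: `h w x = - f x`; `h v w = σ (h w v) = 0`; `exists_sd`;
`sg x = x + h v x • w - h w x • v + .. = x + f x • v` for `x ∈ X` (`h v x = 0`). `move_hyp`: choose `v ∈ A`, `v ∉ T`, `v ∉ R` (`a₁ ∈ A \ T`, `a₂ ∈ A \ R`: one of `a₁, a₂, a₁ + a₂` works);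
`T ⊔ span {v} = X` by dimension, so `FT2.exists_tv` gives `f`, `f v = 0`, `T.map (tv f v _) = R`; `lift_tv` agrees with `tv f v` on `X`, so maps `T` to `R`, `A` to `A` (`x ↦ x + f x • v`, `v ∈ A`;
`map_eq_of_le`). `trans_perp`: `X = U ⊔ W`, `X' = U' ⊔ W'` are totally isotropic (`ti_sup`) of dimension `k + 1`; `trans_ti` maps `X` to `X'`; then `move_hyp` with `A = X'` maps the image of `U` to `U'`, then
`move_hyp` with `A = U'` maps the image of `W` to `W'` and fixes `U'` (`¬ U' ≤` image of `W`, as they are different of equal dimension).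
`trans_opp`: `trans_ti` maps `U` to `U'`; `move_hyp` with `X = A = U'` maps the image of `U ⊓ W` (a hyperplane) to `U' ⊓ W'` (if they are equal nothing is needed; `move_hyp` covers it). So we may assume
`U = U'` and `U ⊓ W = U ⊓ W' = E`. Take `a ∈ U`, `b ∈ W` with `h a b ≠ 0`, scaled to `1` (`¬ U ≤ pp W`); `a ∉ E`, `U = E ⊔ span {a}`, `W = E ⊔ span {b}`. `a ∉ pp W'`: otherwise `U = E ⊔ span {a} ≤ pp W'`. So
some `b' ∈ W'` has `h a b' = 1`, `W' = E ⊔ span {b'}`. `u = b' - b ∈ pp U`. `μ = h u b`: `SD h a u μ`: `μ + σ μ + h u u = h u b + h b u + h u u = h b' b' - h b b = 0`. `sg` fixes `U` (`sg_fix_left`), `E` pointwise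
(`sg_eq`), `sg b = b + h a b • u - h u b • a + (μ * h a b) • a = b + u = b'`. So `W ↦ W'`.
-/

open Module Submodule Finset

set_option linter.unusedSectionVars false

namespace Pool.Agent.Helper20.UI

open Pool.Agent.Helper29.FT Pool.Agent.Helper29.FT2

variable {F V : Type*} [Field F] [AddCommGroup V] [Module F V] [FiniteDimensional F V]
variable {σ : F →+* F} {h : V →ₛₗ[σ] V →ₗ[F] F}

theorem trans_ti (hH : Herm h) {U U' : Submodule F V} (hU : TI h U) (hU' : TI h U')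
    (hd : finrank F U = finrank F U') : ∃ g : V ≃ₗ[F] V, Iso h g ∧ U.map (g : V →ₗ[F] V) = U' :=
  reach hH (k := finrank F U') (P := fun T => ∃ g : V ≃ₗ[F] V, Iso h g ∧
    U.map (g : V →ₗ[F] V) = T) (S := ⊤) (fun a w μ hd _ T hT => by
      obtain ⟨g, hg, rfl⟩ := hT
      exact ⟨sg hd * g, (iso_sg hd).mul hg, map_mul' _ _ _⟩) le_top le_top hU' hU rfl hd
    ⟨1, Iso.one, map_one' U⟩

theorem lift_tv (hH : Herm h) {X : Submodule F V} (hX : TI h X) {v : V} (hv : v ∈ X)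
    (f : Dual F V) (hf : f v = 0) : ∃ g : V ≃ₗ[F] V, Iso h g ∧ ∀ x ∈ X, g x = x + f x • v := by
  obtain ⟨w, hw⟩ := exists_vec hH (-f)
  have h1 : h w v = 0 := by
    rw [hw, LinearMap.neg_apply, hf, neg_zero]
  obtain ⟨μ, hd⟩ := exists_sd hH (hX v hv v hv) (swap0 hH h1)
  refine ⟨sg hd, iso_sg hd, fun x hx => ?_⟩
  rw [sg_apply, hX v hv x hx, hw, LinearMap.neg_apply, zero_smul, add_zero, mul_zero, zero_smul,
    add_zero, neg_smul, sub_neg_eq_add]

theorem move_hyp (hH : Herm h) {X A T R : Submodule F V} (hX : TI h X) (hTX : T ≤ X)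
    (hRX : R ≤ X) (hdT : finrank F T + 1 = finrank F X) (hdR : finrank F R + 1 = finrank F X)
    (hAX : A ≤ X) (hAT : ¬ A ≤ T) (hAR : ¬ A ≤ R) :
    ∃ g : V ≃ₗ[F] V, Iso h g ∧ A.map (g : V →ₗ[F] V) = A ∧ T.map (g : V →ₗ[F] V) = R := by
  have hv : ∃ v ∈ A, v ∉ T ∧ v ∉ R := by
    obtain ⟨a₁, h1, h1'⟩ := SetLike.not_le_iff_exists.mp hAT
    obtain ⟨a₂, h2, h2'⟩ := SetLike.not_le_iff_exists.mp hAR
    by_cases h3 : a₁ ∈ R
    · by_cases h4 : a₂ ∈ T
      · refine ⟨a₁ + a₂, A.add_mem h1 h2, fun h5 => h1' ?_, fun h5 => h2' ?_⟩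
        · have := T.sub_mem h5 h4
          rwa [add_sub_cancel_right] at this
        · have := R.sub_mem h5 h3
          rwa [add_sub_cancel_left] at this
      · exact ⟨a₂, h2, h4, h2'⟩
    · exact ⟨a₁, h1, h1', h3⟩
  obtain ⟨v, hvA, hvT, hvR⟩ := hv
  have hTv : T ⊔ span F {v} = X := by
    apply Submodule.eq_of_le_of_finrank_eq
    · exact sup_le hTX ((span_singleton_le_iff_mem _ _).mpr (hAX hvA))
    · rw [finrank_sup_span_singleton hvT, hdT]
  obtain ⟨f, hf, hfR⟩ := exists_tv hvT hvR (hRX.trans hTv.ge) (by omega)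
  obtain ⟨g, hg, hgX⟩ := lift_tv hH hX (hAX hvA) f hf
  refine ⟨g, hg, map_eq_of_le (fun x hx => ?_) rfl, map_eq_of_le (fun x hx => ?_) (by omega)⟩
  · rw [hgX x (hAX hx)]
    exact A.add_mem hx (A.smul_mem _ hvA)
  · rw [hgX x (hTX hx), ← tv_apply f v hf, ← hfR]
    exact Submodule.mem_map_of_mem hx

private theorem Orb_sup {k : ℕ} {U W : Submodule F V} (dU : finrank F U = k)
    (dW : finrank F W = k) (hi : finrank F (U ⊓ W : Submodule F V) + 1 = k) :
    finrank F (U ⊔ W : Submodule F V) = k + 1 := by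
  have := Submodule.finrank_sup_add_finrank_inf_eq U W
  omega

private theorem Orb_ne {k : ℕ} {U W : Submodule F V} (dU : finrank F U = k)
    (hi : finrank F (U ⊓ W : Submodule F V) + 1 = k) : U ≠ W := by
  rintro rfl
  rw [inf_idem] at hi
  omega

theorem trans_perp (hH : Herm h) {k : ℕ} {U W U' W' : Submodule F V} (dU : finrank F U = k)
    (dW : finrank F W = k) (dU' : finrank F U' = k) (dW' : finrank F W' = k) (tU : TI h U)
    (tW : TI h W) (tU' : TI h U') (tW' : TI h W')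
    (hi : finrank F (U ⊓ W : Submodule F V) + 1 = k)
    (hi' : finrank F (U' ⊓ W' : Submodule F V) + 1 = k) (hp : U ≤ pp h W) (hp' : U' ≤ pp h W') :
    ∃ g : V ≃ₗ[F] V, Iso h g ∧ U.map (g : V →ₗ[F] V) = U' ∧ W.map (g : V →ₗ[F] V) = W' := by
  have tX : TI h (U ⊔ W) := ti_sup hH tU tW hp
  have tX' : TI h (U' ⊔ W') := ti_sup hH tU' tW' hp'
  have dX := Orb_sup dU dW hi
  have dX' := Orb_sup dU' dW' hi'
  obtain ⟨g₁, hg₁, hg₁X⟩ := trans_ti hH tX tX' (by omega)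
  have dU₁ : finrank F (U.map (g₁ : V →ₗ[F] V)) = k := by rw [finrank_map', dU]
  obtain ⟨g₂, hg₂, hg₂X, hg₂U⟩ := move_hyp hH (X := U' ⊔ W') (A := U' ⊔ W')
    (T := U.map (g₁ : V →ₗ[F] V)) (R := U') tX'
    (by
      rw [← hg₁X]
      exact Submodule.map_mono le_sup_left) le_sup_left (by omega) (by omega) le_rfl
    (fun hle => by
      have := Submodule.finrank_mono hle
      omega)
    (fun hle => by
      have := Submodule.finrank_mono hle
      omega)
  have dW₂ : finrank F ((W.map (g₁ : V →ₗ[F] V)).map (g₂ : V →ₗ[F] V)) = k := by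
    rw [finrank_map', finrank_map', dW]
  obtain ⟨g₃, hg₃, hg₃U, hg₃W⟩ := move_hyp hH (X := U' ⊔ W') (A := U')
    (T := (W.map (g₁ : V →ₗ[F] V)).map (g₂ : V →ₗ[F] V)) (R := W') tX'
    (by
      have h1 : W.map (g₁ : V →ₗ[F] V) ≤ U' ⊔ W' := by
        rw [← hg₁X]
        exact Submodule.map_mono le_sup_right
      have h2 := Submodule.map_mono (f := (g₂ : V →ₗ[F] V)) h1
      rwa [hg₂X] at h2) le_sup_right (by omega) (by omega) le_sup_left
    (fun hle => by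
      have h1 : U' = (W.map (g₁ : V →ₗ[F] V)).map (g₂ : V →ₗ[F] V) :=
        Submodule.eq_of_le_of_finrank_eq hle (by omega)
      rw [← hg₂U] at h1
      exact Orb_ne dU hi (map_inj' g₁ (map_inj' g₂ h1)))
    (fun hle => Orb_ne dU' hi' (Submodule.eq_of_le_of_finrank_eq hle (by omega)))
  refine ⟨g₃ * (g₂ * g₁), hg₃.mul (hg₂.mul hg₁), ?_, ?_⟩
  · rw [map_mul', map_mul', hg₂U, hg₃U]
  · rw [map_mul', map_mul', hg₃W]

/-- the last step of `trans_opp` -/
private theorem Orb_last (hH : Herm h) {k : ℕ} {U W W' : Submodule F V} (dU : finrank F U = k)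
    (dW : finrank F W = k) (dW' : finrank F W' = k) (tU : TI h U) (tW : TI h W) (tW' : TI h W')
    (hE : U ⊓ W = U ⊓ W') (hi : finrank F (U ⊓ W : Submodule F V) + 1 = k)
    (hp : ¬ U ≤ pp h W) (hp' : ¬ U ≤ pp h W') :
    ∃ g : V ≃ₗ[F] V, Iso h g ∧ U.map (g : V →ₗ[F] V) = U ∧ W.map (g : V →ₗ[F] V) = W' := by
  obtain ⟨a, haU, ha⟩ := SetLike.not_le_iff_exists.mp hp
  rw [mem_pp] at ha
  push Not at ha
  obtain ⟨b0, hb0W, hb0⟩ := ha
  have hab0 : h a b0 ≠ 0 := fun h1 => hb0 (swap0 hH h1)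
  obtain ⟨b, hb⟩ : ∃ b, b = (h a b0)⁻¹ • b0 := ⟨_, rfl⟩
  have hbW : b ∈ W := by
    rw [hb]
    exact W.smul_mem _ hb0W
  have hab : h a b = 1 := by
    rw [hb, smul_right', inv_mul_cancel₀ hab0]
  have haE : a ∉ U ⊓ W := by
    intro h1
    have h2 := tW a h1.2 b hbW
    rw [hab] at h2
    exact one_ne_zero h2
  have hbE : b ∉ U ⊓ W := by
    intro h1
    have h2 := tU a haU b h1.1
    rw [hab] at h2
    exact one_ne_zero h2
  have hUe : (U ⊓ W) ⊔ span F {a} = U := by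
    apply Submodule.eq_of_le_of_finrank_eq
    · exact sup_le inf_le_left ((span_singleton_le_iff_mem _ _).mpr haU)
    · rw [finrank_sup_span_singleton haE, hi, dU]
  have hWe : (U ⊓ W) ⊔ span F {b} = W := by
    apply Submodule.eq_of_le_of_finrank_eq
    · exact sup_le inf_le_right ((span_singleton_le_iff_mem _ _).mpr hbW)
    · rw [finrank_sup_span_singleton hbE, hi, dW]
  have ha' : a ∉ pp h W' := by
    intro h1
    apply hp'
    rw [← hUe]
    refine sup_le ?_ ((span_singleton_le_iff_mem _ _).mpr h1)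
    rw [hE]
    exact inf_le_right.trans (ti_iff.mp tW')
  rw [mem_pp] at ha'
  push Not at ha'
  obtain ⟨c0, hc0W, hc0⟩ := ha'
  have hac0 : h a c0 ≠ 0 := fun h1 => hc0 (swap0 hH h1)
  obtain ⟨b', hb'⟩ : ∃ b', b' = (h a c0)⁻¹ • c0 := ⟨_, rfl⟩
  have hb'W : b' ∈ W' := by
    rw [hb']
    exact W'.smul_mem _ hc0W
  have hab' : h a b' = 1 := by
    rw [hb', smul_right', inv_mul_cancel₀ hac0]
  have hau : h a (b' - b) = 0 := by
    rw [map_sub, hab, hab', sub_self]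
  have hEu : ∀ e ∈ U ⊓ W, h e (b' - b) = 0 := by
    intro e he
    rw [map_sub, tW e he.2 b hbW]
    rw [hE] at he
    rw [tW' e he.2 b' hb'W, sub_self]
  have hd : SD h a (b' - b) (h (b' - b) b) := by
    refine ⟨hH, tU a haU a haU, hau, ?_⟩
    rw [← swap hH b (b' - b)]
    simp only [map_sub, LinearMap.sub_apply, tW b hbW b hbW, tW' b' hb'W b' hb'W]
    ring
  refine ⟨sg hd, iso_sg hd, sg_fix_left hd tU haU, map_eq_of_le (fun x hx => ?_) (by omega)⟩
  rw [← hWe] at hx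
  obtain ⟨e, he, y, hy, rfl⟩ := mem_sup.mp hx
  obtain ⟨c, rfl⟩ := mem_span_singleton.mp hy
  have h1 : sg hd e = e := sg_eq hd (tU a haU e he.1) (swap0 hH (hEu e he))
  have h2 : sg hd b = b' := by
    rw [sg_apply, hab, one_smul, mul_one]
    abel
  rw [map_add, map_smul, h1, h2]
  rw [hE] at he
  exact W'.add_mem he.2 (W'.smul_mem _ hb'W)

theorem trans_opp (hH : Herm h) {k : ℕ} {U W U' W' : Submodule F V} (dU : finrank F U = k)
    (dW : finrank F W = k) (dU' : finrank F U' = k) (dW' : finrank F W' = k) (tU : TI h U)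
    (tW : TI h W) (tU' : TI h U') (tW' : TI h W')
    (hi : finrank F (U ⊓ W : Submodule F V) + 1 = k)
    (hi' : finrank F (U' ⊓ W' : Submodule F V) + 1 = k) (hp : ¬ U ≤ pp h W)
    (hp' : ¬ U' ≤ pp h W') :
    ∃ g : V ≃ₗ[F] V, Iso h g ∧ U.map (g : V →ₗ[F] V) = U' ∧ W.map (g : V →ₗ[F] V) = W' := by
  obtain ⟨g₁, hg₁, hg₁U⟩ := trans_ti hH tU tU' (by omega)
  have hinf₁ : (U ⊓ W).map (g₁ : V →ₗ[F] V) = U' ⊓ W.map (g₁ : V →ₗ[F] V) := by
    rw [map_inf', hg₁U]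
  have di₁ : finrank F (U' ⊓ W.map (g₁ : V →ₗ[F] V) : Submodule F V) + 1 = k := by
    rw [← hinf₁, finrank_map', hi]
  obtain ⟨g₂, hg₂, hg₂U, hg₂E⟩ := move_hyp hH (X := U') (A := U')
    (T := U' ⊓ W.map (g₁ : V →ₗ[F] V)) (R := U' ⊓ W') tU' inf_le_left inf_le_left (by omega)
    (by omega) le_rfl
    (fun hle => by
      have := Submodule.finrank_mono hle
      omega)
    (fun hle => by
      have := Submodule.finrank_mono hle
      omega)
  rw [map_inf', hg₂U] at hg₂E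
  obtain ⟨g, hgdef⟩ : ∃ g : V ≃ₗ[F] V, g = g₂ * g₁ := ⟨_, rfl⟩
  have hg : Iso h g := by
    rw [hgdef]
    exact hg₂.mul hg₁
  have hgU : U.map (g : V →ₗ[F] V) = U' := by
    rw [hgdef, map_mul', hg₁U, hg₂U]
  have hgE : U' ⊓ W.map (g : V →ₗ[F] V) = U' ⊓ W' := by
    rw [hgdef, map_mul', hg₂E]
  have hp₂ : ¬ U' ≤ pp h (W.map (g : V →ₗ[F] V)) := by
    intro hle
    apply hp
    rw [pp_map hg, ← hgU] at hle
    intro x hx
    have h1 := hle (Submodule.mem_map_of_mem (f := (g : V →ₗ[F] V)) hx)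
    exact (mem_map_iff g).mp h1
  obtain ⟨g₃, hg₃, hg₃U, hg₃W⟩ := Orb_last hH dU' (W := W.map (g : V →ₗ[F] V))
    (by rw [finrank_map', dW]) dW' tU' (tW.map hg) tW' hgE (by rw [hgE]; exact hi') hp₂ hp'
  refine ⟨g₃ * g, hg₃.mul hg, ?_, ?_⟩
  · rw [map_mul', hgU, hg₃U]
  · rw [map_mul', hg₃W]

end Pool.Agent.Helper20.UI
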