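import Pool.Agent.Helper20.UI.Dim

/-!
# UI-07 Pair: paired bases of two totally isotropic subspaces

Induction on `finrank U`. If `U ≤ pp W` (in particular if `finrank U = 0`): choose complements `C` of `U ⊓ W` in `U` and `C'` in `W` (of the same dimension `m`; `Submodule.exists_isCompl`, intersect with `U`, see
`FT2.exists_decomp`) and bases `e`, `f` of them (`Module.finBasisOfFinrankEq`, coerced to `V`; `span (range e) = C`: `Submodule.map_subtype` of `Basis.span_eq`, or `Subtype.range_coe`); all `h (e i) (f j) = 0`.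
Otherwise some `e₀ ∈ U`, `f₀ ∈ W` have `h e₀ f₀ ≠ 0`, scaled to `1`. `U₁ = U ⊓ ker (h f₀)`, `W₁ = W ⊓ ker (h e₀)`: dimension one less (`finrank_inf_ker`), totally isotropic, `U₁ ⊓ W₁ = U ⊓ W` (`U ⊓ W` is orthogonal to
`e₀ ∈ U` and `f₀ ∈ W`), `U = U₁ ⊔ span {e₀}`, `W = W₁ ⊔ span {f₀}`. Induction gives `m, e, f` for `U₁, W₁`; take `Fin.cons e₀ e`, `Fin.cons f₀ f` (`Fin.range_cons`, `Submodule.span_insert`, `Fin.cases`):
`h e₀ (f j) = 0` (`f j ∈ W₁`), `h (e i) f₀ = 0` (`e i ∈ U₁`, `swap0`).
-/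

open Module Submodule Finset

set_option linter.unusedSectionVars false

namespace Pool.Agent.Helper20.UI

open Pool.Agent.Helper29.FT Pool.Agent.Helper29.FT2

variable {F V : Type*} [Field F] [AddCommGroup V] [Module F V] [FiniteDimensional F V]
variable {σ : F →+* F} {h : V →ₛₗ[σ] V →ₗ[F] F}

/-- a basis of a complement of the intersection -/
private theorem pair_compl (U W : Submodule F V) {m : ℕ}
    (hm : m + finrank F (U ⊓ W : Submodule F V) = finrank F W) :
    ∃ f : Fin m → V, (∀ i, f i ∈ W) ∧ (U ⊓ W) ⊔ span F (Set.range f) = W := by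
  obtain ⟨D, hD⟩ := Submodule.exists_isCompl (U ⊓ W)
  obtain ⟨C, hCdef⟩ : ∃ C : Submodule F V, C = D ⊓ W := ⟨_, rfl⟩
  have hC : U ⊓ W ⊔ C = W := by
    rw [hCdef, ← sup_inf_assoc_of_le D (inf_le_right : U ⊓ W ≤ W), hD.sup_eq_top, top_inf_eq]
  have hCI : U ⊓ W ⊓ C = ⊥ := by
    rw [hCdef, ← inf_assoc, hD.inf_eq_bot, bot_inf_eq]
  have hd := Submodule.finrank_sup_add_finrank_inf_eq (U ⊓ W) C
  rw [hC, hCI, finrank_bot] at hd
  have hCm : finrank F C = m := by omega
  let b := Module.finBasisOfFinrankEq F C hCm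
  have hCW : C ≤ W := by
    rw [← hC]
    exact le_sup_right
  have hs : span F (Set.range fun i => (b i : V)) = C := by
    have h1 : (Set.range fun i => (b i : V)) = C.subtype '' Set.range b := by
      rw [← Set.range_comp]
      rfl
    rw [h1, ← Submodule.map_span, b.span_eq, Submodule.map_subtype_top]
  refine ⟨fun i => (b i : V), fun i => hCW (b i).2, ?_⟩
  rw [hs, hC]

/-- a hyperplane and a vector outside it -/
private theorem pair_split {U : Submodule F V} {x : V} {f : Dual F V} (hx : x ∈ U)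
    (hf : f x = 1) : U ⊓ LinearMap.ker f ⊔ span F {x} = U := by
  apply le_antisymm
  · apply sup_le inf_le_left
    rw [span_singleton_le_iff_mem]
    exact hx
  · intro y hy
    rw [Submodule.mem_sup]
    refine ⟨y - f y • x, ?_, f y • x, Submodule.smul_mem _ _ (mem_span_singleton_self x),
      by abel⟩
    refine mem_inf.mpr ⟨U.sub_mem hy (U.smul_mem _ hx), ?_⟩
    rw [LinearMap.mem_ker, map_sub, map_smul, smul_eq_mul, hf, mul_one, sub_self]

private theorem pair_main (hH : Herm h) (n : ℕ) : ∀ {U W : Submodule F V}, TI h U → TI h W →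
    finrank F U = n → finrank F W = n →
    ∃ (m : ℕ) (e f : Fin m → V), m + finrank F (U ⊓ W : Submodule F V) = n ∧
      (∀ i, e i ∈ U) ∧ (∀ i, f i ∈ W) ∧ (U ⊓ W) ⊔ span F (Set.range e) = U ∧
      (U ⊓ W) ⊔ span F (Set.range f) = W ∧ (∀ i j, i ≠ j → h (e i) (f j) = 0) ∧
      ∀ i, h (e i) (f i) = 0 ∨ h (e i) (f i) = 1 := by
  induction n with
  | zero =>
    intro U W hU hW hdU hdW
    have h1 : U = ⊥ := Submodule.finrank_eq_zero.mp hdU
    have h2 : W = ⊥ := Submodule.finrank_eq_zero.mp hdW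
    subst h1
    subst h2
    refine ⟨0, Fin.elim0, Fin.elim0, ?_, fun i => i.elim0, fun i => i.elim0, ?_, ?_,
      fun i => i.elim0, fun i => i.elim0⟩
    · rw [inf_idem, hdU]
    · rw [Set.range_eq_empty, span_empty, sup_bot_eq, inf_idem]
    · rw [Set.range_eq_empty, span_empty, sup_bot_eq, inf_idem]
  | succ n ih =>
    intro U W hU hW hdU hdW
    by_cases hUW : U ≤ pp h W
    · -- no pairing
      have h1 : finrank F (U ⊓ W : Submodule F V) ≤ n + 1 := by
        rw [← hdU]
        exact Submodule.finrank_mono inf_le_left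
      obtain ⟨m, hm⟩ : ∃ m, m + finrank F (U ⊓ W : Submodule F V) = n + 1 :=
        ⟨n + 1 - finrank F (U ⊓ W : Submodule F V), by omega⟩
      obtain ⟨f, hf, hf'⟩ := pair_compl U W (m := m) (by rw [hm, hdW])
      obtain ⟨e, he, he'⟩ := pair_compl W U (m := m) (by rw [inf_comm, hm, hdU])
      refine ⟨m, e, f, hm, he, hf, ?_, hf', ?_, ?_⟩
      · rw [inf_comm]
        exact he'
      · intro i j _
        exact swap0 hH (hUW (he i) (f j) (hf j))
      · intro i
        exact Or.inl (swap0 hH (hUW (he i) (f i) (hf i)))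
    · obtain ⟨e₀, he₀, h1⟩ := SetLike.not_le_iff_exists.mp hUW
      rw [mem_pp] at h1
      push Not at h1
      obtain ⟨f₁, hf₁, h2⟩ := h1
      have h3 : h e₀ f₁ ≠ 0 := fun h4 => h2 (swap0 hH h4)
      obtain ⟨f₀, hf₀, hef⟩ : ∃ f₀ ∈ W, h e₀ f₀ = 1 :=
        ⟨(h e₀ f₁)⁻¹ • f₁, W.smul_mem _ hf₁, by rw [smul_right', inv_mul_cancel₀ h3]⟩
      have hfe : h f₀ e₀ = 1 := by rw [swap hH, hef, map_one]
      have hdU₁ := finrank_inf_ker he₀ (f := h f₀) (by rw [hfe]; exact one_ne_zero)
      have hdW₁ := finrank_inf_ker hf₀ (f := h e₀) (by rw [hef]; exact one_ne_zero)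
      have hsU := pair_split he₀ hfe
      have hsW := pair_split hf₀ hef
      have hint : U ⊓ LinearMap.ker (h f₀) ⊓ (W ⊓ LinearMap.ker (h e₀)) = U ⊓ W := by
        apply le_antisymm
        · exact inf_le_inf inf_le_left inf_le_left
        · intro x hx
          obtain ⟨hxU, hxW⟩ := mem_inf.mp hx
          exact mem_inf.mpr ⟨mem_inf.mpr ⟨hxU, LinearMap.mem_ker.mpr (hW f₀ hf₀ x hxW)⟩,
            mem_inf.mpr ⟨hxW, LinearMap.mem_ker.mpr (hU e₀ he₀ x hxU)⟩⟩
      obtain ⟨m, e, f, hm, he, hf, hse, hsf, hij, hii⟩ :=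
        ih (U := U ⊓ LinearMap.ker (h f₀)) (W := W ⊓ LinearMap.ker (h e₀))
          (hU.mono inf_le_left) (hW.mono inf_le_left) (by omega) (by omega)
      rw [hint] at hm hse hsf
      refine ⟨m + 1, Fin.cons e₀ e, Fin.cons f₀ f, by omega, ?_, ?_, ?_, ?_, ?_, ?_⟩
      · intro i
        refine Fin.cases ?_ (fun i => ?_) i
        · exact he₀
        · exact (mem_inf.mp (he i)).1
      · intro i
        refine Fin.cases ?_ (fun i => ?_) i
        · exact hf₀
        · exact (mem_inf.mp (hf i)).1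
      · rw [Fin.range_cons, span_insert, sup_comm (span F {e₀}), ← sup_assoc, hse, hsU]
      · rw [Fin.range_cons, span_insert, sup_comm (span F {f₀}), ← sup_assoc, hsf, hsW]
      · intro i j
        refine Fin.cases ?_ (fun i => ?_) i
        · refine Fin.cases ?_ (fun j => ?_) j
          · intro hne
            exact absurd rfl hne
          · intro _
            rw [Fin.cons_zero, Fin.cons_succ]
            exact LinearMap.mem_ker.mp (mem_inf.mp (hf j)).2
        · refine Fin.cases ?_ (fun j => ?_) j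
          · intro _
            rw [Fin.cons_zero, Fin.cons_succ]
            exact swap0 hH (LinearMap.mem_ker.mp (mem_inf.mp (he i)).2)
          · intro hne
            rw [Fin.cons_succ, Fin.cons_succ]
            exact hij i j (fun h5 => hne (by rw [h5]))
      · intro i
        refine Fin.cases ?_ (fun i => ?_) i
        · rw [Fin.cons_zero, Fin.cons_zero]
          exact Or.inr hef
        · rw [Fin.cons_succ, Fin.cons_succ]
          exact hii i

theorem exists_paired (hH : Herm h) {U W : Submodule F V} (hU : TI h U) (hW : TI h W)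
    (hd : finrank F U = finrank F W) :
    ∃ (m : ℕ) (e f : Fin m → V), m + finrank F (U ⊓ W : Submodule F V) = finrank F U ∧
      (∀ i, e i ∈ U) ∧ (∀ i, f i ∈ W) ∧ (U ⊓ W) ⊔ span F (Set.range e) = U ∧
      (U ⊓ W) ⊔ span F (Set.range f) = W ∧ (∀ i j, i ≠ j → h (e i) (f j) = 0) ∧
      ∀ i, h (e i) (f i) = 0 ∨ h (e i) (f i) = 1 :=
  pair_main hH (finrank F U) hU hW rfl hd.symm

end Pool.Agent.Helper20.UI
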