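import Pool.Agent.Helper20.UI.Isot

/-!
# UI-04 Reach: moving one totally isotropic subspace to another by Siegel elements

Copy the induction in `good_ti` of `Pool/Agent/Helper20/SI/GoodD.lean` (the claim `key`) and `caseA1_step`, `caseA1_mem` of `SI/CaseA1.lean`. Claim: for `m ≤ k` there is `T'` with `P T'`, `TI h T'`,
`T' ≤ S`, `finrank T' = k`, `m ≤ finrank (R ⊓ T')`. Step: `r ∈ R`, `r ∉ T`.
(a) some `z ∈ T` has `h r z ≠ 0` (`move_a`): `c₀` of `exists_c0`, `l = c₀ / h r z`, `v = r - l • z`: `h v v = - l * h r z - σ l * h z r = - (c₀ + σ c₀) = 0`, `c = c₀⁻¹` (`inv_tr`), `h v z = h r z`: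
`su z = z + (c₀⁻¹ * h r z) • (r - l • z) = (c₀⁻¹ * h r z) • r`; `y` with `h r y = h z y = 0` is fixed (`h v y = 0`). `v ∈ S`. The image `T.map su` contains `r` and `R ⊓ T`, is totally isotropic
(`TI.map`), of dimension `k`, and `≤ S` (`su_apply`, `v ∈ S`); `su` is `sg` of `sd_su` (unfold `su`).
(b) `h r z = 0` for all `z ∈ T`: hyperplane `Y` of `T` with `R ⊓ T ≤ Y`, `z ∈ T`, `z ∉ Y`, `z ∉ Y ⊔ span {r}`; `move_b` for `(r, z)` maps `z` to `z + r`; `move_b` for the centre `-z` and the vector
`z + r` (`h (-z) (z + r) = 0`, `z + r ∉ Y ⊔ span {-z}` because `r ∉ T`) maps `z + r` to `z + r + (-z) = r`. Both fix `Y` pointwise, both centres are in `S`; the intermediate space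
`Y ⊔ span {z + r} ≤ S`. `move_b`: `exists_pp` gives `w₀ ∈ pp (Y ⊔ span {r})` with `h w₀ z = 1`; `w = - w₀`, `h r w = 0`, `μ` of `exists_sd`; `sg z = z + h r z • w - h w z • r + .. = z + r`.
-/

open Module Submodule Finset

set_option linter.unusedSectionVars false

namespace Pool.Agent.Helper20.UI

open Pool.Agent.Helper29.FT Pool.Agent.Helper29.FT2

variable {F V : Type*} [Field F] [AddCommGroup V] [Module F V] [FiniteDimensional F V]
variable {σ : F →+* F} {h : V →ₛₗ[σ] V →ₗ[F] F}

theorem move_a (hH : Herm h) {r z : V} (hr : h r r = 0) (hz : h z z = 0) (hrz : h r z ≠ 0) :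
    ∃ (v : V) (hv : h v v = 0) (c : F) (hc : c + σ c = 0) (d : F), d ≠ 0 ∧
      v ∈ span F {r} ⊔ span F {z} ∧ su hH hv hc z = d • r ∧
      ∀ y, h r y = 0 → h z y = 0 → su hH hv hc y = y := by
  obtain ⟨c₀, hc0, hc⟩ := exists_c0 hH
  have hzr : h z r = σ (h r z) := swap hH z r
  set l : F := c₀ / h r z with hl
  have hlr : l * h r z = c₀ := div_mul_cancel₀ _ hrz
  have hv : h (r - l • z) (r - l • z) = 0 := by
    simp only [map_sub, LinearMap.sub_apply, smul_left, smul_right', hr, hz, hzr]
    have h1 : σ l * σ (h r z) = σ c₀ := by rw [← map_mul, hlr]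
    linear_combination - hlr - h1 - hc
  have hvz : h (r - l • z) z = h r z := by
    rw [map_sub, LinearMap.sub_apply, smul_left, hz, mul_zero, sub_zero]
  refine ⟨r - l • z, hv, c₀⁻¹, inv_tr hc, c₀⁻¹ * h r z, mul_ne_zero (inv_ne_zero hc0) hrz, ?_,
    ?_, ?_⟩
  · exact sub_mem (mem_sup_left (mem_span_singleton_self r))
      (mem_sup_right (Submodule.smul_mem _ _ (mem_span_singleton_self z)))
  · rw [su_apply, hvz, smul_sub, smul_smul]
    have h1 : c₀⁻¹ * h r z * l = 1 := by
      rw [mul_assoc, mul_comm (h r z) l, hlr, inv_mul_cancel₀ hc0]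
    rw [h1, one_smul]
    abel
  · intro y hry hzy
    have h1 : h (r - l • z) y = 0 := by
      rw [map_sub, LinearMap.sub_apply, smul_left, hry, hzy, mul_zero, sub_zero]
    rw [su_apply, h1, mul_zero, zero_smul, add_zero]

theorem move_b (hH : Herm h) {Y : Submodule F V} {r z : V} (hr : h r r = 0)
    (hrY : r ∈ pp h Y) (hrz : h r z = 0) (hz : z ∉ Y ⊔ span F {r}) :
    ∃ (w : V) (μ : F) (hd : SD h r w μ), (∀ y ∈ Y, sg hd y = y) ∧ sg hd z = z + r := by
  obtain ⟨w₀, hw₀, h1⟩ := exists_pp hH hz
  have hrw : h r (-w₀) = 0 := by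
    rw [map_neg, hw₀ r (mem_sup_right (mem_span_singleton_self r)), neg_zero]
  obtain ⟨μ, hd⟩ := exists_sd hH hr hrw
  refine ⟨-w₀, μ, hd, ?_, ?_⟩
  · intro y hy
    apply sg_eq hd ((mem_pp' hH).mp hrY y hy)
    rw [map_neg, LinearMap.neg_apply, (mem_pp' hH).mp hw₀ y (mem_sup_left hy), neg_zero]
  · rw [sg_apply, hrz, map_neg, LinearMap.neg_apply, h1]
    simp

/-- a property of subspaces that is preserved by the Siegel elements with centre in `S` holds for
all totally isotropic `k`-dimensional subspaces of `S` if it holds for one -/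
theorem reach (hH : Herm h) {k : ℕ} {P : Submodule F V → Prop} {S : Submodule F V}
    (hP : ∀ (a w : V) (μ : F) (hd : SD h a w μ), a ∈ S → ∀ T : Submodule F V, P T →
      P (T.map (sg hd : V →ₗ[F] V))) {R T : Submodule F V} (hRS : R ≤ S) (hTS : T ≤ S)
    (hR : TI h R) (hT : TI h T) (hRk : finrank F R = k) (hTk : finrank F T = k) (hPT : P T) :
    P R := by
  have key : ∀ m : ℕ, m ≤ k → ∃ T' : Submodule F V, P T' ∧ TI h T' ∧ T' ≤ S ∧
      finrank F T' = k ∧ m ≤ finrank F (R ⊓ T' : Submodule F V) := by
    intro m
    induction m with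
    | zero =>
      intro _
      exact ⟨T, hPT, hT, hTS, hTk, Nat.zero_le _⟩
    | succ m ih =>
      intro hm
      obtain ⟨T, hPT, hTt, hTS, hTk, hmT⟩ := ih (by omega)
      by_cases hbig : m + 1 ≤ finrank F (R ⊓ T : Submodule F V)
      · exact ⟨T, hPT, hTt, hTS, hTk, hbig⟩
      have hRT : ¬ R ≤ T := by
        intro hle
        rw [inf_eq_left.mpr hle, hRk] at hbig
        omega
      obtain ⟨r, hrR, hrT⟩ := SetLike.not_le_iff_exists.mp hRT
      have hrS : r ∈ S := hRS hrR
      have hrr : h r r = 0 := hR r hrR r hrR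
      have hfin : ∀ T' : Submodule F V, r ∈ T' → R ⊓ T ≤ T' →
          m + 1 ≤ finrank F (R ⊓ T' : Submodule F V) := by
        intro T' hr' hle
        have h1 : R ⊓ T < R ⊓ T' := by
          refine lt_of_le_of_ne (le_inf inf_le_left hle) ?_
          intro heq
          have h2 : r ∈ R ⊓ T' := ⟨hrR, hr'⟩
          rw [← heq] at h2
          exact hrT h2.2
        have h2 := Submodule.finrank_lt_finrank_of_lt h1
        omega
      -- images of subspaces of `S` under Siegel elements that move vectors by elements of `S`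
      by_cases ha : ∃ z ∈ T, h r z ≠ 0
      · obtain ⟨z, hz, hrz⟩ := ha
        have hzz : h z z = 0 := hTt z hz z hz
        obtain ⟨v, hv, c, hc, d, hd0, hvs, hsz, hfix⟩ := move_a hH hrr hzz hrz
        have hvS : v ∈ S := by
          have h1 : span F {r} ⊔ span F {z} ≤ S := by
            apply sup_le
            · rw [span_singleton_le_iff_mem]
              exact hrS
            · rw [span_singleton_le_iff_mem]
              exact hTS hz
          exact h1 hvs
        refine ⟨T.map (su hH hv hc : V →ₗ[F] V), hP v 0 c (sd_su hH hv hc) hvS T hPT,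
          hTt.map (iso_su hH hv hc), ?_, ?_, ?_⟩
        · rintro _ ⟨x, hx, rfl⟩
          show su hH hv hc x ∈ S
          rw [su_apply]
          exact S.add_mem (hTS hx) (S.smul_mem _ hvS)
        · rw [finrank_map', hTk]
        · apply hfin
          · have h1 : d • r ∈ T.map (su hH hv hc : V →ₗ[F] V) := by
              rw [← hsz]
              exact Submodule.mem_map_of_mem hz
            exact (Submodule.smul_mem_iff _ hd0).mp h1
          · intro y hy
            refine ⟨y, hy.2, ?_⟩
            exact hfix y (hR r hrR y hy.1) (hTt z hz y hy.2)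
      · push Not at ha
        obtain ⟨Y, hY1, hY2, hY3⟩ := exists_between (A := R ⊓ T) (X := T) (m := k - 1) inf_le_right
          (by omega) (by omega)
        have hYT : ¬ T ≤ Y := by
          intro hle
          have h1 := Submodule.finrank_mono hle
          omega
        obtain ⟨z, hzT, hzY⟩ := SetLike.not_le_iff_exists.mp hYT
        have hzz : h z z = 0 := hTt z hzT z hzT
        have hYz : Y ⊔ span F {z} = T := by
          apply Submodule.eq_of_le_of_finrank_eq
          · apply sup_le hY2
            rw [span_singleton_le_iff_mem]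
            exact hzT
          · rw [finrank_sup_span_singleton hzY]
            omega
        have hz1 : z ∉ Y ⊔ span F {r} := by
          intro hz'
          obtain ⟨y, hy, q, hq, hyq⟩ := mem_sup.mp hz'
          obtain ⟨c, rfl⟩ := mem_span_singleton.mp hq
          by_cases hc : c = 0
          · rw [hc, zero_smul, add_zero] at hyq
            exact hzY (hyq ▸ hy)
          · have h1 : c • r ∈ T := by
              have h2 := T.sub_mem hzT (hY2 hy)
              rwa [← hyq, add_sub_cancel_left] at h2
            rw [T.smul_mem_iff hc] at h1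
            exact hrT h1
        have hrY : r ∈ pp h Y := (mem_pp' hH).mpr (fun y hy => ha y (hY2 hy))
        obtain ⟨w, μ, hd, hfix, hsz⟩ := move_b hH hrr hrY (ha z hzT) hz1
        have hzr : h z r = 0 := swap0 hH (ha z hzT)
        have hzS : z ∈ S := hTS hzT
        have h2 : z + r ∉ Y ⊔ span F {-z} := by
          intro h3
          have h4 : Y ⊔ span F {-z} ≤ T := by
            apply sup_le hY2
            rw [span_singleton_le_iff_mem]
            exact T.neg_mem hzT
          have h5 := T.sub_mem (h4 h3) hzT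
          rw [add_sub_cancel_left] at h5
          exact hrT h5
        obtain ⟨w', μ', hd', hfix', hsz'⟩ := move_b (Y := Y) (r := -z) (z := z + r) hH
          (by simp only [map_neg, LinearMap.neg_apply, hzz, neg_zero])
          ((pp h Y).neg_mem ((mem_pp' hH).mpr (fun y hy => hTt z hzT y (hY2 hy))))
          (by rw [map_neg, LinearMap.neg_apply, map_add, hzz, hzr, add_zero, neg_zero]) h2
        have hg1 : T.map (sg hd : V →ₗ[F] V) = Y ⊔ span F {z + r} := by
          rw [← hYz, Submodule.map_sup, Submodule.map_span, Set.image_singleton]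
          congr 1
          · exact map_fix hfix
          · show span F {sg hd z} = _
            rw [hsz]
        have hg2 : (Y ⊔ span F {z + r}).map (sg hd' : V →ₗ[F] V) = Y ⊔ span F {r} := by
          rw [Submodule.map_sup, Submodule.map_span, Set.image_singleton]
          congr 1
          · exact map_fix hfix'
          · show span F {sg hd' (z + r)} = _
            rw [hsz']
            congr 2
            abel
        have hP1 := hP r w μ hd hrS T hPT
        have hP2 := hP (-z) w' μ' hd' (S.neg_mem hzS) _ hP1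
        have hT1 := (hTt.map (iso_sg hd)).map (iso_sg hd')
        rw [hg1, hg2] at hP2 hT1
        refine ⟨Y ⊔ span F {r}, hP2, hT1, ?_, ?_, ?_⟩
        · apply sup_le (hY2.trans hTS)
          rw [span_singleton_le_iff_mem]
          exact hrS
        · rw [finrank_sup_span_singleton (fun hr' => hrT (hY2 hr')), hY3]
          omega
        · apply hfin
          · exact mem_sup_right (mem_span_singleton_self r)
          · exact hY1.trans le_sup_left
  obtain ⟨T', hP', -, -, hTk', hkT⟩ := key k le_rfl
  have h1 : R ⊓ T' = R := by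
    apply Submodule.eq_of_le_of_finrank_le inf_le_left
    rw [hRk]
    exact hkT
  have h2 : R ⊓ T' = T' := by
    apply Submodule.eq_of_le_of_finrank_le inf_le_right
    rw [hTk']
    exact hkT
  rw [← h1, h2]
  exact hP'

end Pool.Agent.Helper20.UI
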