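import Pool.Agent.Helper20.UI.Defs
import Pool.Agent.Helper29.FT2.Trans

/-!
# Project UI (MP_cc38df_co): Siegel elements and transvections

For `h a a = 0`, `h a w = 0`, `μ + σ μ + h w w = 0`:
`sg : x ↦ x + h a x • w - h w x • a + (μ * h a x) • a` is an isometry of determinant one.
`su` is the case `w = 0` (unitary transvections), `ev` the case `c • w` with `h w w = 0`, `μ = 0`.
-/

open Module Submodule Finset

set_option linter.unusedSectionVars false

namespace Pool.Agent.Helper20.UI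

open Pool.Agent.Helper29.FT Pool.Agent.Helper29.FT2

variable {F V : Type*} [Field F] [AddCommGroup V] [Module F V] [FiniteDimensional F V]
variable {σ : F →+* F} {h : V →ₛₗ[σ] V →ₗ[F] F}

theorem Iso.mul {g g' : V ≃ₗ[F] V} (hg : Iso h g) (hg' : Iso h g') : Iso h (g * g') := by
  refine ⟨?_, ?_⟩
  · intro x y
    show h (g (g' x)) (g (g' y)) = h x y
    rw [hg.1, hg'.1]
  · rw [map_mul, hg.2, hg'.2, one_mul]

theorem Iso.one : Iso h (1 : V ≃ₗ[F] V) := ⟨fun _ _ => rfl, map_one _⟩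

theorem TI.map {g : V ≃ₗ[F] V} (hg : Iso h g) {U : Submodule F V} (hU : TI h U) :
    TI h (U.map (g : V →ₗ[F] V)) := by
  rintro _ ⟨x, hx, rfl⟩ _ ⟨y, hy, rfl⟩
  show h (g x) (g y) = 0
  rw [hg.1, hU x hx y hy]

theorem pp_map {g : V ≃ₗ[F] V} (hg : Iso h g) (U : Submodule F V) :
    pp h (U.map (g : V →ₗ[F] V)) = (pp h U).map (g : V →ₗ[F] V) := by
  ext x
  constructor
  · intro hx
    refine ⟨g.symm x, ?_, g.apply_symm_apply x⟩
    intro u hu
    have h1 := hx (g u) (Submodule.mem_map_of_mem hu)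
    rw [← hg.1 u (g.symm x), g.apply_symm_apply]
    exact h1
  · rintro ⟨y, hy, rfl⟩ _ ⟨u, hu, rfl⟩
    show h (g u) (g y) = 0
    rw [hg.1, hy u hu]

theorem map_symm_map' (g : V ≃ₗ[F] V) (U : Submodule F V) :
    (U.map (g : V →ₗ[F] V)).map (g.symm : V →ₗ[F] V) = U := by
  rw [← Submodule.map_comp]
  simp

theorem map_inf' (g : V ≃ₗ[F] V) (U W : Submodule F V) :
    (U ⊓ W).map (g : V →ₗ[F] V) = U.map (g : V →ₗ[F] V) ⊓ W.map (g : V →ₗ[F] V) :=
  Submodule.map_inf (g : V →ₗ[F] V) g.injective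

theorem map_inj' (g : V ≃ₗ[F] V) {U W : Submodule F V}
    (h : U.map (g : V →ₗ[F] V) = W.map (g : V →ₗ[F] V)) : U = W :=
  Submodule.map_injective_of_injective (f := (g : V →ₗ[F] V)) g.injective h

theorem map_fix {g : V ≃ₗ[F] V} {U : Submodule F V} (h : ∀ x ∈ U, g x = x) :
    U.map (g : V →ₗ[F] V) = U :=
  map_eq_of_le (fun x hx => by rw [h x hx]; exact hx) rfl

theorem mem_map_iff (g : V ≃ₗ[F] V) {U : Submodule F V} {x : V} :
    g x ∈ U.map (g : V →ₗ[F] V) ↔ x ∈ U := by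
  constructor
  · rintro ⟨y, hy, hxy⟩
    have : y = x := g.injective hxy
    rwa [← this]
  · exact fun h => Submodule.mem_map_of_mem h

/-! ### Siegel elements -/

/-- the data of a Siegel element -/
structure SD (h : V →ₛₗ[σ] V →ₗ[F] F) (a w : V) (μ : F) : Prop where
  herm : Herm h
  iso : h a a = 0
  perp : h a w = 0
  tr : μ + σ μ + h w w = 0

theorem SD.p1 {a w : V} {μ : F} (hd : SD h a w μ) : (-(h w)) a = 0 := by
  rw [LinearMap.neg_apply, swap0 hd.herm hd.perp, neg_zero]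

theorem SD.p2 {a w : V} {μ : F} (hd : SD h a w μ) : (h a) (w + (μ + h w w) • a) = 0 := by
  rw [map_add, map_smul, hd.perp, hd.iso]
  simp

/-- the Siegel element `x ↦ x + h a x • w - h w x • a + (μ * h a x) • a` -/
noncomputable def sg {a w : V} {μ : F} (hd : SD h a w μ) : V ≃ₗ[F] V :=
  tv (-(h w)) a hd.p1 * tv (h a) (w + (μ + h w w) • a) hd.p2

theorem sg_apply {a w : V} {μ : F} (hd : SD h a w μ) (x : V) :
    sg hd x = x + h a x • w - h w x • a + (μ * h a x) • a := by
  show tv (-(h w)) a hd.p1 (tv (h a) (w + (μ + h w w) • a) hd.p2 x) = _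
  rw [tv_apply, tv_apply]
  simp only [LinearMap.neg_apply, map_add, map_smul, smul_eq_mul, swap0 hd.herm hd.perp]
  module

theorem iso_sg {a w : V} {μ : F} (hd : SD h a w μ) : Iso h (sg hd) := by
  refine ⟨?_, ?_⟩
  · intro x y
    rw [sg_apply, sg_apply]
    have e1 : h a w = 0 := hd.perp
    have e2 : h w a = 0 := swap0 hd.herm hd.perp
    have e3 : h x a = σ (h a x) := swap hd.herm x a
    have e4 : h x w = σ (h w x) := swap hd.herm x w
    have e5 := hd.tr
    simp only [map_add, map_sub, LinearMap.map_smulₛₗ, map_smul, LinearMap.add_apply,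
      LinearMap.sub_apply, LinearMap.smul_apply, smul_eq_mul, map_mul, e1, e2, e3, e4, hd.iso]
    linear_combination (σ (h a x) * h a y) * e5
  · show LinearEquiv.det (tv (-(h w)) a hd.p1 * tv (h a) (w + (μ + h w w) • a) hd.p2) = 1
    rw [map_mul, LinearEquiv.transvection.det_eq_one, LinearEquiv.transvection.det_eq_one,
      one_mul]

theorem sg_fix_left {a w : V} {μ : F} (hd : SD h a w μ) {U : Submodule F V}
    (hU : TI h U) (ha : a ∈ U) : U.map (sg hd : V →ₗ[F] V) = U := by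
  apply map_eq_of_le _ rfl
  intro x hx
  rw [sg_apply, hU a ha x hx, zero_smul, add_zero, mul_zero, zero_smul, add_zero]
  exact U.sub_mem hx (U.smul_mem _ ha)

/-- `sg` is the identity on `U` if `a` and `w` are orthogonal to `U` -/
theorem sg_eq {a w : V} {μ : F} (hd : SD h a w μ) {x : V} (hax : h a x = 0)
    (hwx : h w x = 0) : sg hd x = x := by
  rw [sg_apply, hax, hwx]
  simp

theorem sg_fix_pp {a w : V} {μ : F} (hd : SD h a w μ) {U : Submodule F V}
    (ha : a ∈ pp h U) (hw : w ∈ pp h U) : U.map (sg hd : V →ₗ[F] V) = U := by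
  apply map_fix
  intro x hx
  exact sg_eq hd ((mem_pp' hd.herm).mp ha x hx) ((mem_pp' hd.herm).mp hw x hx)

/-! ### transvections -/

theorem sd_su (hH : Herm h) {v : V} (hv : h v v = 0) {c : F} (hc : c + σ c = 0) :
    SD h v 0 c := ⟨hH, hv, map_zero _, by rw [hc, map_zero, add_zero]⟩

/-- the unitary transvection `x ↦ x + (c * h v x) • v`, `h v v = 0`, `c + σ c = 0` -/
noncomputable def su (hH : Herm h) {v : V} (hv : h v v = 0) {c : F} (hc : c + σ c = 0) :
    V ≃ₗ[F] V := sg (sd_su hH hv hc)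

theorem su_apply (hH : Herm h) {v : V} (hv : h v v = 0) {c : F} (hc : c + σ c = 0) (x : V) :
    su hH hv hc x = x + (c * h v x) • v := by
  rw [su, sg_apply, map_zero, LinearMap.zero_apply, smul_zero, zero_smul, add_zero, sub_zero]

theorem iso_su (hH : Herm h) {v : V} (hv : h v v = 0) {c : F} (hc : c + σ c = 0) :
    Iso h (su hH hv hc) := iso_sg _

theorem su_fix (hH : Herm h) {v : V} (hv : h v v = 0) {c : F} (hc : c + σ c = 0)
    {U : Submodule F V} (hvU : v ∈ pp h U) : U.map (su hH hv hc : V →ₗ[F] V) = U :=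
  sg_fix_pp _ hvU (Submodule.zero_mem _)

/-- a transvection moves `T` -/
theorem su_ne (hH : Herm h) {v : V} (hv : h v v = 0) {c : F} (hc : c + σ c = 0) (hc0 : c ≠ 0)
    {x : V} {T : Submodule F V} (hvT : v ∉ T) (hx : x ∈ T) (hvx : h v x ≠ 0) :
    T.map (su hH hv hc : V →ₗ[F] V) ≠ T := by
  intro h1
  have h2 : su hH hv hc x ∈ T.map (su hH hv hc : V →ₗ[F] V) := Submodule.mem_map_of_mem hx
  rw [h1, su_apply] at h2
  have h3 := T.sub_mem h2 hx
  rw [add_sub_cancel_left, T.smul_mem_iff (mul_ne_zero hc0 hvx)] at h3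
  exact hvT h3

/-- `T ∩ v^⊥` lies in the image of `T` under a transvection with centre `v` -/
theorem inf_le_su (hH : Herm h) {v : V} (hv : h v v = 0) {c : F} (hc : c + σ c = 0)
    (T : Submodule F V) : T ⊓ LinearMap.ker (h v) ≤ T.map (su hH hv hc : V →ₗ[F] V) := by
  intro x hx
  refine ⟨x, hx.1, ?_⟩
  show su hH hv hc x = x
  rw [su_apply, LinearMap.mem_ker.mp hx.2, mul_zero, zero_smul, add_zero]

/-! ### the elements `x ↦ x + (c * h a x) • b - (σ c * h b x) • a` -/

theorem sd_ev (hH : Herm h) {a b : V} (ha : h a a = 0) (hb : h b b = 0) (hab : h a b = 0)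
    (c : F) : SD h a (c • b) 0 := by
  refine ⟨hH, ha, ?_, ?_⟩
  · rw [smul_right', hab, mul_zero]
  · rw [smul_left, smul_right', hb]
    simp

/-- `x ↦ x + (c * h a x) • b - (σ c * h b x) • a` for orthogonal isotropic `a`, `b` -/
noncomputable def ev (hH : Herm h) {a b : V} (ha : h a a = 0) (hb : h b b = 0)
    (hab : h a b = 0) (c : F) : V ≃ₗ[F] V := sg (sd_ev hH ha hb hab c)

theorem ev_apply (hH : Herm h) {a b : V} (ha : h a a = 0) (hb : h b b = 0)
    (hab : h a b = 0) (c : F) (x : V) :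
    ev hH ha hb hab c x = x + (c * h a x) • b - (σ c * h b x) • a := by
  rw [ev, sg_apply, smul_left, zero_mul, zero_smul, add_zero, smul_smul, mul_comm (h a x) c]

theorem iso_ev (hH : Herm h) {a b : V} (ha : h a a = 0) (hb : h b b = 0)
    (hab : h a b = 0) (c : F) : Iso h (ev hH ha hb hab c) := iso_sg _

theorem ev_fix_left (hH : Herm h) {a b : V} (ha : h a a = 0) (hb : h b b = 0)
    (hab : h a b = 0) (c : F) {U : Submodule F V} (hU : TI h U) (haU : a ∈ U) :
    U.map (ev hH ha hb hab c : V →ₗ[F] V) = U := sg_fix_left _ hU haU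

theorem ev_fix_right (hH : Herm h) {a b : V} (ha : h a a = 0) (hb : h b b = 0)
    (hab : h a b = 0) (c : F) {U : Submodule F V} (hU : TI h U) (hbU : b ∈ U) :
    U.map (ev hH ha hb hab c : V →ₗ[F] V) = U := by
  apply map_eq_of_le _ rfl
  intro x hx
  rw [ev_apply, hU b hbU x hx, mul_zero, zero_smul, sub_zero]
  exact U.add_mem hx (U.smul_mem _ hbU)

/-! ### closed sets -/

variable {k : ℕ} {L : Finset (Submodule F V)}

/-- a transvection with centre orthogonal to two elements -/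
theorem Cl.su (hH : Herm h) (hL : Cl h k L) {v : V} (hv : h v v = 0) {c : F}
    (hc : c + σ c = 0) {U W T : Submodule F V} (hU : U ∈ L) (hW : W ∈ L) (hUW : U ≠ W)
    (hvU : v ∈ pp h U) (hvW : v ∈ pp h W) (hT : T ∈ L) :
    T.map (su hH hv hc : V →ₗ[F] V) ∈ L :=
  hL.cl _ (iso_su hH hv hc) U hU W hW hUW (su_fix hH hv hc hvU) (su_fix hH hv hc hvW) T hT

theorem Good.iso (hL : Cl h k L) {v : V} (hv : Good L v) : h v v = 0 := by
  obtain ⟨U, hU, W, hW, hUW, hvU, hvW⟩ := hv
  exact hL.ti U hU v hvU v hvU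

/-- a Siegel element whose centre lies in two elements -/
theorem Cl.sg_good (hL : Cl h k L) {a w : V} {μ : F} (hd : SD h a w μ) (ha : Good L a)
    {T : Submodule F V} (hT : T ∈ L) : T.map (sg hd : V →ₗ[F] V) ∈ L := by
  obtain ⟨U, hU, W, hW, hUW, haU, haW⟩ := ha
  exact hL.cl _ (iso_sg hd) U hU W hW hUW (sg_fix_left hd (hL.ti U hU) haU)
    (sg_fix_left hd (hL.ti W hW) haW) T hT

/-- a transvection whose centre lies in two elements -/
theorem Cl.su_good (hH : Herm h) (hL : Cl h k L) {v : V} (hv : h v v = 0) {c : F}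
    (hc : c + σ c = 0) (hg : Good L v) {T : Submodule F V} (hT : T ∈ L) :
    T.map (UI.su hH hv hc : V →ₗ[F] V) ∈ L := hL.sg_good _ hg hT

/-- `ev` with `a ∈ U`, `b ∈ W` -/
theorem Cl.ev_cross (hH : Herm h) (hL : Cl h k L) {a b : V} (ha : h a a = 0) (hb : h b b = 0)
    (hab : h a b = 0) (c : F) {U W T : Submodule F V} (hU : U ∈ L) (hW : W ∈ L) (hUW : U ≠ W)
    (haU : a ∈ U) (hbW : b ∈ W) (hT : T ∈ L) :
    T.map (ev hH ha hb hab c : V →ₗ[F] V) ∈ L :=
  hL.cl _ (iso_ev hH ha hb hab c) U hU W hW hUW (ev_fix_left hH ha hb hab c (hL.ti U hU) haU)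
    (ev_fix_right hH ha hb hab c (hL.ti W hW) hbW) T hT

/-- a Siegel element with `a ∈ U` and `a, w` orthogonal to `W` -/
theorem Cl.sg_mixed (hL : Cl h k L) {a w : V} {μ : F} (hd : SD h a w μ)
    {U W T : Submodule F V} (hU : U ∈ L) (hW : W ∈ L) (hUW : U ≠ W) (ha : a ∈ U)
    (haW : a ∈ pp h W) (hwW : w ∈ pp h W) (hT : T ∈ L) : T.map (sg hd : V →ₗ[F] V) ∈ L :=
  hL.cl _ (iso_sg hd) U hU W hW hUW (sg_fix_left hd (hL.ti U hU) ha)
    (sg_fix_pp hd haW hwW) T hT

/-- an isometry that preserves `L` preserves the good vectors -/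
theorem Good.map {g : V ≃ₗ[F] V} (hg : ∀ T ∈ L, T.map (g : V →ₗ[F] V) ∈ L) {v : V}
    (hv : Good L v) : Good L (g v) := by
  obtain ⟨U, hU, W, hW, hUW, hvU, hvW⟩ := hv
  exact ⟨_, hg U hU, _, hg W hW, fun h => hUW (map_inj' g h), Submodule.mem_map_of_mem hvU,
    Submodule.mem_map_of_mem hvW⟩

/-- the dimension of the intersection with the kernel of a functional -/
theorem finrank_inf_ker_ge (T : Submodule F V) (f : Dual F V) :
    finrank F T ≤ finrank F (T ⊓ LinearMap.ker f : Submodule F V) + 1 := by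
  by_cases h : ∃ x ∈ T, f x ≠ 0
  · obtain ⟨x, hx, hfx⟩ := h
    rw [finrank_inf_ker hx hfx]
  · push Not at h
    have : T ⊓ LinearMap.ker f = T := inf_eq_left.mpr
      (fun x hx => LinearMap.mem_ker.mpr (h x hx))
    rw [this]
    omega

end Pool.Agent.Helper20.UI
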