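import Pool.Agent.Helper20.UI.Isot

/-!
# UI-08 Shear: shears between two totally isotropic subspaces

`shear_one`: if `h (e i) (f i) = 1` (then `lam i = c`): `su` with the centre `f i` (`f i ∈ W` isotropic) and the scalar `c`: `x ↦ x + (c * h (f i) x) • f i`: identity on `W`; `h (f i) (e i) = σ 1 = 1`; `h (f i) (e j) = 0`
(`swap0`). If `h (e i) (f i) = 0` (`lam i = 1`): `e i ∉ Y := W ⊔ span (e '' {i}ᶜ)`: otherwise `U ⊔ W ≤ Y` (`U ⊓ W ≤ W`, all `e j ∈ Y`), but `finrank Y ≤ finrank W + (m - 1)` (`finrank_span_le_card`/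
`finrank_range_le_card`; `Submodule.finrank_add_le_finrank_add_finrank`) and `finrank (U ⊔ W) = 2 finrank U - finrank (U ⊓ W) = finrank W + m`. `exists_pp`: `w₀ ∈ pp Y`, `h w₀ (e i) = 1`; `w = -w₀`; Siegel element with
centre `f i`: `h (f i) w = 0` (`w ∈ pp W`), `μ` of `exists_sd`: `sg x = x + h (f i) x • w - h w x • f i + ..`: identity on `W` and at `e j` (`h (f i) (e j) = 0`, `w ∈ pp Y`), `e i ↦ e i + f i`.
`shear`: induction on the finset `S` of processed indices: product of the `shear_one`s; each fixes `W ∋ f i` pointwise and the other `e j`, and `e i + lam i • f i` (`j ≠ i`).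
-/

open Module Submodule Finset

set_option linter.unusedSectionVars false

namespace Pool.Agent.Helper20.UI

open Pool.Agent.Helper29.FT Pool.Agent.Helper29.FT2

variable {F V : Type*} [Field F] [AddCommGroup V] [Module F V] [FiniteDimensional F V]
variable {σ : F →+* F} {h : V →ₛₗ[σ] V →ₗ[F] F}

theorem shear_one (hH : Herm h) {U W : Submodule F V} (hU : TI h U) (hW : TI h W)
    (hd : finrank F U = finrank F W) {m : ℕ} {e f : Fin m → V}
    (hm : m + finrank F (U ⊓ W : Submodule F V) = finrank F U) (he : ∀ i, e i ∈ U)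
    (hf : ∀ i, f i ∈ W) (hUe : (U ⊓ W) ⊔ span F (Set.range e) = U)
    (h0 : ∀ i j, i ≠ j → h (e i) (f j) = 0) {c : F} (hc : c + σ c = 0) {lam : Fin m → F}
    (hl : ∀ i, (h (e i) (f i) = 0 ∧ lam i = 1) ∨ (h (e i) (f i) = 1 ∧ lam i = c)) (i : Fin m) :
    ∃ g : V ≃ₗ[F] V, Iso h g ∧ (∀ w ∈ W, g w = w) ∧ g (e i) = e i + lam i • f i ∧
      ∀ j, j ≠ i → g (e j) = e j := by
  classical
  have hff : h (f i) (f i) = 0 := hW _ (hf i) _ (hf i)
  rcases hl i with ⟨h1, h2⟩ | ⟨h1, h2⟩
  · -- a Siegel element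
    set Z : Submodule F V := span F (((Finset.univ.erase i).image e : Finset V) : Set V) with hZ
    have hZe : ∀ j, j ≠ i → e j ∈ Z := by
      intro j hj
      apply subset_span
      rw [Finset.mem_coe, Finset.mem_image]
      exact ⟨j, Finset.mem_erase.mpr ⟨hj, Finset.mem_univ j⟩, rfl⟩
    have hnot : e i ∉ W ⊔ Z := by
      intro hi
      have h3 : U ⊔ W ≤ W ⊔ Z := by
        apply sup_le _ le_sup_left
        rw [← hUe]
        apply sup_le (inf_le_right.trans le_sup_left)
        rw [span_le]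
        rintro _ ⟨j, rfl⟩
        by_cases hj : j = i
        · rw [hj]
          exact hi
        · exact mem_sup_right (hZe j hj)
      have h4 := Submodule.finrank_mono h3
      have h5 := Submodule.finrank_sup_add_finrank_inf_eq U W
      have h6 := Submodule.finrank_add_le_finrank_add_finrank W Z
      have h7 : finrank F Z ≤ m - 1 := by
        refine (finrank_span_finset_le_card _).trans ?_
        refine Finset.card_image_le.trans ?_
        rw [Finset.card_erase_of_mem (Finset.mem_univ i), Finset.card_univ, Fintype.card_fin]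
      have h8 : 0 < m := i.pos
      omega
    obtain ⟨w₀, hw₀, hw1⟩ := exists_pp hH hnot
    have hw : -w₀ ∈ pp h (W ⊔ Z) := (pp h _).neg_mem hw₀
    obtain ⟨μ, hd'⟩ := exists_sd hH hff (w := -w₀) (by
      exact (mem_pp.mp hw) _ (mem_sup_left (hf i)))
    refine ⟨sg hd', iso_sg hd', ?_, ?_, ?_⟩
    · intro x hx
      exact sg_eq hd' (hW _ (hf i) x hx) ((mem_pp' hH).mp hw x (mem_sup_left hx))
    · have h3 : h (f i) (e i) = 0 := swap0 hH h1
      rw [sg_apply, h3, map_neg, LinearMap.neg_apply, hw1, h2]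
      simp
    · intro j hj
      exact sg_eq hd' (swap0 hH (h0 j i hj)) ((mem_pp' hH).mp hw _ (mem_sup_right (hZe j hj)))
  · refine ⟨su hH hff hc, iso_su hH hff hc, ?_, ?_, ?_⟩
    · intro x hx
      rw [su_apply, hW _ (hf i) x hx, mul_zero, zero_smul, add_zero]
    · rw [su_apply, swap hH, h1, map_one, mul_one, h2]
    · intro j hj
      rw [su_apply, swap0 hH (h0 j i hj), mul_zero, zero_smul, add_zero]

theorem shear (hH : Herm h) {U W : Submodule F V} (hU : TI h U) (hW : TI h W)
    (hd : finrank F U = finrank F W) {m : ℕ} {e f : Fin m → V}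
    (hm : m + finrank F (U ⊓ W : Submodule F V) = finrank F U) (he : ∀ i, e i ∈ U)
    (hf : ∀ i, f i ∈ W) (hUe : (U ⊓ W) ⊔ span F (Set.range e) = U)
    (h0 : ∀ i j, i ≠ j → h (e i) (f j) = 0) {c : F} (hc : c + σ c = 0) {lam : Fin m → F}
    (hl : ∀ i, (h (e i) (f i) = 0 ∧ lam i = 1) ∨ (h (e i) (f i) = 1 ∧ lam i = c)) :
    ∃ g : V ≃ₗ[F] V, Iso h g ∧ (∀ w ∈ W, g w = w) ∧ ∀ i, g (e i) = e i + lam i • f i := by
  classical
  have key : ∀ S : Finset (Fin m), ∃ g : V ≃ₗ[F] V, Iso h g ∧ (∀ w ∈ W, g w = w) ∧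
      (∀ i ∈ S, g (e i) = e i + lam i • f i) ∧ ∀ i, i ∉ S → g (e i) = e i := by
    intro S
    induction S using Finset.induction_on with
    | empty =>
      exact ⟨1, Iso.one, fun _ _ => rfl, fun i hi => absurd hi (Finset.notMem_empty i),
        fun _ _ => rfl⟩
    | insert i₀ S hi₀ ih =>
      obtain ⟨g, hg, hgW, hg1, hg2⟩ := ih
      obtain ⟨g', hg', hgW', hg1', hg2'⟩ := shear_one hH hU hW hd hm he hf hUe h0 hc hl i₀
      refine ⟨g' * g, hg'.mul hg, ?_, ?_, ?_⟩
      · intro w hw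
        show g' (g w) = w
        rw [hgW w hw, hgW' w hw]
      · intro i hi
        show g' (g (e i)) = _
        by_cases hii : i = i₀
        · subst hii
          rw [hg2 i hi₀, hg1']
        · rw [hg1 i (Finset.mem_of_mem_insert_of_ne hi hii), map_add, map_smul,
            hgW' _ (hf i), hg2' i hii]
      · intro i hi
        show g' (g (e i)) = _
        rw [Finset.mem_insert, not_or] at hi
        rw [hg2 i hi.2, hg2' i hi.1]
  obtain ⟨g, hg, hgW, hg1, -⟩ := key Finset.univ
  exact ⟨g, hg, hgW, fun i => hg1 i (Finset.mem_univ i)⟩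

end Pool.Agent.Helper20.UI
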