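import Pool.Agent.Helper20.UI.Orb
import Pool.Agent.Helper20.SI.Gen

/-!
# UI-06 SpB: invariant sets of lines (short)

As in `Pool/Agent/Helper20/SI/SpB.lean` (copy): `coll_map`, `cl_of_line` (`Iso h g` is exactly the hypothesis of `SUInvariant`); `coll_perp`, `coll_opp` by `trans_perp`, `trans_opp`.
-/

open Module Submodule Finset

set_option linter.unusedSectionVars false

namespace Pool.Agent.Helper20.UI

open Pool.Agent.Helper29.FT Pool.Agent.Helper29.FT2

variable {F V : Type*} [Field F] [AddCommGroup V] [Module F V] [FiniteDimensional F V]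
variable {σ : F →+* F} {h : V →ₛₗ[σ] V →ₗ[F] F}

/-- adjacent totally isotropic `k`-dimensional subspaces -/
structure Adj (h : V →ₛₗ[σ] V →ₗ[F] F) (k : ℕ) (U W : Submodule F V) : Prop where
  dU : finrank F U = k
  dW : finrank F W = k
  tU : TI h U
  tW : TI h W
  inf : finrank F (U ⊓ W : Submodule F V) + 1 = k

theorem Adj.symm {k : ℕ} {U W : Submodule F V} (hUW : Adj h k U W) : Adj h k W U := by
  refine ⟨hUW.dW, hUW.dU, hUW.tW, hUW.tU, ?_⟩
  rw [inf_comm]
  exact hUW.inf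

section

variable [Finite F] [DecidableEq (Submodule F V)] {B : Finset (Finset (Submodule F V))}
  {k α s t μ : ℕ}

theorem coll_map (hB : SUInvariant h B) {g : V ≃ₗ[F] V} (hg : Iso h g)
    {U W : Submodule F V} (hUW : Coll B U W) :
    Coll B (U.map (g : V →ₗ[F] V)) (W.map (g : V →ₗ[F] V)) := by
  obtain ⟨hne, l, hl, hU, hW⟩ := hUW
  exact ⟨fun hc => hne (map_inj g hc), _, hB g hg.1 hg.2 l hl, mem_image_of_mem _ hU,
    mem_image_of_mem _ hW⟩

theorem cl_of_line (hB : SUInvariant h B) (hS : IsSPG (IsoGr h k) B α s t μ)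
    {l : Finset (Submodule F V)} (hl : l ∈ B) : Cl h k l := by
  refine ⟨?_, ?_, ?_⟩
  · intro U hU
    exact (mem_IsoGr.mp (hS.lines_sub l hl hU)).1
  · intro U hU
    exact (mem_IsoGr.mp (hS.lines_sub l hl hU)).2
  · intro g hg U hU W hW hUW hgU hgW T hT
    have h1 := hB g hg.1 hg.2 l hl
    have h2 : U ∈ l.image (fun U => U.map (g : V →ₗ[F] V)) := by
      rw [mem_image]
      exact ⟨U, hU, hgU⟩
    have h3 : W ∈ l.image (fun U => U.map (g : V →ₗ[F] V)) := by
      rw [mem_image]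
      exact ⟨W, hW, hgW⟩
    have h4 := hS.two_points _ h1 l hl U W hUW h2 h3 hU hW
    rw [← h4]
    exact mem_image_of_mem _ hT

theorem coll_perp (hH : Herm h) (hB : SUInvariant h B) {U W U' W' : Submodule F V}
    (hc : Coll B U W) (h1 : Adj h k U W) (hp : U ≤ pp h W) (h2 : Adj h k U' W')
    (hp' : U' ≤ pp h W') : Coll B U' W' := by
  obtain ⟨g, hg, h3, h4⟩ := trans_perp hH h1.dU h1.dW h2.dU h2.dW h1.tU h1.tW h2.tU h2.tW
    h1.inf h2.inf hp hp'
  rw [← h3, ← h4]
  exact coll_map hB hg hc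

theorem coll_opp (hH : Herm h) (hB : SUInvariant h B) {U W U' W' : Submodule F V}
    (hc : Coll B U W) (h1 : Adj h k U W) (hp : ¬ U ≤ pp h W) (h2 : Adj h k U' W')
    (hp' : ¬ U' ≤ pp h W') : Coll B U' W' := by
  obtain ⟨g, hg, h3, h4⟩ := trans_opp hH h1.dU h1.dW h2.dU h2.dW h1.tU h1.tW h2.tU h2.tW
    h1.inf h2.inf hp hp'
  rw [← h3, ← h4]
  exact coll_map hB hg hc

end

end Pool.Agent.Helper20.UI
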