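import Pool.Agent.Helper20.UI.Pair
import Pool.Agent.Helper20.UI.Shear
import Pool.Agent.Helper20.UI.SpB
import Pool.Agent.Helper29.FT.Excl

/-!
# UI-09 Tri: lines have at least three points

`exists_tri`: `exists_paired`, `exists_c0` (`c ≠ 0`, `c + σ c = 0`). `lam i = 1` if `h (e i) (f i) = 0`, `= c` otherwise (`if .. then .. else ..`, classical); `lam' i = 1` resp. `c⁻¹` (`inv_tr`). `shear` gives `g`: identity on `W`,
`e i ↦ e i + lam i • f i`; `shear` with the roles of `U`, `W` exchanged (pairs `f, e`; `h (f i) (e j) = σ (h (e j) (f i))`, `σ 1 = 1`; `inf_comm`) gives `g'`: identity on `U`, `f i ↦ f i + lam' i • e i`. `T = U.map g`. `W.map g = W`,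
`U.map g' = U` (`map_fix`). `W.map g' = T`: `T` and `W.map g'` have the same dimension, and `T ≤ W.map g'`: `U = (U ⊓ W) ⊔ span (range e)`, `g x = x = g' x` for `x ∈ U ⊓ W`; `g (e i) = e i + lam i • f i = lam i • g' (f i)`
(`lam i * lam' i = 1`); use `Submodule.map_sup`, `Submodule.map_span`, `span_le`.
`two_le_s`: copy from `Pool/Agent/Helper20/SI/Tri.lean`.
-/

open Module Submodule Finset

set_option linter.unusedSectionVars false

namespace Pool.Agent.Helper20.UI

open Pool.Agent.Helper29.FT Pool.Agent.Helper29.FT2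

variable {F V : Type*} [Field F] [AddCommGroup V] [Module F V] [FiniteDimensional F V]
variable {σ : F →+* F} {h : V →ₛₗ[σ] V →ₗ[F] F}

theorem exists_tri (hH : Herm h) {U W : Submodule F V} (hU : TI h U) (hW : TI h W)
    (hd : finrank F U = finrank F W) :
    ∃ (T : Submodule F V) (g g' : V ≃ₗ[F] V), Iso h g ∧ Iso h g' ∧
      U.map (g : V →ₗ[F] V) = T ∧ W.map (g : V →ₗ[F] V) = W ∧
      U.map (g' : V →ₗ[F] V) = U ∧ W.map (g' : V →ₗ[F] V) = T := by
  classical
  obtain ⟨m, e, f, hm, he, hf, hUe, hWf, h0, h1⟩ := exists_paired hH hU hW hd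
  obtain ⟨c, hc0, hc⟩ := exists_c0 hH
  set lam : Fin m → F := fun i => if h (e i) (f i) = 0 then 1 else c with hlam
  set lam' : Fin m → F := fun i => if h (e i) (f i) = 0 then 1 else c⁻¹ with hlam'
  have hl : ∀ i, (h (e i) (f i) = 0 ∧ lam i = 1) ∨ (h (e i) (f i) = 1 ∧ lam i = c) := by
    intro i
    by_cases h2 : h (e i) (f i) = 0
    · exact Or.inl ⟨h2, if_pos h2⟩
    · rcases h1 i with h3 | h3
      · exact absurd h3 h2
      · exact Or.inr ⟨h3, if_neg h2⟩
  have hl' : ∀ i, (h (f i) (e i) = 0 ∧ lam' i = 1) ∨ (h (f i) (e i) = 1 ∧ lam' i = c⁻¹) := by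
    intro i
    by_cases h2 : h (e i) (f i) = 0
    · exact Or.inl ⟨swap0 hH h2, if_pos h2⟩
    · rcases h1 i with h3 | h3
      · exact absurd h3 h2
      · refine Or.inr ⟨?_, if_neg h2⟩
        rw [swap hH, h3, map_one]
  have hll : ∀ i, lam i * lam' i = 1 := by
    intro i
    by_cases h2 : h (e i) (f i) = 0
    · rw [hlam, hlam']
      simp only [if_pos h2, mul_one]
    · rw [hlam, hlam']
      simp only [if_neg h2]
      exact mul_inv_cancel₀ hc0
  obtain ⟨g, hg, hgW, hge⟩ := shear hH hU hW hd hm he hf hUe h0 hc hl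
  obtain ⟨g', hg', hgU, hgf⟩ := shear hH hW hU hd.symm (m := m) (e := f) (f := e)
    (by rw [inf_comm, hm, hd]) hf he (by rw [inf_comm, hWf])
    (fun i j hij => swap0 hH (h0 j i hij.symm)) (inv_tr hc) hl'
  refine ⟨U.map (g : V →ₗ[F] V), g, g', hg, hg', rfl, map_fix hgW, map_fix hgU, ?_⟩
  symm
  apply Submodule.eq_of_le_of_finrank_eq
  · rw [Submodule.map_le_iff_le_comap]
    have h2 : U ⊓ W ≤ Submodule.comap (g : V →ₗ[F] V) (W.map (g' : V →ₗ[F] V)) := by
      intro x hx
      rw [Submodule.mem_comap]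
      refine ⟨x, hx.2, ?_⟩
      show g' x = g x
      rw [hgU x hx.1, hgW x hx.2]
    have h3 : span F (Set.range e) ≤ Submodule.comap (g : V →ₗ[F] V) (W.map (g' : V →ₗ[F] V)) := by
      rw [span_le]
      rintro _ ⟨i, rfl⟩
      refine ⟨lam i • f i, W.smul_mem _ (hf i), ?_⟩
      show g' (lam i • f i) = g (e i)
      rw [map_smul, hgf, hge, smul_add, smul_smul, hll, one_smul, add_comm]
    calc U = (U ⊓ W) ⊔ span F (Set.range e) := hUe.symm
      _ ≤ _ := sup_le h2 h3
  · rw [finrank_map', finrank_map', hd]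

theorem two_le_s [Finite F] [DecidableEq (Submodule F V)]
    {B : Finset (Finset (Submodule F V))} {k α s t μ : ℕ} (hH : Herm h)
    (hB : SUInvariant h B) (hS : IsSPG (IsoGr h k) B α s t μ)
    (hNL : NonLinear (IsoGr h k) B) : 2 ≤ s := by
  by_contra hcon
  have hs1 : s = 1 := by
    have := hS.s_pos
    omega
  obtain ⟨a, ha, -⟩ := id hNL
  obtain ⟨l, hl, hal⟩ := hS.exists_line ha
  have h1 : 1 < #l := by
    rw [hS.line_card l hl]
    omega
  obtain ⟨b, hb, hba⟩ := exists_mem_ne h1 a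
  have hab : Coll B a b := ⟨hba.symm, l, hl, hal, hb⟩
  have ha' := mem_IsoGr.mp ha
  have hb' := mem_IsoGr.mp (hS.lines_sub l hl hb)
  obtain ⟨T, g, g', hg, hg', h2, h3, h4, h5⟩ := exists_tri hH ha'.2 hb'.2
    (ha'.1.trans hb'.1.symm)
  have h6 := coll_map hB hg hab
  rw [h2, h3] at h6
  have h7 := coll_map hB hg' hab
  rw [h4, h5] at h7
  exact no_triangle hS hs1 hNL hab h6.symm h7

end Pool.Agent.Helper20.UI
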